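import Mathlib
import Pool.Agent.Helper92.GB.Defs

/-!
# Correlations of all orders and the exponential sum with multiplicative coefficients: definitions

Project CB (MP_b6b996_nt). README: /team-store/h92_CB_README.md
-/

set_option autoImplicit false

namespace Pool.Agent.Helper92.CB

open Finset
open Pool.Agent.Helper92.GB (e ext F npi)

/-- The correlation sum `∑_{n ≤ M} g(n + h₁) ⋯ g(n + h_k) e(n x)`. -/
noncomputable def corr (g : ℕ → ℤ) {k : ℕ} (h : Fin k → ℕ) (M : ℕ) (x : ℝ) : ℂ :=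
  ∑ n ∈ Icc 1 M, (∏ i, (g (n + h i) : ℂ)) * e (n * x)

/-- Multiplicative functions with `g² = μ²` with square root cancellation in the sum and in all
correlations of order at least two (these also twisted by `e(n x)`), uniformly in the shifts. -/
structure ChowlaClass (g : ℕ → ℤ) : Prop where
  mul : ∀ m n : ℕ, m.Coprime n → g (m * n) = g m * g n
  sq : ∀ n : ℕ, g n ^ 2 = ArithmeticFunction.moebius n ^ 2
  one : ∀ ε : ℝ, 0 < ε → ∃ C : ℝ, ∀ N : ℕ, 1 ≤ N →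
    |((∑ n ∈ Icc 1 N, g n : ℤ) : ℝ)| ≤ C * (N : ℝ) ^ (1 / 2 + ε)
  corr : ∀ k : ℕ, 2 ≤ k → ∀ ε : ℝ, 0 < ε → ∃ C : ℝ, ∀ M N : ℕ, M ≤ N → 1 ≤ N →
    ∀ h : Fin k → ℕ, Function.Injective h → (∀ i, h i ≤ N) → ∀ x : ℝ,
      ‖corr g h M x‖ ≤ C * (N : ℝ) ^ (1 / 2 + ε)

/-- The product of the signs `f p`, `p ∈ W`. -/
noncomputable def ch (W : Finset ℕ) (f : ℕ → ℤˣ) : ℝ := ∏ p ∈ W, ((f p : ℤ) : ℝ)

/-- The primes `≤ 2 N` which divide an odd number of the `n + h i`. -/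
def kap {k : ℕ} (h : Fin k → ℕ) (N n : ℕ) : Finset ℕ :=
  (Icc 1 (2 * N)).filter fun p => p.Prime ∧ Odd ((univ.filter fun i => p ∣ n + h i).card)

/-- The `n ≤ N` for which all `n + h i` are squarefree. -/
def sqf {k : ℕ} (h : Fin k → ℕ) (N : ℕ) : Finset ℕ :=
  open Classical in (Icc 1 N).filter fun n => ∀ i, Squarefree (n + h i)

/-- Overwrite `f` by `x` on `c`. -/
def ov (c : Finset ℕ) (x : {p // p ∈ c} → ℤˣ) (f : ℕ → ℤˣ) : ℕ → ℤˣ :=
  fun n => if h : n ∈ c then x ⟨n, h⟩ else f n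

/-- Averaging over the signs on `c` with weights `w`. -/
noncomputable def ex (c : Finset ℕ) (w : ({p // p ∈ c} → ℤˣ) → ℝ) (Φ : (ℕ → ℤˣ) → ℝ)
    (f : ℕ → ℤˣ) : ℝ := ∑ x, w x * Φ (ov c x f)

/-- Averaging over the signs on the cells `c i`, `i ∈ l`. -/
noncomputable def EL {I : Type} (c : I → Finset ℕ) (w : ∀ i, ({p // p ∈ c i} → ℤˣ) → ℝ) :
    List I → ((ℕ → ℤˣ) → ℝ) → (ℕ → ℤˣ) → ℝ
  | [], Φ => Φ
  | i :: l, Φ => ex (c i) (w i) (EL c w l Φ)

/-- The moment of the set `S` for the weight `w` on the signs on `c`. -/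
noncomputable def mom (c : Finset ℕ) (w : ({p // p ∈ c} → ℤˣ) → ℝ) (S : Finset ℕ) : ℝ :=
  ∑ x, w x * ∏ p : {p // p ∈ c}, if (p : ℕ) ∈ S then ((x p : ℤ) : ℝ) else 1

/-- Restriction of a sign function to `c`. -/
def rs (c : Finset ℕ) (f : ℕ → ℤˣ) : {p // p ∈ c} → ℤˣ := fun p => f p

/-- A probability weight. -/
def IsPW {Ω : Type} [Fintype Ω] (w : Ω → ℝ) : Prop := (∀ x, 0 ≤ w x) ∧ ∑ x, w x = 1

end Pool.Agent.Helper92.CB
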