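import Mathlib
import Pool.Agent.Helper92.CB.Defs

/-!
# Block CB-GR (MP_b6b996_nt)
Signs from a Gaussian vector with covariance `K`.
Proof. `K = Rᴴ R` (Matrix.PosSemidef, real matrix `R`, index type `ι`). Let `G` be standard Gaussian on `ι → ℝ` (`Measure.pi fun _ => gaussianReal 0 1`),
`X_i = ∑_q R q i G_q`, and `w x = ∫ ∏_i (1 + x_i sin X_i) / 2`. Then `w ≥ 0`, and summing over the coordinates of `x`
(`Finset.prod_univ_sum`): `∑_x w x ∏_{i ∈ W} x_i = ∫ ∏_{i ∈ W} sin X_i` (for `W = ∅` this is 1).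
`sin X = (e^{iX} - e^{-iX})/(2i) = ∑_{ε = ±1} ε e^{iεX}/(2i)`; expand the product over `W`; `∫ exp(i ⟨v, G⟩) = ∏_q exp(-v_q²/2)`
(integral of a product over coordinates, `charFun_gaussianReal`), with `v_q = ∑_{i ∈ W} ε_i R q i`, and `∑_q v_q² = ∑_{i,j} ε_i ε_j K_ij`.
-/

set_option autoImplicit false

namespace Pool.Agent.Helper92.CB

open Finset
open Pool.Agent.Helper92.GB (e ext F npi wt)

section
open scoped ComplexOrder MatrixOrder Matrix.Norms.L2Operator
private lemma gr_factor {ι : Type} [Fintype ι] [DecidableEq ι] (K : Matrix ι ι ℝ) (hK : K.PosSemidef) :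
    ∃ R : Matrix ι ι ℝ, ∀ i j, K i j = ∑ q, R q i * R q j := by
  obtain ⟨R, hR⟩ := CStarAlgebra.nonneg_iff_eq_star_mul_self.mp hK.nonneg
  refine ⟨R, fun i j => ?_⟩
  rw [hR, Matrix.star_eq_conjTranspose, Matrix.mul_apply]
  simp [Matrix.conjTranspose_apply]
end

open MeasureTheory ProbabilityTheory

private lemma gr_sum_units {M : Type} [AddCommMonoid M] (f : ℤˣ → M) : ∑ s, f s = f 1 + f (-1) := by
  rw [UnitsInt.univ, Finset.sum_pair (by decide)]

private noncomputable def grX {ι : Type} [Fintype ι] (R : Matrix ι ι ℝ) (g : ι → ℝ) (i : ι) : ℝ :=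
  ∑ q, R q i * g q

private noncomputable def grμ (ι : Type) [Fintype ι] : Measure (ι → ℝ) :=
  Measure.pi fun _ => gaussianReal 0 1

private instance (ι : Type) [Fintype ι] : IsProbabilityMeasure (grμ ι) := by
  unfold grμ; infer_instance

private lemma grX_cont {ι : Type} [Fintype ι] (R : Matrix ι ι ℝ) (i : ι) :
    Continuous (fun g => grX R g i) := by
  unfold grX
  exact continuous_finset_sum _ fun q _ => continuous_const.mul (continuous_apply q)

private noncomputable def grw {ι : Type} [Fintype ι] (R : Matrix ι ι ℝ) (x : ι → ℤˣ) : ℝ :=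
  ∫ g, ∏ i, ((1 + ((x i : ℤ) : ℝ) * Real.sin (grX R g i)) / 2) ∂(grμ ι)

private lemma gr_abs_unit (s : ℤˣ) : |((s : ℤ) : ℝ)| = 1 := by
  rcases Int.units_eq_one_or s with h | h <;> simp [h]

private lemma gr_fac_nonneg (s : ℤˣ) (t : ℝ) : 0 ≤ (1 + ((s : ℤ) : ℝ) * Real.sin t) / 2 := by
  have h1 := Real.neg_one_le_sin t
  have h2 := Real.sin_le_one t
  rcases Int.units_eq_one_or s with h | h
  · rw [h]; push_cast; linarith
  · rw [h]; push_cast; linarith

private lemma gr_fac_le (s : ℤˣ) (t : ℝ) : (1 + ((s : ℤ) : ℝ) * Real.sin t) / 2 ≤ 1 := by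
  have h1 := Real.neg_one_le_sin t
  have h2 := Real.sin_le_one t
  rcases Int.units_eq_one_or s with h | h
  · rw [h]; push_cast; linarith
  · rw [h]; push_cast; linarith

private lemma gr_integrable {ι : Type} [Fintype ι] (R : Matrix ι ι ℝ) (x : ι → ℤˣ) (c : ℝ) :
    Integrable (fun g => (∏ i, ((1 + ((x i : ℤ) : ℝ) * Real.sin (grX R g i)) / 2)) * c) (grμ ι) := by
  refine Integrable.mul_const ?_ c
  refine Integrable.of_bound (C := 1) ?_ ?_
  · refine Continuous.aestronglyMeasurable ?_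
    refine continuous_finset_prod _ fun i _ => ?_
    exact (continuous_const.add (continuous_const.mul (Real.continuous_sin.comp (grX_cont R i)))).div_const 2
  · filter_upwards with g
    rw [Real.norm_eq_abs, Finset.abs_prod]
    refine Finset.prod_le_one (fun i _ => abs_nonneg _) fun i _ => ?_
    rw [abs_of_nonneg (gr_fac_nonneg _ _)]
    exact gr_fac_le _ _

private lemma gr_moment {ι : Type} [Fintype ι] [DecidableEq ι] (R : Matrix ι ι ℝ) (W : Finset ι) :
    ∑ x, grw R x * ∏ i ∈ W, ((x i : ℤ) : ℝ) = ∫ g, ∏ i ∈ W, Real.sin (grX R g i) ∂(grμ ι) := by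
  unfold grw
  simp_rw [← integral_mul_const]
  rw [← integral_finset_sum _ (fun x _ => gr_integrable R x _)]
  congr 1
  funext g
  have h1 : ∀ x : ι → ℤˣ, (∏ i, ((1 + ((x i : ℤ) : ℝ) * Real.sin (grX R g i)) / 2)) * ∏ i ∈ W, ((x i : ℤ) : ℝ)
      = ∏ i, ((1 + ((x i : ℤ) : ℝ) * Real.sin (grX R g i)) / 2 * (if i ∈ W then ((x i : ℤ) : ℝ) else 1)) := by
    intro x
    rw [Finset.prod_mul_distrib]
    congr 1
    rw [Finset.prod_ite_mem, Finset.univ_inter]
  simp_rw [h1]
  rw [← Fintype.prod_sum (fun i (s : ℤˣ) => (1 + ((s : ℤ) : ℝ) * Real.sin (grX R g i)) / 2 *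
    (if i ∈ W then ((s : ℤ) : ℝ) else 1))]
  have h2 : ∀ i, ∑ s : ℤˣ, (1 + ((s : ℤ) : ℝ) * Real.sin (grX R g i)) / 2 *
      (if i ∈ W then ((s : ℤ) : ℝ) else 1) = if i ∈ W then Real.sin (grX R g i) else 1 := by
    intro i
    rw [gr_sum_units]
    split_ifs <;> push_cast <;> ring
  simp_rw [h2]
  rw [Finset.prod_ite_mem, Finset.univ_inter]

private lemma gr_char {ι : Type} [Fintype ι] (v : ι → ℝ) :
    ∫ g, Complex.exp (Complex.I * ((∑ q, v q * g q : ℝ) : ℂ)) ∂(grμ ι) =
      Complex.exp (-(1 / 2) * ((∑ q, v q ^ 2 : ℝ) : ℂ)) := by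
  have h1 : ∀ g : ι → ℝ, Complex.exp (Complex.I * ((∑ q, v q * g q : ℝ) : ℂ)) =
      ∏ q, Complex.exp ((v q : ℂ) * (g q : ℂ) * Complex.I) := by
    intro g
    rw [← Complex.exp_sum]
    congr 1
    push_cast
    rw [Finset.mul_sum]
    exact Finset.sum_congr rfl fun q _ => by ring
  simp_rw [h1]
  unfold grμ
  rw [integral_fintype_prod_eq_prod (𝕜 := ℂ) (fun q (t : ℝ) => Complex.exp ((v q : ℂ) * (t : ℂ) * Complex.I))]
  have h2 : ∀ q, ∫ t : ℝ, Complex.exp ((v q : ℂ) * (t : ℂ) * Complex.I) ∂(gaussianReal 0 1) =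
      Complex.exp (-(1 / 2) * (v q : ℂ) ^ 2) := by
    intro q
    rw [← charFun_apply_real, charFun_gaussianReal]
    congr 1
    push_cast
    ring
  simp_rw [h2]
  rw [← Complex.exp_sum]
  congr 1
  push_cast
  rw [Finset.mul_sum]

theorem GR {ι : Type} [Fintype ι] [DecidableEq ι] (K : Matrix ι ι ℝ) (hK : K.PosSemidef) :
    ∃ w : (ι → ℤˣ) → ℝ, IsPW w ∧ ∀ W : Finset ι,
    ((∑ x, w x * ∏ i ∈ W, ((x i : ℤ) : ℝ) : ℝ) : ℂ) =
      (1 / (2 * Complex.I)) ^ W.card * ∑ ε : {i // i ∈ W} → ℤˣ, (∏ i, ((ε i : ℤ) : ℂ)) *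
        Complex.exp (-(1 / 2) * ∑ i, ∑ j, ((ε i : ℤ) : ℂ) * ((ε j : ℤ) : ℂ) *
          (K (i : ι) (j : ι) : ℂ)) := by
  obtain ⟨R, hR⟩ := gr_factor K hK
  refine ⟨grw R, ⟨fun x => ?_, ?_⟩, fun W => ?_⟩
  · exact integral_nonneg fun g => Finset.prod_nonneg fun i _ => gr_fac_nonneg _ _
  · have h := gr_moment R ∅
    simpa using h
  · rw [gr_moment R W, ← integral_complex_ofReal]
    have h1 : ∀ g : ι → ℝ, ((∏ i ∈ W, Real.sin (grX R g i) : ℝ) : ℂ) =
        (1 / (2 * Complex.I)) ^ W.card * ∑ ε : {i // i ∈ W} → ℤˣ, (∏ i, ((ε i : ℤ) : ℂ)) *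
          Complex.exp (Complex.I * ((∑ q, (∑ i : {i // i ∈ W}, ((ε i : ℤ) : ℝ) * R q i) * g q : ℝ) : ℂ)) := by
      intro g
      have h2 : ∀ t : ℝ, ((Real.sin t : ℝ) : ℂ) = (1 / (2 * Complex.I)) *
          ∑ s : ℤˣ, ((s : ℤ) : ℂ) * Complex.exp (Complex.I * (((s : ℤ) : ℂ) * (t : ℂ))) := by
        intro t
        rw [gr_sum_units]
        push_cast
        rw [Complex.sin]
        have hI : Complex.I ≠ 0 := Complex.I_ne_zero
        have e1 : Complex.I * ((1 : ℂ) * (t : ℂ)) = (t : ℂ) * Complex.I := by ring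
        have e2 : Complex.I * ((-1 : ℂ) * (t : ℂ)) = -(t : ℂ) * Complex.I := by ring
        rw [e1, e2]
        field_simp
        rw [Complex.I_sq]
        ring
      have h3 : ((∏ i ∈ W, Real.sin (grX R g i) : ℝ) : ℂ) = ∏ i : {i // i ∈ W}, ((Real.sin (grX R g i) : ℝ) : ℂ) := by
        rw [Complex.ofReal_prod, ← Finset.prod_coe_sort W]
      rw [h3]
      simp_rw [h2]
      rw [Finset.prod_mul_distrib, Finset.prod_const, Finset.card_univ, Fintype.card_coe,
        Fintype.prod_sum]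
      congr 1
      refine Finset.sum_congr rfl fun ε _ => ?_
      rw [Finset.prod_mul_distrib]
      congr 1
      rw [← Complex.exp_sum]
      congr 1
      rw [← Finset.mul_sum]
      congr 1
      unfold grX
      push_cast
      simp_rw [Finset.mul_sum, Finset.sum_mul]
      rw [Finset.sum_comm]
      refine Finset.sum_congr rfl fun q _ => Finset.sum_congr rfl fun i _ => by ring
    simp_rw [h1]
    rw [integral_const_mul, integral_finset_sum]
    · congr 1
      refine Finset.sum_congr rfl fun ε _ => ?_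
      rw [integral_const_mul, gr_char]
      congr 2
      congr 1
      push_cast
      have h4 : ∀ i j : {i // i ∈ W}, ((ε i : ℤ) : ℂ) * ((ε j : ℤ) : ℂ) * (K (i : ι) (j : ι) : ℂ) =
          ∑ q, (((ε i : ℤ) : ℂ) * (R q i : ℂ)) * (((ε j : ℤ) : ℂ) * (R q j : ℂ)) := by
        intro i j
        rw [hR]
        push_cast
        rw [Finset.mul_sum]
        exact Finset.sum_congr rfl fun q _ => by ring
      simp_rw [h4]
      have h5 : ∀ q, (∑ i : {i // i ∈ W}, ((ε i : ℤ) : ℂ) * (R q i : ℂ)) ^ 2 =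
          ∑ i : {i // i ∈ W}, ∑ j : {i // i ∈ W}, (((ε i : ℤ) : ℂ) * (R q i : ℂ)) * (((ε j : ℤ) : ℂ) * (R q j : ℂ)) := by
        intro q
        rw [sq, Finset.sum_mul_sum]
      simp_rw [h5]
      rw [Finset.sum_comm]
      refine Finset.sum_congr rfl fun i _ => ?_
      rw [Finset.sum_comm]
    · intro ε _
      refine Integrable.const_mul ?_ _
      refine Integrable.of_bound (C := 1) ?_ ?_
      · refine Continuous.aestronglyMeasurable ?_
        refine Complex.continuous_exp.comp (continuous_const.mul (Complex.continuous_ofReal.comp ?_))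
        exact continuous_finset_sum _ fun q _ => continuous_const.mul (continuous_apply q)
      · filter_upwards with g
        rw [mul_comm Complex.I, Complex.norm_exp_ofReal_mul_I]

end Pool.Agent.Helper92.CB
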