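import Mathlib
import Pool.Agent.Helper92.CB.Defs
import Pool.Agent.Helper92.CB.GR

/-!
# Block CB-COP (MP_b6b996_nt)
Two independent uniform sign vectors (on `L` and on `B`) coupled so that `E x_p x_l = e^{-1} sinh(A p l)`.
Proof. Apply GR with `ι = {p // p ∈ L ∪ B}` and `K = [1, Aᵀ; A, 1]` (entries: 1 on the diagonal, `A p l` if `p ∈ B`, `l ∈ L` or the other way round, else 0).
`K` is positive semidefinite: `xᵀ K x = |u|² + |v|² + 2 ∑_l u_l ∑_p A p l v_p ≥ |u|² + |v|² - 2|u||Aᵀv| ≥ 0` by `hop` and Cauchy-Schwarz.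
The moment of `S` (put `S_L = S ∩ L`, `S_B = S ∩ B`, `s`, `t` their cardinals; `mom` only sees `S ∩ (L ∪ B)`) is, by the formula in GR,
`(2i)^{-(s+t)} e^{-(s+t)/2} ∑_{ε on S_L} ∏ε_l ∑_{ε on S_B} ∏_p ε_p exp(-ε_p α_p)`, `α_p = ∑_{l ∈ S_L} ε_l A p l`; the inner sum is
`∏_p (-2 sinh α_p)`, `|α_p| ≤ lam s`. So `|mom| ≤ e^{-(s+t)/2} sinh(lam s)^t`. If `lam s ≤ 1` this is `≤ (e^{-1/2} sinh(lam s))^t ≤ (lam s)^t`;
if `lam s > 1` use the trivial bound `|mom| ≤ 1` (weights are nonnegative with sum 1). Same with `L` and `B` exchanged. For `S = {p, l}`: direct computation.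
-/

set_option autoImplicit false

namespace Pool.Agent.Helper92.CB

open Finset
open Pool.Agent.Helper92.GB (e ext F npi wt)

/-- the real sum over sign vectors -/
private noncomputable def G63 {α : Type} [Fintype α] [DecidableEq α] (K : α → α → ℝ) : ℝ :=
  ∑ ε : α → ℤˣ, (∏ i, ((ε i : ℤ) : ℝ)) * Real.exp (-(1 / 2) * ∑ i, ∑ j, ((ε i : ℤ) : ℝ) * ((ε j : ℤ) : ℝ) * K i j)

private lemma sq63 (u : ℤˣ) : ((u : ℤ) : ℝ) * ((u : ℤ) : ℝ) = 1 := by
  rcases Int.units_eq_one_or u with h | h <;> simp [h]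

private lemma abs63 (u : ℤˣ) : |((u : ℤ) : ℝ)| = 1 := by
  rcases Int.units_eq_one_or u with h | h <;> simp [h]

private lemma quad63 {α : Type} [Fintype α] [DecidableEq α] (p : α → Prop) [DecidablePred p] (K : α → α → ℝ)
    (hd : ∀ i, K i i = 1) (hs : ∀ i j, K i j = K j i) (h0 : ∀ i j, i ≠ j → (p i ↔ p j) → K i j = 0)
    (x : α → ℝ) (hx : ∀ i, x i * x i = 1) :
    ∑ i, ∑ j, x i * x j * K i j = Fintype.card α + 2 * ∑ j : {i // ¬ p i}, x j * ∑ i : {i // p i}, x i * K j i := by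
  have hdiagP : ∀ i : {i // p i}, ∑ j : {i // p i}, x i * x j * K i j = 1 := by
    intro i
    rw [Finset.sum_eq_single i]
    · rw [hd, mul_one, hx]
    · intro j _ hj
      rw [h0 i j (fun h => hj (Subtype.ext h.symm)) ⟨fun _ => j.2, fun _ => i.2⟩, mul_zero]
    · simp
  have hdiagQ : ∀ i : {i // ¬ p i}, ∑ j : {i // ¬ p i}, x i * x j * K i j = 1 := by
    intro i
    rw [Finset.sum_eq_single i]
    · rw [hd, mul_one, hx]
    · intro j _ hj
      rw [h0 i j (fun h => hj (Subtype.ext h.symm)) ⟨fun h => absurd h i.2, fun h => absurd h j.2⟩, mul_zero]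
    · simp
  have e1 : ∀ i, ∑ j, x i * x j * K i j = ∑ j : {i // p i}, x i * x j * K i j + ∑ j : {i // ¬ p i}, x i * x j * K i j :=
    fun i => (Fintype.sum_subtype_add_sum_subtype p (fun j => x i * x j * K i j)).symm
  rw [← Fintype.sum_subtype_add_sum_subtype p]
  simp only [e1, sum_add_distrib, hdiagP, hdiagQ]
  have hc : (Fintype.card α : ℝ) = Fintype.card {i // p i} + Fintype.card {i // ¬ p i} := by
    have := Fintype.card_subtype_compl p
    have h2 := Fintype.card_subtype_le p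
    rw [this]
    push_cast [Nat.cast_sub h2]
    ring
  have e2 : ∑ i : {i // p i}, ∑ j : {i // ¬ p i}, x i * x j * K i j = ∑ j : {i // ¬ p i}, x j * ∑ i : {i // p i}, x i * K j i := by
    rw [sum_comm]
    refine sum_congr rfl fun j _ => ?_
    rw [mul_sum]
    refine sum_congr rfl fun i _ => ?_
    rw [hs i j]; ring
  have e3 : ∑ i : {i // ¬ p i}, ∑ j : {i // p i}, x i * x j * K i j = ∑ j : {i // ¬ p i}, x j * ∑ i : {i // p i}, x i * K j i := by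
    refine sum_congr rfl fun j _ => ?_
    rw [mul_sum]
    refine sum_congr rfl fun i _ => ?_
    ring
  rw [e2, e3, hc]
  simp only [sum_const, card_univ, nsmul_eq_mul, mul_one]
  ring

private lemma exact63 {α : Type} [Fintype α] [DecidableEq α] (p : α → Prop) [DecidablePred p] (K : α → α → ℝ)
    (hd : ∀ i, K i i = 1) (hs : ∀ i j, K i j = K j i) (h0 : ∀ i j, i ≠ j → (p i ↔ p j) → K i j = 0) :
    G63 K = Real.exp (-(1 / 2) * Fintype.card α) * ∑ a : {i // p i} → ℤˣ, (∏ i, ((a i : ℤ) : ℝ)) *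
      ∏ j : {i // ¬ p i}, (-2 * Real.sinh (∑ i : {i // p i}, ((a i : ℤ) : ℝ) * K j i)) := by
  unfold G63
  rw [← (Equiv.piEquivPiSubtypeProd p (fun _ => ℤˣ)).symm.sum_comp, Fintype.sum_prod_type, mul_sum]
  refine Fintype.sum_congr _ _ fun a => ?_
  have key : ∀ b : {i // ¬ p i} → ℤˣ,
      (∏ i, (((Equiv.piEquivPiSubtypeProd p (fun _ => ℤˣ)).symm (a, b) i : ℤ) : ℝ)) *
      Real.exp (-(1 / 2) * ∑ i, ∑ j, (((Equiv.piEquivPiSubtypeProd p (fun _ => ℤˣ)).symm (a, b) i : ℤ) : ℝ) *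
        (((Equiv.piEquivPiSubtypeProd p (fun _ => ℤˣ)).symm (a, b) j : ℤ) : ℝ) * K i j) =
      Real.exp (-(1 / 2) * Fintype.card α) * (∏ i, ((a i : ℤ) : ℝ)) * ∏ j : {i // ¬ p i},
        (((b j : ℤ) : ℝ) * Real.exp (-(((b j : ℤ) : ℝ) * ∑ i : {i // p i}, ((a i : ℤ) : ℝ) * K j i))) := by
    intro b
    rw [quad63 p K hd hs h0 (fun i => (((Equiv.piEquivPiSubtypeProd p (fun _ => ℤˣ)).symm (a, b) i : ℤ) : ℝ)) (fun i => sq63 _),
      ← Fintype.prod_subtype_mul_prod_subtype p]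
    have hP : ∀ i : {i // p i}, (Equiv.piEquivPiSubtypeProd p (fun _ => ℤˣ)).symm (a, b) i = a i := by
      intro i; simp [Equiv.piEquivPiSubtypeProd, i.2]
    have hQ : ∀ i : {i // ¬ p i}, (Equiv.piEquivPiSubtypeProd p (fun _ => ℤˣ)).symm (a, b) i = b i := by
      intro i; simp [Equiv.piEquivPiSubtypeProd, i.2]
    simp only [hP, hQ]
    rw [prod_mul_distrib, ← Real.exp_sum, mul_add, Real.exp_add, sum_neg_distrib]
    have : -(1 / 2 : ℝ) * (2 * ∑ j : {i // ¬ p i}, ((b j : ℤ) : ℝ) * ∑ i : {i // p i}, ((a i : ℤ) : ℝ) * K j i) =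
      -∑ j : {i // ¬ p i}, ((b j : ℤ) : ℝ) * ∑ i : {i // p i}, ((a i : ℤ) : ℝ) * K j i := by ring
    rw [this]; ring
  rw [Fintype.sum_congr _ _ key, ← mul_sum, ← mul_assoc]
  congr 1
  have hU : (univ : Finset ({i // ¬ p i} → ℤˣ)) = Fintype.piFinset (fun _ => (univ : Finset ℤˣ)) := Fintype.piFinset_univ.symm
  rw [hU, ← prod_univ_sum (fun _ : {i // ¬ p i} => (univ : Finset ℤˣ)) (fun j u => ((u : ℤ) : ℝ) * Real.exp (-(((u : ℤ) : ℝ) * ∑ i : {i // p i}, ((a i : ℤ) : ℝ) * K j i)))]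
  refine prod_congr rfl fun j _ => ?_
  have hu : (univ : Finset ℤˣ) = {1, -1} := by decide
  rw [hu, sum_pair (by decide), Real.sinh_eq]
  simp
  ring

private lemma sinh63 (x y : ℝ) (h : |x| ≤ y) : |Real.sinh x| ≤ Real.sinh y := by
  rw [abs_le] at h ⊢
  constructor
  · rw [← Real.sinh_neg]; exact Real.sinh_le_sinh.mpr h.1
  · exact Real.sinh_le_sinh.mpr h.2

private lemma bnd63 {α : Type} [Fintype α] [DecidableEq α] (p : α → Prop) [DecidablePred p] (K : α → α → ℝ)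
    (hd : ∀ i, K i i = 1) (hs : ∀ i j, K i j = K j i) (h0 : ∀ i j, i ≠ j → (p i ↔ p j) → K i j = 0)
    (lam : ℝ) (hK : ∀ i j, p i → ¬ p j → |K j i| ≤ lam) :
    |G63 K| ≤ Real.exp (-(1 / 2) * Fintype.card α) * (2 ^ Fintype.card {i // p i} *
      (2 * Real.sinh (lam * Fintype.card {i // p i})) ^ Fintype.card {i // ¬ p i}) := by
  rw [exact63 p K hd hs h0, abs_mul, abs_of_pos (Real.exp_pos _)]
  refine mul_le_mul_of_nonneg_left ?_ (Real.exp_pos _).le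
  refine (abs_sum_le_sum_abs _ _).trans ?_
  have : ∀ a : {i // p i} → ℤˣ, |(∏ i, ((a i : ℤ) : ℝ)) *
      ∏ j : {i // ¬ p i}, (-2 * Real.sinh (∑ i : {i // p i}, ((a i : ℤ) : ℝ) * K j i))| ≤
      (2 * Real.sinh (lam * Fintype.card {i // p i})) ^ Fintype.card {i // ¬ p i} := by
    intro a
    rw [abs_mul, abs_prod, abs_prod]
    simp only [abs63, prod_const_one, one_mul]
    rw [← card_univ (α := {i // ¬ p i}), ← prod_const]
    refine prod_le_prod (fun _ _ => abs_nonneg _) fun j _ => ?_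
    rw [abs_mul, abs_neg, abs_two]
    refine mul_le_mul_of_nonneg_left (sinh63 _ _ ?_) (by norm_num)
    refine (abs_sum_le_sum_abs _ _).trans ?_
    have : ∀ i ∈ (univ : Finset {i // p i}), |((a i : ℤ) : ℝ) * K j i| ≤ lam := by
      intro i _
      rw [abs_mul, abs63, one_mul]
      exact hK _ _ i.2 j.2
    refine (sum_le_sum this).trans ?_
    rw [sum_const, card_univ, nsmul_eq_mul, mul_comm]
  refine (sum_le_sum fun a _ => this a).trans ?_
  rw [sum_const, card_univ, nsmul_eq_mul, Fintype.card_fun]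
  simp

private lemma sinhle63 (x : ℝ) (h0 : 0 ≤ x) (h1 : x ≤ 1) : Real.exp (-(1 / 2)) * Real.sinh x ≤ x := by
  have h2 : Real.sinh x ≤ x * (3 / 2) := by
    have e3 : Real.exp x ≤ 1 + x + x ^ 2 := by
      have := Real.abs_exp_sub_one_sub_id_le (x := x) (by rw [abs_of_nonneg h0]; exact h1)
      rw [abs_le] at this; linarith [this.2]
    have e4 := Real.add_one_le_exp (-x)
    rw [Real.sinh_eq]
    nlinarith
  have h3 : (3 / 2 : ℝ) ≤ Real.exp (1 / 2) := by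
    have := Real.add_one_le_exp (1 / 2 : ℝ); linarith
  have h4 : Real.exp (-(1 / 2)) * Real.exp (1 / 2) = 1 := by rw [← Real.exp_add]; simp
  have h5 := Real.exp_pos (-(1 / 2))
  calc Real.exp (-(1 / 2)) * Real.sinh x ≤ Real.exp (-(1 / 2)) * (x * Real.exp (1 / 2)) := by
        refine mul_le_mul_of_nonneg_left (h2.trans (mul_le_mul_of_nonneg_left h3 h0)) h5.le
    _ = x := by rw [mul_left_comm, h4, mul_one]

/-- bound of a moment -/
private lemma mbd63 {α : Type} [Fintype α] [DecidableEq α] (p : α → Prop) [DecidablePred p] (K : α → α → ℝ)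
    (hd : ∀ i, K i i = 1) (hs : ∀ i j, K i j = K j i) (h0 : ∀ i j, i ≠ j → (p i ↔ p j) → K i j = 0)
    (lam : ℝ) (hl : 0 ≤ lam) (hK : ∀ i j, p i → ¬ p j → |K j i| ≤ lam)
    (h1 : lam * Fintype.card {i // p i} ≤ 1) :
    (1 / 2) ^ Fintype.card α * |G63 K| ≤ (lam * Fintype.card {i // p i}) ^ Fintype.card {i // ¬ p i} := by
  have hc : Fintype.card α = Fintype.card {i // p i} + Fintype.card {i // ¬ p i} := by
    have := Fintype.card_subtype_compl p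
    have h2 := Fintype.card_subtype_le p
    omega
  have hb := bnd63 p K hd hs h0 lam hK
  set s := Fintype.card {i // p i}
  set t := Fintype.card {i // ¬ p i}
  have hx : 0 ≤ lam * s := by positivity
  have he : Real.exp (-(1 / 2) * Fintype.card α) = Real.exp (-(1 / 2)) ^ s * Real.exp (-(1 / 2)) ^ t := by
    rw [hc, ← pow_add, ← Real.exp_nat_mul]; congr 1; push_cast; ring
  calc (1 / 2 : ℝ) ^ Fintype.card α * |G63 K| ≤ (1 / 2 : ℝ) ^ Fintype.card α * (Real.exp (-(1 / 2) * Fintype.card α) * (2 ^ s * (2 * Real.sinh (lam * s)) ^ t)) :=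
        mul_le_mul_of_nonneg_left hb (by positivity)
    _ = (Real.exp (-(1 / 2))) ^ s * (Real.exp (-(1 / 2)) * Real.sinh (lam * s)) ^ t := by
        rw [he, hc, pow_add, mul_pow, mul_pow]
        have : (1 / 2 : ℝ) ^ s * 2 ^ s = 1 := by rw [← mul_pow]; norm_num
        have h2 : (1 / 2 : ℝ) ^ t * 2 ^ t = 1 := by rw [← mul_pow]; norm_num
        calc (1 / 2 : ℝ) ^ s * (1 / 2 : ℝ) ^ t * (Real.exp (-(1 / 2)) ^ s * Real.exp (-(1 / 2)) ^ t * (2 ^ s * (2 ^ t * Real.sinh (lam * s) ^ t)))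
            = ((1 / 2 : ℝ) ^ s * 2 ^ s) * ((1 / 2 : ℝ) ^ t * 2 ^ t) * (Real.exp (-(1 / 2)) ^ s * (Real.exp (-(1 / 2)) ^ t * Real.sinh (lam * s) ^ t)) := by ring
          _ = _ := by rw [this, h2]; ring
    _ ≤ 1 * (lam * s) ^ t := by
        refine mul_le_mul (pow_le_one₀ (Real.exp_pos _).le (Real.exp_le_one_iff.mpr (by norm_num))) ?_ (by
          have := Real.sinh_nonneg_iff.mpr hx
          positivity) zero_le_one
        refine pow_le_pow_left₀ (by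
          have := Real.sinh_nonneg_iff.mpr hx
          positivity) (sinhle63 _ hx h1) _
    _ = (lam * s) ^ t := one_mul _

private lemma pair63 {α : Type} [Fintype α] [DecidableEq α] (p : α → Prop) [DecidablePred p] (K : α → α → ℝ)
    (hd : ∀ i, K i i = 1) (hs : ∀ i j, K i j = K j i) (h0 : ∀ i j, i ≠ j → (p i ↔ p j) → K i j = 0)
    (i0 j0 : α) (hi : p i0) (hj : ¬ p j0) (hu : ∀ i, p i → i = i0) (hv : ∀ j, ¬ p j → j = j0) :
    G63 K = Real.exp (-1) * (-4 * Real.sinh (K j0 i0)) := by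
  let I1 : Unique {i // p i} := ⟨⟨⟨i0, hi⟩⟩, fun i => Subtype.ext (hu i i.2)⟩
  let I2 : Unique {i // ¬ p i} := ⟨⟨⟨j0, hj⟩⟩, fun i => Subtype.ext (hv i i.2)⟩
  have hc : Fintype.card α = 2 := by
    have := Fintype.card_subtype_compl p
    have h2 := Fintype.card_subtype_le p
    have h3 : Fintype.card {i // p i} = 1 := Fintype.card_unique
    have h4 : Fintype.card {i // ¬ p i} = 1 := Fintype.card_unique
    omega
  rw [exact63 p K hd hs h0, ← (Equiv.funUnique {i // p i} ℤˣ).symm.sum_comp, hc]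
  have hu2 : (univ : Finset ℤˣ) = {1, -1} := by decide
  rw [hu2, sum_pair (by decide)]
  simp only [Fintype.prod_unique, Fintype.sum_unique]
  have e1 : ((default : {i // p i}) : α) = i0 := rfl
  have e2 : ((default : {i // ¬ p i}) : α) = j0 := rfl
  rw [e1, e2]
  simp [Real.sinh_neg]
  ring

private lemma card63 (S L c : Finset ℕ) (q : ℕ → Prop) [DecidablePred q] (hq : ∀ n ∈ c, q n ↔ n ∈ L) (hLc : L ⊆ c)
    (W : Finset {p // p ∈ c}) (hW : ∀ i, i ∈ W ↔ (i : ℕ) ∈ S) :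
    Fintype.card {x : {i // i ∈ W} // q (x : {p // p ∈ c})} = (S ∩ L).card := by
  rw [← Fintype.card_coe (S ∩ L)]
  refine Fintype.card_congr ⟨fun x => ⟨x.1.1.1, ?_⟩, fun n => ⟨⟨⟨n.1, ?_⟩, ?_⟩, ?_⟩, fun x => ?_, fun n => ?_⟩
  · exact mem_inter.mpr ⟨(hW _).mp x.1.2, (hq _ x.1.1.2).mp x.2⟩
  · exact hLc (mem_inter.mp n.2).2
  · exact (hW _).mpr (mem_inter.mp n.2).1
  · exact (hq _ (hLc (mem_inter.mp n.2).2)).mpr (mem_inter.mp n.2).2
  · rfl
  · rfl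

private lemma main63 (P Q c : Finset ℕ) (hP : P ⊆ c) (hQ : Q ⊆ c) (hPQ : ∀ n ∈ c, ¬ n ∈ P ↔ n ∈ Q)
    (K : ℕ → ℕ → ℝ) (hdg : ∀ i, K i i = 1) (hs : ∀ i j, K i j = K j i)
    (h0 : ∀ i ∈ c, ∀ j ∈ c, i ≠ j → (i ∈ P ↔ j ∈ P) → K i j = 0) (lam : ℝ) (hl : 0 ≤ lam)
    (hK : ∀ i ∈ P, ∀ j ∈ Q, |K j i| ≤ lam) (S : Finset ℕ)
    (W : Finset {p // p ∈ c}) (hW : ∀ i, i ∈ W ↔ (i : ℕ) ∈ S) (h1 : lam * (S ∩ P).card ≤ 1) :
    (1 / 2) ^ Fintype.card {i // i ∈ W} * |G63 (fun i j : {i // i ∈ W} => K (i : {p // p ∈ c}) (j : {p // p ∈ c}))| ≤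
      (lam * (S ∩ P).card) ^ (S ∩ Q).card := by
  have hcP := card63 S P c (fun n => n ∈ P) (fun n _ => Iff.rfl) hP W hW
  have hcQ := card63 S Q c (fun n => ¬ n ∈ P) hPQ hQ W hW
  have h2 : lam * Fintype.card {x : {i // i ∈ W} // ((x : {p // p ∈ c}) : ℕ) ∈ P} ≤ 1 := by rw [hcP]; exact h1
  have := mbd63 (fun x : {i // i ∈ W} => ((x : {p // p ∈ c}) : ℕ) ∈ P)
    (fun i j : {i // i ∈ W} => K (i : {p // p ∈ c}) (j : {p // p ∈ c})) (fun i => hdg _) (fun i j => hs _ _)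
    (fun i j hij hiff => h0 _ i.1.2 _ j.1.2 (fun h => hij (Subtype.ext (Subtype.ext h))) hiff) lam hl
    (fun i j hi hj => hK _ hi _ ((hPQ _ j.1.2).mp hj)) h2
  rw [hcP, hcQ] at this
  exact this

private lemma two63 (P Q c : Finset ℕ) (hP : P ⊆ c) (hQ : Q ⊆ c) (hPQ : ∀ n ∈ c, ¬ n ∈ P ↔ n ∈ Q)
    (K : ℕ → ℕ → ℝ) (hdg : ∀ i, K i i = 1) (hs : ∀ i j, K i j = K j i)
    (h0 : ∀ i ∈ c, ∀ j ∈ c, i ≠ j → (i ∈ P ↔ j ∈ P) → K i j = 0) (l : ℕ) (hl : l ∈ P) (p : ℕ) (hp : p ∈ Q)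
    (W : Finset {p // p ∈ c}) (hW : ∀ i, i ∈ W ↔ (i : ℕ) ∈ ({p, l} : Finset ℕ)) :
    W.card = 2 ∧ G63 (fun i j : {i // i ∈ W} => K (i : {p // p ∈ c}) (j : {p // p ∈ c})) =
      Real.exp (-1) * (-4 * Real.sinh (K p l)) := by
  have hpP : p ∉ P := (hPQ p (hQ hp)).mpr hp
  have hne : p ≠ l := fun h => hpP (h ▸ hl)
  refine ⟨?_, ?_⟩
  · have : W = {⟨p, hQ hp⟩, ⟨l, hP hl⟩} := by
      ext i
      rw [hW]
      simp only [mem_insert, mem_singleton, Subtype.ext_iff]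
    rw [this, card_pair (by simpa [Subtype.ext_iff] using hne)]
  · refine pair63 (fun x : {i // i ∈ W} => ((x : {p // p ∈ c}) : ℕ) ∈ P)
      (fun i j : {i // i ∈ W} => K (i : {p // p ∈ c}) (j : {p // p ∈ c})) (fun i => hdg _) (fun i j => hs _ _)
      (fun i j hij hiff => h0 _ i.1.2 _ j.1.2 (fun h => hij (Subtype.ext (Subtype.ext h))) hiff)
      ⟨⟨l, hP hl⟩, (hW _).mpr (by simp)⟩ ⟨⟨p, hQ hp⟩, (hW _).mpr (by simp)⟩ hl hpP
      (fun i hi => ?_) (fun i hi => ?_)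
    · refine Subtype.ext (Subtype.ext ?_)
      rcases mem_insert.mp ((hW _).mp i.2) with h | h
      · exact absurd hi (by rw [h]; exact hpP)
      · exact mem_singleton.mp h
    · refine Subtype.ext (Subtype.ext ?_)
      rcases mem_insert.mp ((hW _).mp i.2) with h | h
      · exact h
      · exact absurd (by rw [mem_singleton.mp h]; exact hl) hi

private lemma form63 {ι : Type} [Fintype ι] [DecidableEq ι] (K : ι → ι → ℝ) (W : Finset ι) :
    ∑ ε : {i // i ∈ W} → ℤˣ, (∏ i, ((ε i : ℤ) : ℂ)) *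
        Complex.exp (-(1 / 2) * ∑ i, ∑ j, ((ε i : ℤ) : ℂ) * ((ε j : ℤ) : ℂ) *
          (K (i : ι) (j : ι) : ℂ)) = ((G63 (fun i j : {i // i ∈ W} => K i j) : ℝ) : ℂ) := by
  unfold G63
  push_cast
  rfl

private lemma psd63 (L B : Finset ℕ) (hd : Disjoint L B) (A : ℕ → ℕ → ℝ)
    (hop : ∀ v : ℕ → ℝ, ∑ l ∈ L, (∑ p ∈ B, A p l * v p) ^ 2 ≤ ∑ p ∈ B, v p ^ 2)
    (K : ℕ → ℕ → ℝ) (hdg : ∀ i, K i i = 1) (hs : ∀ i j, K i j = K j i)
    (h0 : ∀ i ∈ L ∪ B, ∀ j ∈ L ∪ B, i ≠ j → (i ∈ L ↔ j ∈ L) → K i j = 0)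
    (hK : ∀ p ∈ B, ∀ l ∈ L, K p l = A p l) :
    (Matrix.of fun i j : {p // p ∈ L ∪ B} => K i j).PosSemidef := by
  refine Matrix.PosSemidef.of_dotProduct_mulVec_nonneg ?_ ?_
  · ext i j
    simp [Matrix.conjTranspose, hs (j : ℕ) i]
  · intro x
    set v : ℕ → ℝ := fun n => if h : n ∈ L ∪ B then x ⟨n, h⟩ else 0 with hv
    have hvx : ∀ i : {p // p ∈ L ∪ B}, x i = v i := by
      intro i; simp only [hv]; rw [dif_pos i.2]
    have e1 : star x ⬝ᵥ ((Matrix.of fun i j : {p // p ∈ L ∪ B} => K i j).mulVec x) =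
        ∑ i ∈ L ∪ B, ∑ j ∈ L ∪ B, v i * (K i j * v j) := by
      simp only [dotProduct, Matrix.mulVec, Pi.star_apply, star_trivial, Matrix.of_apply, hvx]
      rw [← sum_coe_sort (L ∪ B) (fun i => ∑ j ∈ L ∪ B, v i * (K i j * v j))]
      refine sum_congr rfl fun i _ => ?_
      rw [mul_sum, ← sum_coe_sort (L ∪ B) (fun j => v i * (K i j * v j))]
    rw [e1, sum_union hd]
    simp only [sum_union hd, sum_add_distrib]
    have hLB : ∀ p ∈ B, p ∉ L := fun p hp hl => (disjoint_left.mp hd hl hp)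
    have f1 : ∑ i ∈ L, ∑ j ∈ L, v i * (K i j * v j) = ∑ l ∈ L, v l ^ 2 := by
      refine sum_congr rfl fun i hi => ?_
      rw [sum_eq_single i]
      · rw [hdg]; ring
      · intro j hj hne
        rw [h0 i (mem_union_left _ hi) j (mem_union_left _ hj) (Ne.symm hne) (by simp [hi, hj])]; ring
      · intro h; exact absurd hi h
    have f2 : ∑ i ∈ B, ∑ j ∈ B, v i * (K i j * v j) = ∑ p ∈ B, v p ^ 2 := by
      refine sum_congr rfl fun i hi => ?_
      rw [sum_eq_single i]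
      · rw [hdg]; ring
      · intro j hj hne
        rw [h0 i (mem_union_right _ hi) j (mem_union_right _ hj) (Ne.symm hne) (by simp [hLB i hi, hLB j hj])]; ring
      · intro h; exact absurd hi h
    have f3 : ∑ i ∈ L, ∑ j ∈ B, v i * (K i j * v j) = ∑ l ∈ L, v l * ∑ p ∈ B, A p l * v p := by
      refine sum_congr rfl fun l hl => ?_
      rw [mul_sum]
      refine sum_congr rfl fun p hp => ?_
      rw [hs l p, hK p hp l hl]
    have f4 : ∑ i ∈ B, ∑ j ∈ L, v i * (K i j * v j) = ∑ l ∈ L, v l * ∑ p ∈ B, A p l * v p := by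
      rw [sum_comm]
      refine sum_congr rfl fun l hl => ?_
      rw [mul_sum]
      refine sum_congr rfl fun p hp => ?_
      rw [hK p hp l hl]; ring
    rw [f1, f2, f3, f4]
    have h5 := hop v
    have h6 : 0 ≤ ∑ l ∈ L, (v l + ∑ p ∈ B, A p l * v p) ^ 2 := sum_nonneg fun _ _ => sq_nonneg _
    have h7 : ∑ l ∈ L, (v l + ∑ p ∈ B, A p l * v p) ^ 2 =
        ∑ l ∈ L, v l ^ 2 + 2 * ∑ l ∈ L, v l * ∑ p ∈ B, A p l * v p + ∑ l ∈ L, (∑ p ∈ B, A p l * v p) ^ 2 := by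
      rw [mul_sum, ← sum_add_distrib, ← sum_add_distrib]
      refine sum_congr rfl fun l _ => ?_
      ring
    linarith

theorem COP (L B : Finset ℕ) (hd : Disjoint L B) (A : ℕ → ℕ → ℝ) (lam : ℝ) (hl : 0 ≤ lam)
    (hA : ∀ p ∈ B, ∀ l ∈ L, |A p l| ≤ lam)
    (hop : ∀ v : ℕ → ℝ, ∑ l ∈ L, (∑ p ∈ B, A p l * v p) ^ 2 ≤ ∑ p ∈ B, v p ^ 2) :
    ∃ w : ({p // p ∈ L ∪ B} → ℤˣ) → ℝ, IsPW w ∧
      (∀ S : Finset ℕ, |mom (L ∪ B) w S| ≤ (min 1 (lam * (S ∩ L).card)) ^ (S ∩ B).card) ∧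
      (∀ S : Finset ℕ, |mom (L ∪ B) w S| ≤ (min 1 (lam * (S ∩ B).card)) ^ (S ∩ L).card) ∧
      ∀ p ∈ B, ∀ l ∈ L, mom (L ∪ B) w {p, l} = Real.exp (-1) * Real.sinh (A p l) := by
  have hLB : ∀ p ∈ B, p ∉ L := fun p hp hl => (disjoint_left.mp hd hl hp)
  set K : ℕ → ℕ → ℝ := fun i j => if i = j then 1 else if i ∈ B ∧ j ∈ L then A i j else
    if i ∈ L ∧ j ∈ B then A j i else 0 with hKdef
  have hdg : ∀ i, K i i = 1 := fun i => by simp [hKdef]
  have hK : ∀ p ∈ B, ∀ l ∈ L, K p l = A p l := by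
    intro p hp l hl
    have : p ≠ l := fun h => hLB p hp (h ▸ hl)
    simp [hKdef, this, hp, hl]
  have hs : ∀ i j, K i j = K j i := by
    intro i j
    simp only [hKdef]
    by_cases hij : i = j
    · subst hij; rfl
    · rw [if_neg hij, if_neg (Ne.symm hij)]
      by_cases h1 : i ∈ B ∧ j ∈ L
      · have h2 : ¬ (j ∈ B ∧ i ∈ L) := fun h => hLB j h.1 h1.2
        rw [if_pos h1, if_neg h2, if_pos ⟨h1.2, h1.1⟩]
      · by_cases h2 : i ∈ L ∧ j ∈ B
        · rw [if_neg h1, if_pos h2, if_pos ⟨h2.2, h2.1⟩]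
        · rw [if_neg h1, if_neg h2, if_neg (fun h => h2 ⟨h.2, h.1⟩), if_neg (fun h => h1 ⟨h.2, h.1⟩)]
  have h0 : ∀ i ∈ L ∪ B, ∀ j ∈ L ∪ B, i ≠ j → (i ∈ L ↔ j ∈ L) → K i j = 0 := by
    intro i hi j hj hij hiff
    simp only [hKdef]
    rw [if_neg hij, if_neg, if_neg]
    · rintro ⟨h1, h2⟩; exact hLB j h2 (hiff.mp h1)
    · rintro ⟨h1, h2⟩; exact hLB i h1 (hiff.mpr h2)
  obtain ⟨w, hw, hform⟩ := GR _ (psd63 L B hd A hop K hdg hs h0 hK)
  have hmomW : ∀ S : Finset ℕ, ∃ W : Finset {p // p ∈ L ∪ B}, (∀ i, i ∈ W ↔ (i : ℕ) ∈ S) ∧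
      mom (L ∪ B) w S = ∑ x, w x * ∏ i ∈ W, ((x i : ℤ) : ℝ) := by
    intro S
    refine ⟨univ.filter (fun i : {p // p ∈ L ∪ B} => (i : ℕ) ∈ S), fun i => by simp, ?_⟩
    unfold mom
    refine sum_congr rfl fun x _ => ?_
    rw [prod_filter]
  have hmom : ∀ S : Finset ℕ, ∃ W : Finset {p // p ∈ L ∪ B}, (∀ i, i ∈ W ↔ (i : ℕ) ∈ S) ∧
      ((mom (L ∪ B) w S : ℝ) : ℂ) = (1 / (2 * Complex.I)) ^ W.card *
      ((G63 (fun i j : {i // i ∈ W} => K (i : {p // p ∈ L ∪ B}) (j : {p // p ∈ L ∪ B})) : ℝ) : ℂ) := by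
    intro S
    obtain ⟨W, hW, h⟩ := hmomW S
    refine ⟨W, hW, ?_⟩
    rw [h, hform, ← form63 (fun i j : {p // p ∈ L ∪ B} => K i j)]
    rfl
  have hnorm : ∀ S : Finset ℕ, ∃ W : Finset {p // p ∈ L ∪ B}, (∀ i, i ∈ W ↔ (i : ℕ) ∈ S) ∧
      |mom (L ∪ B) w S| = (1 / 2) ^ Fintype.card {i // i ∈ W} *
      |G63 (fun i j : {i // i ∈ W} => K (i : {p // p ∈ L ∪ B}) (j : {p // p ∈ L ∪ B}))| := by
    intro S
    obtain ⟨W, hW, h⟩ := hmom S
    refine ⟨W, hW, ?_⟩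
    have := congrArg norm h
    rw [norm_mul, norm_pow, Complex.norm_real, Complex.norm_real, Real.norm_eq_abs, Real.norm_eq_abs] at this
    rw [this, Fintype.card_coe]
    congr 2
    simp
  have htriv : ∀ S : Finset ℕ, |mom (L ∪ B) w S| ≤ 1 := by
    intro S
    obtain ⟨W, -, h⟩ := hmomW S
    rw [h, ← hw.2]
    refine (abs_sum_le_sum_abs _ _).trans (sum_le_sum fun x _ => ?_)
    rw [abs_mul, abs_of_nonneg (hw.1 x), abs_prod]
    simp only [abs63, prod_const_one, mul_one, le_refl]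
  have hiffB : ∀ i ∈ L ∪ B, ∀ j ∈ L ∪ B, (i ∈ B ↔ j ∈ B) → (i ∈ L ↔ j ∈ L) := by
    intro i hi j hj h
    rw [mem_union] at hi hj
    have := hLB i; have := hLB j; tauto
  have hcL : ∀ n ∈ L ∪ B, ¬ n ∈ L ↔ n ∈ B := fun n hn => ⟨fun h => (mem_union.mp hn).resolve_left h, hLB n⟩
  have hcB : ∀ n ∈ L ∪ B, ¬ n ∈ B ↔ n ∈ L := fun n hn =>
    ⟨fun h => (mem_union.mp hn).resolve_right h, fun h h' => hLB n h' h⟩
  refine ⟨w, hw, fun S => ?_, fun S => ?_, fun p hp l hl => ?_⟩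
  · rcases le_or_gt (lam * (S ∩ L).card) 1 with h1 | h1
    · obtain ⟨W, hW, h⟩ := hnorm S
      rw [min_eq_right h1, h]
      exact main63 L B (L ∪ B) subset_union_left subset_union_right hcL K hdg hs h0 lam hl
        (fun i hi j hj => by rw [hK j hj i hi]; exact hA j hj i hi) S W hW h1
    · rw [min_eq_left h1.le, one_pow]; exact htriv S
  · rcases le_or_gt (lam * (S ∩ B).card) 1 with h1 | h1
    · obtain ⟨W, hW, h⟩ := hnorm S
      rw [min_eq_right h1, h]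
      exact main63 B L (L ∪ B) subset_union_right subset_union_left hcB K hdg hs
        (fun i hi j hj hij hiff => h0 i hi j hj hij (hiffB i hi j hj hiff)) lam hl
        (fun i hi j hj => by rw [hs, hK i hi j hj]; exact hA i hi j hj) S W hW h1
    · rw [min_eq_left h1.le, one_pow]; exact htriv S
  · obtain ⟨W, hW, h7⟩ := hmom {p, l}
    obtain ⟨h5, h6⟩ := two63 L B (L ∪ B) subset_union_left subset_union_right hcL K hdg hs h0 l hl p hp W hW
    rw [h6, h5] at h7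
    have h8 : (1 / (2 * Complex.I)) ^ 2 = ((-(1 / 4) : ℝ) : ℂ) := by
      rw [div_pow, mul_pow, Complex.I_sq]; push_cast; norm_num
    rw [h8, ← Complex.ofReal_mul] at h7
    have h9 := Complex.ofReal_injective h7
    rw [h9, hK p hp l hl]
    ring

end Pool.Agent.Helper92.CB
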