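import Mathlib
import Pool.Agent.Helper92.CB.Defs
import Pool.Agent.Helper92.CB.COP
import Pool.Agent.Helper92.GB.PV
import Pool.Agent.Helper92.GB.UR
import Pool.Agent.Helper92.GB.RB

/-!
# Block CB-BLK (MP_b6b996_nt)
The weights on the signs of a special block.
Proof. `Q = 4z+1`, `T(τ) = ∑_{p ∈ B, l ∈ L} τ(pl/Q)²`; as `cos² + sin² = 1`, for `τ = cos(2π·)` or `sin(2π·)` it is `≥ |B||L|/2`. Fix this `τ`, `lam = 1/√(5z)`, `A p l = lam τ(pl/Q)`.
`hop` of COP: Parseval (GB/PV; the `p ∈ B` are distinct modulo `Q`, as are the `l ∈ L`): `∑_l (∑_p τ(pl/Q) v_p)² ≤ Q ∑ v_p² ≤ 5z ∑ v_p²`. COP gives `w0`.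
Moments: `|mom w0 S| ≤ (min 1 (|S'|/√z))^{max(|S∩L|,|S∩B|)} ≤ (√(min 1 (|S'|/√z)))^{|S'|}`, `S' = S ∩ (L ∪ B)`.
The marginals on `L` and on `B` are uniform: all moments of nonempty `S ⊆ L` or `S ⊆ B` vanish (second/first bound of COP), hence averages over `w0` of functions of the signs on `L` only are uniform averages (Fourier expansion).
By UR (`h = 0`, `S = {l // l ∈ L}`, `w = [l ≤ y] χ(l) l^{it}`, `V = z`, `M = z`; see GB/RB `stage1`) the linear bound for `L` fails with `w0`-probability `≤ z^{-10}`; same for `B`.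
`Y = ∑_{p,l} x_p x_l τ(pl/Q)` has `w0`-mean `e^{-1} ∑ sinh(lam τ) τ ≥ e^{-1} lam |B||L|/2 =: μ`, and `|Y| ≤ |B||L|`, so `Y ≥ μ/2` with probability `≥ μ/(2|B||L|) ≥ 1/(4e√(5z))`.
So the good event `E` (both linear bounds and `Y ≥ μ/2`) has probability `≥ z^{-2}`; `w = w0 1_E / w0(E)`. Finally `‖∑ x_p x_l e(pl/Q)‖ ≥ |Y| ≥ μ/2 ≥ z^{3/2-4δ}` for `z` large (GB/RB `tau_norm`).
The case `q ≥ 1`, `y > 4z` reduces to `y = 4z`.
-/

set_option autoImplicit false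

namespace Pool.Agent.Helper92.CB

open Finset
open Pool.Agent.Helper92.GB (e ext F npi wt)

namespace BLKaux

open Pool.Agent.Helper92.GB.RBaux

lemma mom_eq {c : Finset ℕ} (w : ({p // p ∈ c} → ℤˣ) → ℝ) (S : Finset ℕ) (hS : S ⊆ c) :
    mom c w S = ∑ x, w x * ∏ p ∈ S, ((xt x p : ℤ) : ℝ) := by
  unfold mom
  refine Finset.sum_congr rfl fun x _ => ?_
  congr 1
  have h1 : ∀ p : {p // p ∈ c}, (if (p : ℕ) ∈ S then ((x p : ℤ) : ℝ) else 1) =
      (fun n : ℕ => if n ∈ S then ((xt x n : ℤ) : ℝ) else 1) p := by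
    intro p; simp only; rw [xt_val]
  rw [Finset.prod_congr rfl fun p _ => h1 p,
    Finset.prod_coe_sort c (fun n : ℕ => if n ∈ S then ((xt x n : ℤ) : ℝ) else 1)]
  rw [Finset.prod_ite_mem, Finset.inter_eq_right.2 hS]

lemma ind_prod {L : Finset ℕ} (ξ η : {p // p ∈ L} → ℤˣ) :
    (if η = ξ then (1 : ℝ) else 0) =
      (1 / 2) ^ L.card * ∏ l, (1 + ((ξ l : ℤ) : ℝ) * ((η l : ℤ) : ℝ)) := by
  split_ifs with h
  · subst h
    have h1 : ∀ l ∈ (Finset.univ : Finset {p // p ∈ L}),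
        (1 + ((η l : ℤ) : ℝ) * ((η l : ℤ) : ℝ)) = 2 := by
      intro l _
      rcases Int.units_eq_one_or (η l) with h | h <;> rw [h] <;> norm_num
    rw [Finset.prod_congr rfl h1, Finset.prod_const, Finset.card_univ, Fintype.card_coe,
      ← mul_pow]
    norm_num
  · have h1 : ∃ l, η l ≠ ξ l := by
      by_contra hc
      push Not at hc
      exact h (funext hc)
    obtain ⟨l, hl⟩ := h1
    rw [Finset.prod_eq_zero (Finset.mem_univ l), mul_zero]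
    rcases Int.units_eq_one_or (η l) with h | h <;> rcases Int.units_eq_one_or (ξ l) with h' | h'
    · rw [h, h'] at hl; exact absurd rfl hl
    · rw [h, h']; norm_num
    · rw [h, h']; norm_num
    · rw [h, h'] at hl; exact absurd rfl hl

lemma marg_pt {c L : Finset ℕ} (hL : L ⊆ c) (w : ({p // p ∈ c} → ℤˣ) → ℝ) (hw : ∑ x, w x = 1)
    (hm : ∀ S : Finset ℕ, S ⊆ L → S.Nonempty → mom c w S = 0) (ξ : {p // p ∈ L} → ℤˣ) :
    ∑ x, w x * (if (fun l : {p // p ∈ L} => x ⟨l, hL l.2⟩) = ξ then 1 else 0) =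
      (1 / 2) ^ L.card := by
  have h1 : ∀ x : {p // p ∈ c} → ℤˣ,
      w x * (if (fun l : {p // p ∈ L} => x ⟨l, hL l.2⟩) = ξ then 1 else 0) =
      (1 / 2) ^ L.card * ∑ t ∈ (Finset.univ : Finset {p // p ∈ L}).powerset,
        (∏ l ∈ t, ((ξ l : ℤ) : ℝ)) * (w x * ∏ p ∈ t.map (Function.Embedding.subtype _),
          ((xt x p : ℤ) : ℝ)) := by
    intro x
    rw [ind_prod, Finset.prod_one_add, mul_left_comm, Finset.mul_sum, Finset.mul_sum,
      Finset.mul_sum]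
    refine Finset.sum_congr rfl fun t _ => ?_
    rw [Finset.prod_mul_distrib, Finset.prod_map]
    have h2 : ∏ l ∈ t, (((x ⟨l, hL l.2⟩ : ℤˣ) : ℤ) : ℝ) =
        ∏ l ∈ t, ((xt x ((Function.Embedding.subtype (fun p => p ∈ L)) l) : ℤ) : ℝ) := by
      refine Finset.prod_congr rfl fun l _ => ?_
      have := xt_val x ⟨l, hL l.2⟩
      simp only [Function.Embedding.coe_subtype]
      rw [← this]
    rw [h2]
    ring
  rw [Finset.sum_congr rfl fun x _ => h1 x, ← Finset.mul_sum, Finset.sum_comm]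
  have h2 : ∀ t ∈ (Finset.univ : Finset {p // p ∈ L}).powerset,
      ∑ x, (∏ l ∈ t, ((ξ l : ℤ) : ℝ)) * (w x * ∏ p ∈ t.map (Function.Embedding.subtype _),
          ((xt x p : ℤ) : ℝ)) = if t = ∅ then 1 else 0 := by
    intro t _
    have hsub : t.map (Function.Embedding.subtype (fun p => p ∈ L)) ⊆ L := by
      intro p hp
      obtain ⟨l, _, rfl⟩ := Finset.mem_map.1 hp
      exact l.2
    rw [← Finset.mul_sum, ← mom_eq w _ (hsub.trans hL)]
    split_ifs with h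
    · subst h
      rw [Finset.map_empty, mom_eq w _ (Finset.empty_subset _)]
      simp [hw]
    · rw [hm _ hsub (Finset.Nonempty.map (Finset.nonempty_iff_ne_empty.2 h)), mul_zero]
  rw [Finset.sum_congr rfl h2, Finset.sum_ite_eq' , if_pos (Finset.empty_mem_powerset _), mul_one]

lemma marg {c L : Finset ℕ} (hL : L ⊆ c) (w : ({p // p ∈ c} → ℤˣ) → ℝ) (hw : ∑ x, w x = 1)
    (hm : ∀ S : Finset ℕ, S ⊆ L → S.Nonempty → mom c w S = 0)
    (G : ({p // p ∈ L} → ℤˣ) → ℝ) :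
    ∑ x, w x * G (fun l => x ⟨l, hL l.2⟩) = ∑ ξ, wt (fun _ => 0) ξ * G ξ := by
  have h1 : ∀ x : {p // p ∈ c} → ℤˣ, w x * G (fun l => x ⟨l, hL l.2⟩) =
      ∑ ξ, G ξ * (w x * (if (fun l : {p // p ∈ L} => x ⟨l, hL l.2⟩) = ξ then 1 else 0)) := by
    intro x
    rw [Finset.sum_eq_single (fun l : {p // p ∈ L} => x ⟨l, hL l.2⟩)]
    · rw [if_pos rfl]; ring
    · intro ξ _ hξ
      rw [if_neg (Ne.symm hξ)]; ring
    · intro h; exact absurd (Finset.mem_univ _) h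
  rw [Finset.sum_congr rfl fun x _ => h1 x, Finset.sum_comm]
  refine Finset.sum_congr rfl fun ξ _ => ?_
  rw [← Finset.mul_sum, marg_pt hL w hw hm ξ]
  have : wt (fun _ : {p // p ∈ L} => (0 : ℝ)) ξ = (1 / 2) ^ L.card := by
    unfold wt
    simp
  rw [this]; ring

/-- the probability of the good event -/
lemma good_ev {Ω : Type} [Fintype Ω] (w0 : Ω → ℝ) (h : IsPW w0) (P1 P2 : Ω → Prop) (Y : Ω → ℝ)
    (K μ ε : ℝ) (hY : ∀ x, Y x ≤ K) (hK : 0 < K) (hμ : 0 ≤ μ) (hE : μ ≤ ∑ x, w0 x * Y x)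
    (h1 : open Classical in ∑ x, w0 x * (if P1 x then 1 else 0) ≤ ε)
    (h2 : open Classical in ∑ x, w0 x * (if P2 x then 1 else 0) ≤ ε) :
    open Classical in μ / (2 * K) - 2 * ε ≤
      ∑ x, w0 x * (if (¬ P1 x ∧ ¬ P2 x ∧ μ / 2 ≤ Y x) then 1 else 0) := by
  classical
  have key : ∀ x, w0 x * Y x ≤ w0 x * (μ / 2) +
      K * (w0 x * (if (¬ P1 x ∧ ¬ P2 x ∧ μ / 2 ≤ Y x) then 1 else 0)) +
      K * (w0 x * (if P1 x then 1 else 0)) + K * (w0 x * (if P2 x then 1 else 0)) := by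
    intro x
    have hw := h.1 x
    have a4 : w0 x * Y x ≤ K * (w0 x * 1) := by
      have := mul_le_mul_of_nonneg_left (hY x) hw
      linarith
    have a0 : 0 ≤ w0 x * (μ / 2) := by positivity
    have a5 : 0 ≤ K * w0 x := by positivity
    have g1 : 0 ≤ K * (w0 x * (if P1 x then (1 : ℝ) else 0)) := by
      split_ifs <;> positivity
    have g2 : 0 ≤ K * (w0 x * (if P2 x then (1 : ℝ) else 0)) := by
      split_ifs <;> positivity
    have g3 : 0 ≤ K * (w0 x * (if (¬ P1 x ∧ ¬ P2 x ∧ μ / 2 ≤ Y x) then (1 : ℝ) else 0)) := by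
      split_ifs <;> positivity
    by_cases c1 : P1 x
    · rw [if_pos c1] at g1 ⊢; linarith
    by_cases c2 : P2 x
    · rw [if_pos c2] at g2 ⊢; linarith
    by_cases c3 : μ / 2 ≤ Y x
    · rw [if_pos ⟨c1, c2, c3⟩] at g3 ⊢; linarith
    · have := mul_le_mul_of_nonneg_left (not_le.1 c3).le hw
      linarith
  have hs := Finset.sum_le_sum fun x (_ : x ∈ Finset.univ) => key x
  rw [Finset.sum_add_distrib, Finset.sum_add_distrib, Finset.sum_add_distrib, ← Finset.mul_sum,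
    ← Finset.mul_sum, ← Finset.mul_sum, ← Finset.sum_mul, h.2] at hs
  have b1 := mul_le_mul_of_nonneg_left h1 hK.le
  have b2 := mul_le_mul_of_nonneg_left h2 hK.le
  have b3 : K * (μ / (2 * K) - 2 * ε) = μ / 2 - 2 * (K * ε) := by
    field_simp
  have b4 : K * (μ / (2 * K) - 2 * ε) ≤
      K * ∑ x, w0 x * (if (¬ P1 x ∧ ¬ P2 x ∧ μ / 2 ≤ Y x) then 1 else 0) := by
    rw [b3]; linarith
  exact le_of_mul_le_mul_left b4 hK

lemma sinh_mul_ge (a : ℝ) (x : ℝ) (ha : 0 ≤ a) : a * x ^ 2 ≤ Real.sinh (a * x) * x := by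
  rcases le_total 0 x with hx | hx
  · have h1 : a * x ≤ Real.sinh (a * x) := Real.self_le_sinh_iff.2 (mul_nonneg ha hx)
    have := mul_le_mul_of_nonneg_right h1 hx
    linarith
  · have h1 : a * (-x) ≤ Real.sinh (a * (-x)) :=
      Real.self_le_sinh_iff.2 (mul_nonneg ha (by linarith))
    rw [mul_neg, Real.sinh_neg] at h1
    have := mul_le_mul_of_nonneg_right h1 (by linarith : 0 ≤ -x)
    linarith

variable {z : ℕ} {L B : Finset ℕ}

/-- failure of the linear bound -/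
def BadL (L : Finset ℕ) (A : ℝ) (z : ℕ) (g : ℕ → ℤ) : Prop :=
  ∃ (q : ℕ) (χ : DirichletCharacter ℂ q) (t : ℝ) (y : ℕ), 1 ≤ q ∧
    A * Real.sqrt z * Real.sqrt (Real.log (q * (2 + |t|)) * Real.log z) <
      ‖∑ p ∈ L.filter (· ≤ y), (g p : ℂ) * χ (p : ZMod q) * npi p t‖

lemma BadL_congr (A : ℝ) {g g' : ℕ → ℤ} (h : ∀ p ∈ L, g p = g' p) :
    BadL L A z g ↔ BadL L A z g' := by
  have h1 : ∀ (q : ℕ) (χ : DirichletCharacter ℂ q) (t : ℝ) (y : ℕ),
      ∑ p ∈ L.filter (· ≤ y), (g p : ℂ) * χ (p : ZMod q) * npi p t =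
      ∑ p ∈ L.filter (· ≤ y), (g' p : ℂ) * χ (p : ZMod q) * npi p t := by
    intro q χ t y
    refine Finset.sum_congr rfl fun p hp => ?_
    rw [h p (Finset.mem_filter.1 hp).1]
  unfold BadL
  simp_rw [h1]

/-- the probability that the linear bound fails on one of the two halves -/
lemma bad_prob (A : ℝ) (M₀ : ℕ) (hU : URP A M₀) (hz0 : M₀ ≤ z) (hz : 3 ≤ z)
    (hL : L ⊆ Ioc (3 * z) (4 * z)) :
    open Classical in
    ∑ ξ : {x // x ∈ L} → ℤˣ, wt (fun _ => 0) ξ * (if BadL L A z (xt ξ) then 1 else 0) ≤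
      1 / (z : ℝ) ^ 10 := by
  classical
  have hzr : (3 : ℝ) ≤ z := by exact_mod_cast hz
  have hcard : Fintype.card {x // x ∈ L} ≤ z := by
    rw [Fintype.card_coe]; exact card_le hL
  have hcardL : (L.card : ℝ) ≤ z := by exact_mod_cast card_le hL
  have hz4 : 4 * (z : ℝ) ≤ (z : ℝ) ^ 4 := by
    have : (27 : ℝ) ≤ (z : ℝ) ^ 3 := by
      calc (27 : ℝ) = 3 ^ 3 := by norm_num
        _ ≤ _ := pow_le_pow_left₀ (by norm_num) hzr 3
    nlinarith
  set w1 : (q : ℕ) → DirichletCharacter ℂ q → ℝ → ℕ → {x // x ∈ L} → ℂ :=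
    fun q χ t y l => if (l : ℕ) ≤ y then χ ((l : ℕ) : ZMod q) * npi l t else 0 with hw1
  have h1 := hU z hz0 {x // x ∈ L} hcard (fun _ => 0) (fun _ => by simp) (z : ℝ)
    (by linarith) (by linarith) w1
    (by
      intro q χ t y
      calc ∑ s, ‖w1 q χ t y s‖ ^ 2 ≤ ∑ s : {x // x ∈ L}, (1 : ℝ) :=
            Finset.sum_le_sum fun s _ => pow_le_one₀ (norm_nonneg _) (chi_npi χ t y s)
        _ ≤ z := by simpa using hcardL)
    (by
      intro q χ t t' y s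
      have hs := Finset.mem_Ioc.1 (hL s.2)
      refine (chi_lip χ t t' y (s : ℕ) (by omega)).trans ?_
      refine mul_le_mul_of_nonneg_right ?_ (abs_nonneg _)
      have : ((s : ℕ) : ℝ) ≤ 4 * z := by exact_mod_cast hs.2
      linarith)
  refine le_trans (Finset.sum_le_sum fun ξ _ => ?_) h1
  refine mul_le_mul_of_nonneg_left ?_ (wt_nonneg _ (fun _ => by simp) ξ)
  split_ifs with c1 c2 c2
  · exact le_refl _
  · exfalso
    apply c2
    obtain ⟨q, χ, t, y, hq, hlt⟩ := c1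
    refine ⟨q, χ, t, min y (4 * z), hq, min_le_right _ _, ?_⟩
    refine lt_of_lt_of_eq hlt ?_
    congr 1
    rw [sum_xt _ (fun l => ((xt ξ l : ℤ) : ℂ) *
        (if l ≤ min y (4 * z) then χ (l : ZMod q) * npi l t else 0))
      (fun l => by rw [xt_val, hw1]; push_cast; simp), Finset.sum_filter]
    refine Finset.sum_congr rfl fun l hl => ?_
    have h4 := (Finset.mem_Ioc.1 (hL hl)).2
    by_cases h : l ≤ y
    · rw [if_pos h, if_pos (le_min h h4)]; ring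
    · rw [if_neg h, if_neg (fun h' => h (h'.trans (min_le_left _ _))), mul_zero]
  · norm_num
  · exact le_refl _

lemma xt_res {c L : Finset ℕ} (hL : L ⊆ c) (x : {p // p ∈ c} → ℤˣ) (p : ℕ) (hp : p ∈ L) :
    xt (fun l : {p // p ∈ L} => x ⟨l, hL l.2⟩) p = xt x p := by
  have h1 := xt_val (fun l : {p // p ∈ L} => x ⟨l, hL l.2⟩) ⟨p, hp⟩
  have h2 := xt_val x ⟨p, hL hp⟩
  simp only at h1 h2
  rw [h1, h2]

/-- the same for the weight of the coupling -/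
lemma bad_prob_w (A : ℝ) (M₀ : ℕ) (hU : URP A M₀) (hz0 : M₀ ≤ z) (hz : 3 ≤ z)
    (hL : L ⊆ Ioc (3 * z) (4 * z)) {c : Finset ℕ} (hLc : L ⊆ c)
    (w : ({p // p ∈ c} → ℤˣ) → ℝ) (hw : ∑ x, w x = 1)
    (hm : ∀ S : Finset ℕ, S ⊆ L → S.Nonempty → mom c w S = 0) :
    open Classical in
    ∑ x, w x * (if BadL L A z (xt x) then 1 else 0) ≤ 1 / (z : ℝ) ^ 10 := by
  classical
  have h1 := marg hLc w hw hm (fun ξ => if BadL L A z (xt ξ) then 1 else 0)
  have h2 := bad_prob A M₀ hU hz0 hz hL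
  refine le_trans (le_of_eq ?_) h2
  rw [← h1]
  refine Finset.sum_congr rfl fun x _ => ?_
  simp only [BadL_congr A (fun p hp => xt_res hLc x p hp)]

lemma numb (r lam : ℝ) (hr : 0 < r) (hlam : 0 ≤ lam) (hlr : lam ≤ 1 / r) (v : ℝ) (n s t : ℕ)
    (hn : n = t + s) (h1 : |v| ≤ (min 1 (lam * s)) ^ t) (h2 : |v| ≤ (min 1 (lam * t)) ^ s) :
    |v| ≤ (Real.sqrt (min 1 (n / r))) ^ n := by
  have hsn : (s : ℝ) ≤ n := by exact_mod_cast (by omega : s ≤ n)
  have htn : (t : ℝ) ≤ n := by exact_mod_cast (by omega : t ≤ n)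
  obtain ⟨m, hm⟩ : ∃ m : ℝ, m = min 1 (n / r) := ⟨_, rfl⟩
  rw [← hm]
  have hm0 : 0 ≤ m := by rw [hm]; exact le_min zero_le_one (by positivity)
  have hb : ∀ a : ℝ, 0 ≤ a → a ≤ n → min 1 (lam * a) ≤ m := by
    intro a ha han
    rw [hm]
    refine min_le_min le_rfl ?_
    calc lam * a ≤ (1 / r) * n := mul_le_mul hlr han ha (by positivity)
      _ = _ := by ring
  have a1 : |v| ≤ m ^ t :=
    h1.trans (pow_le_pow_left₀ (le_min zero_le_one (by positivity))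
      (hb s (Nat.cast_nonneg _) hsn) _)
  have a2 : |v| ≤ m ^ s :=
    h2.trans (pow_le_pow_left₀ (le_min zero_le_one (by positivity))
      (hb t (Nat.cast_nonneg _) htn) _)
  have a3 : |v| ^ 2 ≤ ((Real.sqrt m) ^ n) ^ 2 := by
    calc |v| ^ 2 = |v| * |v| := sq _
      _ ≤ m ^ t * m ^ s := mul_le_mul a1 a2 (abs_nonneg _) (by positivity)
      _ = m ^ n := by rw [← pow_add, ← hn]
      _ = ((Real.sqrt m) ^ n) ^ 2 := by
          rw [← pow_mul, mul_comm n 2, pow_mul, Real.sq_sqrt hm0]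
  exact (pow_le_pow_iff_left₀ (abs_nonneg _) (by positivity) (by norm_num)).1 a3

lemma core (A : ℝ) (M₀ : ℕ) (hU : URP A M₀) (δ : ℝ)
    (hz0 : M₀ ≤ z) (hz : 100 ≤ z) (h256 : 256 ≤ (z : ℝ) ^ δ)
    (hL : L ⊆ Ioc (3 * z) (4 * z)) (hB : B ⊆ Ioc (3 * z) (4 * z)) (hdis : Disjoint L B)
    (hLc : (z : ℝ) ^ (1 - δ) ≤ 4 * L.card) (hBc : (z : ℝ) ^ (1 - δ) ≤ 4 * B.card) :
    ∃ w w0 : ({p // p ∈ L ∪ B} → ℤˣ) → ℝ, IsPW w ∧ IsPW w0 ∧
      (∀ x, w x ≤ (z : ℝ) ^ 2 * w0 x) ∧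
      (∀ S : Finset ℕ, |mom (L ∪ B) w0 S| ≤
        (Real.sqrt (min 1 ((S ∩ (L ∪ B)).card / Real.sqrt z))) ^ (S ∩ (L ∪ B)).card) ∧
      ∀ f : ℕ → ℤˣ, 0 < w (rs (L ∪ B) f) →
        (∀ (q : ℕ) (χ : DirichletCharacter ℂ q) (t : ℝ) (y : ℕ), 1 ≤ q →
          ‖∑ p ∈ L.filter (· ≤ y), ((f p : ℤ) : ℂ) * χ (p : ZMod q) * npi p t‖ ≤
            A * Real.sqrt z * Real.sqrt (Real.log (q * (2 + |t|)) * Real.log z)) ∧
        (∀ (q : ℕ) (χ : DirichletCharacter ℂ q) (t : ℝ) (y : ℕ), 1 ≤ q →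
          ‖∑ p ∈ B.filter (· ≤ y), ((f p : ℤ) : ℂ) * χ (p : ZMod q) * npi p t‖ ≤
            A * Real.sqrt z * Real.sqrt (Real.log (q * (2 + |t|)) * Real.log z)) ∧
        (z : ℝ) ^ (3 / 2 - 4 * δ) ≤ ‖∑ p ∈ B, ∑ l ∈ L, ((f p : ℤ) : ℂ) * ((f l : ℤ) : ℂ) *
          e ((p * l : ℕ) * (1 / (4 * z + 1)))‖ := by
  classical
  have hzr : (100 : ℝ) ≤ z := by exact_mod_cast hz
  have hzpos : (0 : ℝ) < z := by linarith
  have hsz : 0 < Real.sqrt (5 * z) := Real.sqrt_pos.2 (by linarith)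
  have hsz1 : 0 < Real.sqrt z := Real.sqrt_pos.2 hzpos
  set lam : ℝ := 1 / Real.sqrt (5 * z) with hlam
  have hlam0 : 0 < lam := by positivity
  have hlam2 : lam ^ 2 * (5 * z) = 1 := by
    rw [hlam, div_pow, Real.sq_sqrt (by linarith)]
    field_simp
  have hlamz : lam ≤ 1 / Real.sqrt z := by
    rw [hlam]
    exact one_div_le_one_div_of_le hsz1 (Real.sqrt_le_sqrt (by linarith))
  have hlamz3 : (1 / 3) * (z : ℝ) ^ (-(1 / 2) : ℝ) ≤ lam := by
    have h1 : Real.sqrt (5 * z) ≤ 3 * Real.sqrt z := by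
      rw [Real.sqrt_le_iff]
      refine ⟨by positivity, ?_⟩
      rw [mul_pow, Real.sq_sqrt hzpos.le]; linarith
    rw [Real.rpow_neg hzpos.le, ← Real.sqrt_eq_rpow, hlam]
    calc (1 / 3) * (Real.sqrt z)⁻¹ = 1 / (3 * Real.sqrt z) := by field_simp
      _ ≤ _ := one_div_le_one_div_of_le hsz h1
  have hlam4 : 4 / (z : ℝ) ≤ lam := by
    have h1 : Real.sqrt (5 * z) ≤ z / 4 := by
      rw [Real.sqrt_le_iff]
      refine ⟨by positivity, ?_⟩
      nlinarith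
    rw [hlam]
    calc 4 / (z : ℝ) = 1 / (z / 4) := by field_simp
      _ ≤ _ := one_div_le_one_div_of_le hsz h1
  set K : ℝ := B.card * L.card with hK
  -- choice of tau
  have hchoice : ∃ τ : ℝ → ℝ, (τ = (fun x => Real.cos (2 * Real.pi * x)) ∨
      τ = (fun x => Real.sin (2 * Real.pi * x))) ∧
      K / 2 ≤ ∑ p ∈ B, ∑ l ∈ L, τ (p * l / ((4 * z + 1 : ℕ) : ℝ)) ^ 2 := by
    have hsum : ∑ p ∈ B, ∑ l ∈ L, (Real.cos (2 * Real.pi * (p * l / ((4 * z + 1 : ℕ) : ℝ)))) ^ 2 +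
        ∑ p ∈ B, ∑ l ∈ L, (Real.sin (2 * Real.pi * (p * l / ((4 * z + 1 : ℕ) : ℝ)))) ^ 2 =
        K := by
      rw [← Finset.sum_add_distrib]
      simp_rw [← Finset.sum_add_distrib, Real.cos_sq_add_sin_sq]
      simp [hK]
    by_cases hcs : K / 2 ≤
        ∑ p ∈ B, ∑ l ∈ L, (Real.cos (2 * Real.pi * (p * l / ((4 * z + 1 : ℕ) : ℝ)))) ^ 2
    · exact ⟨_, Or.inl rfl, hcs⟩
    · refine ⟨_, Or.inr rfl, ?_⟩
      push Not at hcs
      linarith
  obtain ⟨τ, hτ, hT⟩ := hchoice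
  have hKz : (z : ℝ) ^ (2 - 2 * δ) ≤ 16 * K := by
    have e1 : (z : ℝ) ^ (2 - 2 * δ) = (z : ℝ) ^ (1 - δ) * (z : ℝ) ^ (1 - δ) := by
      rw [← Real.rpow_add hzpos]; congr 1; ring
    rw [e1]
    calc _ ≤ (4 * (B.card : ℝ)) * (4 * L.card) :=
          mul_le_mul hBc hLc (Real.rpow_nonneg hzpos.le _) (by positivity)
      _ = _ := by rw [hK]; ring
  have hK0 : 0 < K := by
    have : 0 < (z : ℝ) ^ (2 - 2 * δ) := Real.rpow_pos_of_pos hzpos _
    linarith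
  set τ' : ℕ → ℕ → ℝ := fun p l => τ (p * l / ((4 * z + 1 : ℕ) : ℝ)) with hτ'
  have hτ1 : ∀ p l, |τ' p l| ≤ 1 := fun p l => tau_le τ hτ _
  have hop : ∀ v : ℕ → ℝ, ∑ l ∈ L, (∑ p ∈ B, (lam * τ' p l) * v p) ^ 2 ≤ ∑ p ∈ B, v p ^ 2 := by
    intro v
    have h1 := Pool.Agent.Helper92.GB.PV (4 * z + 1) (by omega) L B
      (fun l hl => by have := Finset.mem_Ioc.1 (hL hl); omega)
      (fun l hl => by have := Finset.mem_Ioc.1 (hB hl); omega) (fun p => (v p : ℂ)) τ hτ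
    have h2 : ∀ l ∈ L, (∑ p ∈ B, (lam * τ' p l) * v p) ^ 2 =
        lam ^ 2 * ‖∑ p ∈ B, (v p : ℂ) * ((τ (p * l / ((4 * z + 1 : ℕ) : ℝ)) : ℝ) : ℂ)‖ ^ 2 := by
      intro l _
      have e1 : ∑ p ∈ B, (v p : ℂ) * ((τ (p * l / ((4 * z + 1 : ℕ) : ℝ)) : ℝ) : ℂ) =
          ((∑ p ∈ B, τ' p l * v p : ℝ) : ℂ) := by
        rw [hτ']
        push_cast
        refine Finset.sum_congr rfl fun p _ => ?_
        ring
      rw [e1, Complex.norm_real, Real.norm_eq_abs, sq_abs, ← mul_pow, Finset.mul_sum]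
      congr 1
      refine Finset.sum_congr rfl fun p _ => by ring
    rw [Finset.sum_congr rfl h2, ← Finset.mul_sum]
    have h3 : ∑ p ∈ B, ‖((v p : ℝ) : ℂ)‖ ^ 2 = ∑ p ∈ B, v p ^ 2 := by
      refine Finset.sum_congr rfl fun p _ => ?_
      rw [Complex.norm_real, Real.norm_eq_abs, sq_abs]
    rw [h3] at h1
    have h4 : 0 ≤ ∑ p ∈ B, v p ^ 2 := Finset.sum_nonneg fun p _ => sq_nonneg _
    calc _ ≤ lam ^ 2 * (((4 * z + 1 : ℕ) : ℝ) * ∑ p ∈ B, v p ^ 2) :=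
          mul_le_mul_of_nonneg_left h1 (sq_nonneg _)
      _ ≤ lam ^ 2 * ((5 * z) * ∑ p ∈ B, v p ^ 2) := by
          refine mul_le_mul_of_nonneg_left (mul_le_mul_of_nonneg_right ?_ h4) (sq_nonneg _)
          push_cast; linarith
      _ = (lam ^ 2 * (5 * z)) * ∑ p ∈ B, v p ^ 2 := by ring
      _ = _ := by rw [hlam2, one_mul]
  obtain ⟨w0, hw0, m1, m2, m3⟩ := COP L B hdis (fun p l => lam * τ' p l) lam hlam0.le
    (fun p _ l _ => by
      rw [abs_mul, abs_of_pos hlam0]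
      have := mul_le_mul_of_nonneg_left (hτ1 p l) hlam0.le
      linarith) hop
  have zL : ∀ S : Finset ℕ, S ⊆ L → S.Nonempty → mom (L ∪ B) w0 S = 0 := by
    intro S hS hne
    have h1 : S ∩ B = ∅ := Finset.disjoint_iff_inter_eq_empty.1 (hdis.mono_left hS)
    have h2 : S ∩ L = S := Finset.inter_eq_left.2 hS
    have h3 := m2 S
    rw [h1, h2, Finset.card_empty, Nat.cast_zero, mul_zero, min_eq_right (by norm_num),
      zero_pow (Finset.card_ne_zero.2 hne)] at h3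
    exact abs_eq_zero.1 (le_antisymm h3 (abs_nonneg _))
  have zB : ∀ S : Finset ℕ, S ⊆ B → S.Nonempty → mom (L ∪ B) w0 S = 0 := by
    intro S hS hne
    have h1 : S ∩ L = ∅ := Finset.disjoint_iff_inter_eq_empty.1 (hdis.symm.mono_left hS)
    have h2 : S ∩ B = S := Finset.inter_eq_left.2 hS
    have h3 := m1 S
    rw [h1, h2, Finset.card_empty, Nat.cast_zero, mul_zero, min_eq_right (by norm_num),
      zero_pow (Finset.card_ne_zero.2 hne)] at h3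
    exact abs_eq_zero.1 (le_antisymm h3 (abs_nonneg _))
  have pL := bad_prob_w A M₀ hU hz0 (by omega) hL Finset.subset_union_left w0 hw0.2 zL
  have pB := bad_prob_w A M₀ hU hz0 (by omega) hB Finset.subset_union_right w0 hw0.2 zB
  set Y : ({p // p ∈ L ∪ B} → ℤˣ) → ℝ := fun x =>
    ∑ p ∈ B, ∑ l ∈ L, ((xt x p : ℤ) : ℝ) * ((xt x l : ℤ) : ℝ) * τ' p l with hY
  have hYK : ∀ x, Y x ≤ K := by
    intro x
    have h1 : ∀ n, |((xt x n : ℤ) : ℝ)| = 1 := by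
      intro n
      rcases xt_mem x n with h | h <;> rw [h] <;> norm_num
    calc Y x ≤ ∑ p ∈ B, ∑ l ∈ L, (1 : ℝ) := by
          refine Finset.sum_le_sum fun p _ => Finset.sum_le_sum fun l _ => ?_
          refine (le_abs_self _).trans ?_
          rw [abs_mul, abs_mul, h1, h1, one_mul, one_mul]
          exact hτ1 p l
      _ = K := by simp [hK]
  set μ : ℝ := Real.exp (-1) * lam * K / 2 with hμ
  have hμ0 : 0 ≤ μ := by positivity
  have hE : μ ≤ ∑ x, w0 x * Y x := by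
    have e1 : ∑ x, w0 x * Y x = ∑ p ∈ B, ∑ l ∈ L, τ' p l * mom (L ∪ B) w0 {p, l} := by
      have e2 : ∀ p ∈ B, ∀ l ∈ L, τ' p l * mom (L ∪ B) w0 {p, l} =
          ∑ x, w0 x * (((xt x p : ℤ) : ℝ) * ((xt x l : ℤ) : ℝ) * τ' p l) := by
        intro p hp l hl
        have hne : p ≠ l := fun h => Finset.disjoint_left.1 hdis hl (h ▸ hp)
        rw [mom_eq w0 {p, l} (by
          intro n hn
          rcases Finset.mem_insert.1 hn with h | h
          · rw [h]; exact Finset.mem_union_right _ hp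
          · rw [Finset.mem_singleton.1 h]; exact Finset.mem_union_left _ hl), Finset.mul_sum]
        refine Finset.sum_congr rfl fun x _ => ?_
        rw [Finset.prod_pair hne]; ring
      rw [Finset.sum_congr rfl fun p hp => Finset.sum_congr rfl fun l hl => e2 p hp l hl]
      rw [hY]
      simp only [Finset.mul_sum]
      rw [Finset.sum_comm]
      refine Finset.sum_congr rfl fun p _ => ?_
      rw [Finset.sum_comm]
    rw [e1]
    calc μ = Real.exp (-1) * lam * (K / 2) := by rw [hμ]; ring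
      _ ≤ Real.exp (-1) * lam * ∑ p ∈ B, ∑ l ∈ L, τ (p * l / ((4 * z + 1 : ℕ) : ℝ)) ^ 2 :=
          mul_le_mul_of_nonneg_left hT (by positivity)
      _ = ∑ p ∈ B, ∑ l ∈ L, Real.exp (-1) * (lam * (τ' p l) ^ 2) := by
          rw [Finset.mul_sum]
          refine Finset.sum_congr rfl fun p _ => ?_
          rw [Finset.mul_sum]
          refine Finset.sum_congr rfl fun l _ => ?_
          rw [hτ']; ring
      _ ≤ _ := by
          refine Finset.sum_le_sum fun p hp => Finset.sum_le_sum fun l hl => ?_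
          rw [m3 p hp l hl]
          have := mul_le_mul_of_nonneg_left (sinh_mul_ge lam (τ' p l) hlam0.le)
            (Real.exp_pos (-1)).le
          linarith
  have hgood := good_ev w0 hw0 (fun x => BadL L A z (xt x)) (fun x => BadL B A z (xt x)) Y K μ
    (1 / (z : ℝ) ^ 10) hYK hK0 hμ0 hE pL pB
  set G : ({p // p ∈ L ∪ B} → ℤˣ) → Prop := fun x =>
    ¬ BadL L A z (xt x) ∧ ¬ BadL B A z (xt x) ∧ μ / 2 ≤ Y x with hG
  set P : ℝ := ∑ x, w0 x * (if G x then 1 else 0) with hP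
  have hexp : (1 / 3 : ℝ) ≤ Real.exp (-1) := by
    rw [Real.exp_neg, ← one_div]
    exact one_div_le_one_div_of_le (Real.exp_pos 1) (by
      have := Real.exp_one_lt_d9; linarith)
  have hPz : 1 / (z : ℝ) ^ 2 ≤ P := by
    refine le_trans ?_ hgood
    have e1 : μ / (2 * K) = Real.exp (-1) * lam / 4 := by
      rw [hμ]; field_simp; norm_num
    rw [e1]
    have e2 : (1 / 3) * (4 / (z : ℝ)) ≤ Real.exp (-1) * lam :=
      mul_le_mul hexp hlam4 (by positivity) (by positivity)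
    have e3 : 1 / (z : ℝ) ^ 10 ≤ 1 / (z : ℝ) ^ 2 :=
      one_div_le_one_div_of_le (by positivity) (pow_le_pow_right₀ (by linarith) (by norm_num))
    have e4 : 1 / (z : ℝ) ^ 2 ≤ (1 / 100) * (1 / z) := by
      rw [show (1 / 100) * (1 / (z : ℝ)) = 1 / (100 * z) by field_simp]
      exact one_div_le_one_div_of_le (by positivity) (by nlinarith)
    have e5 : (1 / 3) * (4 / (z : ℝ)) = (4 / 3) * (1 / z) := by ring
    have e6 : 0 < 1 / (z : ℝ) := by positivity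
    linarith
  have hP0 : 0 < P := lt_of_lt_of_le (by positivity) hPz
  refine ⟨fun x => w0 x * (if G x then 1 else 0) / P, w0, ⟨?_, ?_⟩, hw0, ?_, ?_, ?_⟩
  · intro x
    have := hw0.1 x
    simp only
    split_ifs <;> positivity
  · rw [← Finset.sum_div, ← hP, div_self hP0.ne']
  · intro x
    have h0 := hw0.1 x
    have h1 : 1 / P ≤ (z : ℝ) ^ 2 := by
      rw [div_le_iff₀ hP0]
      have := mul_le_mul_of_nonneg_left hPz (by positivity : (0 : ℝ) ≤ (z : ℝ) ^ 2)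
      have h2 : (z : ℝ) ^ 2 * (1 / (z : ℝ) ^ 2) = 1 := by field_simp
      linarith
    simp only
    split_ifs
    · calc w0 x * 1 / P = (1 / P) * w0 x := by ring
        _ ≤ _ := mul_le_mul_of_nonneg_right h1 h0
    · have : 0 ≤ (z : ℝ) ^ 2 * w0 x := by positivity
      simpa using this
  · intro S
    have hst : (S ∩ (L ∪ B)).card = (S ∩ B).card + (S ∩ L).card := by
      rw [Finset.inter_union_distrib_left, Finset.card_union_of_disjoint
        ((hdis.mono_left Finset.inter_subset_right).mono_right Finset.inter_subset_right), add_comm]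
    exact numb (Real.sqrt z) lam hsz1 hlam0.le hlamz _ _ _ _ hst (m1 S) (m2 S)
  · intro f hf
    have hGf : G (rs (L ∪ B) f) := by
      by_contra hcon
      simp only at hf
      rw [if_neg hcon, mul_zero, zero_div] at hf
      exact lt_irrefl _ hf
    have hxt : ∀ p ∈ L ∪ B, xt (rs (L ∪ B) f) p = ((f p : ℤˣ) : ℤ) := by
      intro p hp
      exact xt_val (rs (L ∪ B) f) ⟨p, hp⟩
    obtain ⟨g1, g2, g3⟩ := hGf
    refine ⟨?_, ?_, ?_⟩
    · intro q χ t y hq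
      by_contra hcon
      push Not at hcon
      refine g1 ((BadL_congr A (g := fun p => ((f p : ℤˣ) : ℤ)) ?_).1 ⟨q, χ, t, y, hq, hcon⟩)
      intro p hp
      exact (hxt p (Finset.mem_union_left _ hp)).symm
    · intro q χ t y hq
      by_contra hcon
      push Not at hcon
      refine g2 ((BadL_congr A (g := fun p => ((f p : ℤˣ) : ℤ)) ?_).1 ⟨q, χ, t, y, hq, hcon⟩)
      intro p hp
      exact (hxt p (Finset.mem_union_right _ hp)).symm
    · refine le_trans ?_ (tau_norm L B (fun p => ((f p : ℤˣ) : ℤ)) τ hτ)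
      have e1 : ∑ p ∈ B, ∑ l ∈ L, (((f p : ℤˣ) : ℤ) : ℝ) * (((f l : ℤˣ) : ℤ) : ℝ) *
          τ (p * l / ((4 * z + 1 : ℕ) : ℝ)) = Y (rs (L ∪ B) f) := by
        rw [hY]
        refine Finset.sum_congr rfl fun p hp => Finset.sum_congr rfl fun l hl => ?_
        rw [hxt p (Finset.mem_union_right _ hp), hxt l (Finset.mem_union_left _ hl)]
      rw [e1]
      refine le_trans ?_ g3
      have e2 : (1 / 3) * ((1 / 3) * (z : ℝ) ^ (-(1 / 2) : ℝ)) * ((z : ℝ) ^ (2 - 2 * δ) / 16) ≤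
          Real.exp (-1) * lam * K := by
        refine mul_le_mul (mul_le_mul hexp hlamz3 (by positivity) (Real.exp_pos _).le) ?_
          (by positivity) (by positivity)
        linarith
      have e3 : (z : ℝ) ^ (-(1 / 2) : ℝ) * (z : ℝ) ^ (2 - 2 * δ) =
          (z : ℝ) ^ (3 / 2 - 4 * δ) * ((z : ℝ) ^ δ * (z : ℝ) ^ δ) := by
        rw [← Real.rpow_add hzpos, ← Real.rpow_add hzpos, ← Real.rpow_add hzpos]
        congr 1; ring
      have e4 : (256 : ℝ) * 256 ≤ (z : ℝ) ^ δ * (z : ℝ) ^ δ :=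
        mul_le_mul h256 h256 (by norm_num) (by linarith)
      have e5 : 0 ≤ (z : ℝ) ^ (3 / 2 - 4 * δ) := Real.rpow_nonneg hzpos.le _
      have e6 : (z : ℝ) ^ (3 / 2 - 4 * δ) * (256 * 256) ≤
          (z : ℝ) ^ (3 / 2 - 4 * δ) * ((z : ℝ) ^ δ * (z : ℝ) ^ δ) :=
        mul_le_mul_of_nonneg_left e4 e5
      have e7 : (1 / 3) * ((1 / 3) * (z : ℝ) ^ (-(1 / 2) : ℝ)) * ((z : ℝ) ^ (2 - 2 * δ) / 16) =
          (1 / 144) * ((z : ℝ) ^ (-(1 / 2) : ℝ) * (z : ℝ) ^ (2 - 2 * δ)) := by ring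
      rw [hμ]
      rw [e7, e3] at e2
      linarith

end BLKaux

theorem BLK : ∃ C : ℝ, 0 < C ∧ ∀ δ : ℝ, 0 < δ → δ ≤ 1 / 10 → ∃ z₀ : ℕ, ∀ z : ℕ, z₀ ≤ z →
    ∀ L B : Finset ℕ, L ⊆ Ioc (3 * z) (4 * z) → B ⊆ Ioc (3 * z) (4 * z) → Disjoint L B →
    (z : ℝ) ^ (1 - δ) ≤ 4 * L.card → (z : ℝ) ^ (1 - δ) ≤ 4 * B.card →
    ∃ w w0 : ({p // p ∈ L ∪ B} → ℤˣ) → ℝ, IsPW w ∧ IsPW w0 ∧
      (∀ x, w x ≤ (z : ℝ) ^ 2 * w0 x) ∧
      (∀ S : Finset ℕ, |mom (L ∪ B) w0 S| ≤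
        (Real.sqrt (min 1 ((S ∩ (L ∪ B)).card / Real.sqrt z))) ^ (S ∩ (L ∪ B)).card) ∧
      ∀ f : ℕ → ℤˣ, 0 < w (rs (L ∪ B) f) →
        (∀ (q : ℕ) (χ : DirichletCharacter ℂ q) (t : ℝ) (y : ℕ), 1 ≤ q →
          ‖∑ p ∈ L.filter (· ≤ y), ((f p : ℤ) : ℂ) * χ (p : ZMod q) * npi p t‖ ≤
            C * Real.sqrt z * Real.sqrt (Real.log (q * (2 + |t|)) * Real.log z)) ∧
        (∀ (q : ℕ) (χ : DirichletCharacter ℂ q) (t : ℝ) (y : ℕ), 1 ≤ q →
          ‖∑ p ∈ B.filter (· ≤ y), ((f p : ℤ) : ℂ) * χ (p : ZMod q) * npi p t‖ ≤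
            C * Real.sqrt z * Real.sqrt (Real.log (q * (2 + |t|)) * Real.log z)) ∧
        (z : ℝ) ^ (3 / 2 - 4 * δ) ≤ ‖∑ p ∈ B, ∑ l ∈ L, ((f p : ℤ) : ℂ) * ((f l : ℤ) : ℂ) *
          e ((p * l : ℕ) * (1 / (4 * z + 1)))‖ := by
  obtain ⟨A, M₀, hA, _, hU⟩ := Pool.Agent.Helper92.GB.UR
  refine ⟨A, hA, fun δ hδ _ => ?_⟩
  have h2 : ∀ᶠ x : ℝ in Filter.atTop, 256 ≤ x ^ δ :=
    (tendsto_rpow_atTop hδ).eventually_ge_atTop 256
  have h3 : ∀ᶠ n : ℕ in Filter.atTop, M₀ ≤ n ∧ 100 ≤ n ∧ 256 ≤ (n : ℝ) ^ δ := by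
    filter_upwards [Filter.eventually_ge_atTop M₀, Filter.eventually_ge_atTop 100,
      tendsto_natCast_atTop_atTop.eventually h2] with n a b d
    exact ⟨a, b, d⟩
  obtain ⟨z₀, hz₀⟩ := Filter.eventually_atTop.1 h3
  refine ⟨z₀, fun z hz L B hL hB hdis hLc hBc => ?_⟩
  obtain ⟨a, b, d⟩ := hz₀ z hz
  exact BLKaux.core A M₀ hU δ a b d hL hB hdis hLc hBc

end Pool.Agent.Helper92.CB
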