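import Mathlib
import Pool.Agent.Helper92.CB.Defs

/-!
# Block CB-DIV (MP_b6b996_nt)
`A^{ω(n)} ≪ n^ε`.
Proof. `n ≥ ∏_{p ∣ n} p`; for primes `p ≥ A^{1/ε}` we have `A ≤ p^ε`; the primes below `P = ⌈A^{1/ε}⌉` contribute at most `A^P`. So `A^{ω(n)} ≤ A^P n^ε`.
DIV2: take `τ` = the largest value of `ω` on `[1, 2N]`, attained at some `m`, `A^τ ≤ C m^ε ≤ C (2N)^ε`.
-/

set_option autoImplicit false

namespace Pool.Agent.Helper92.CB

open Finset
open Pool.Agent.Helper92.GB (e ext F npi wt)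

theorem DIV (A ε : ℝ) (hA : 1 ≤ A) (hε : 0 < ε) : ∃ C : ℝ, 1 ≤ C ∧ ∀ n : ℕ, 1 ≤ n →
    A ^ n.primeFactors.card ≤ C * (n : ℝ) ^ ε := by
  classical
  have hA0 : 0 < A := lt_of_lt_of_le one_pos hA
  set P : ℕ := ⌈A ^ (1 / ε)⌉₊ with hP
  refine ⟨A ^ P, one_le_pow₀ hA, ?_⟩
  intro n hn
  have hn0 : n ≠ 0 := by omega
  have h1 : ∀ p ∈ n.primeFactors, A ≤ (if p < P then A else 1) * (p : ℝ) ^ ε := by
    intro p hp
    have hp1 : (1 : ℝ) ≤ p := by exact_mod_cast (Nat.prime_of_mem_primeFactors hp).one_lt.le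
    split_ifs with h
    · have h2 : (1 : ℝ) ≤ (p : ℝ) ^ ε := Real.one_le_rpow hp1 hε.le
      nlinarith
    · rw [one_mul]
      have h3 : A ^ (1 / ε) ≤ p := le_trans (Nat.le_ceil _) (by exact_mod_cast not_lt.mp h)
      have h4 : (A ^ (1 / ε)) ^ ε ≤ (p : ℝ) ^ ε :=
        Real.rpow_le_rpow (Real.rpow_nonneg hA0.le _) h3 hε.le
      rw [← Real.rpow_mul hA0.le, one_div_mul_cancel hε.ne', Real.rpow_one] at h4
      exact h4
  calc A ^ n.primeFactors.card = ∏ _p ∈ n.primeFactors, A := by rw [Finset.prod_const]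
    _ ≤ ∏ p ∈ n.primeFactors, ((if p < P then A else 1) * (p : ℝ) ^ ε) :=
        Finset.prod_le_prod (fun _ _ => hA0.le) h1
    _ = (∏ p ∈ n.primeFactors, (if p < P then A else 1)) * ∏ p ∈ n.primeFactors, (p : ℝ) ^ ε :=
        Finset.prod_mul_distrib
    _ ≤ A ^ P * (n : ℝ) ^ ε := by
        apply mul_le_mul
        · rw [Finset.prod_ite, Finset.prod_const, Finset.prod_const, one_pow, mul_one]
          apply pow_le_pow_right₀ hA
          calc (n.primeFactors.filter (fun p => p < P)).card ≤ (Finset.range P).card := by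
                apply Finset.card_le_card
                intro p hp
                rw [Finset.mem_filter] at hp
                exact Finset.mem_range.mpr hp.2
            _ = P := Finset.card_range P
        · rw [Real.finsetProd_rpow _ _ (fun p _ => Nat.cast_nonneg p)]
          apply Real.rpow_le_rpow (Finset.prod_nonneg fun p _ => Nat.cast_nonneg p) _ hε.le
          rw [← Nat.cast_prod]
          exact_mod_cast Nat.le_of_dvd (by omega) (Nat.prod_primeFactors_dvd n)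
        · exact Finset.prod_nonneg fun p _ => Real.rpow_nonneg (Nat.cast_nonneg p) _
        · positivity

theorem DIV2 (A ε : ℝ) (hA : 1 ≤ A) (hε : 0 < ε) : ∃ C : ℝ, 1 ≤ C ∧ ∀ N : ℕ, 1 ≤ N → ∃ τ : ℕ,
    (∀ n : ℕ, 1 ≤ n → n ≤ 2 * N → n.primeFactors.card ≤ τ) ∧ A ^ τ ≤ C * (N : ℝ) ^ ε := by
  obtain ⟨C, hC, h⟩ := DIV A ε hA hε
  refine ⟨C * 2 ^ ε, ?_, ?_⟩
  · have : (1 : ℝ) ≤ (2 : ℝ) ^ ε := Real.one_le_rpow (by norm_num) hε.le
    nlinarith
  intro N hN
  obtain ⟨m, hm, hmax⟩ := Finset.exists_max_image (Finset.Icc 1 (2 * N))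
    (fun n => n.primeFactors.card) ⟨1, Finset.mem_Icc.mpr ⟨le_refl _, by omega⟩⟩
  rw [Finset.mem_Icc] at hm
  refine ⟨m.primeFactors.card, fun n h1 h2 => hmax n (Finset.mem_Icc.mpr ⟨h1, h2⟩), ?_⟩
  calc A ^ m.primeFactors.card ≤ C * (m : ℝ) ^ ε := h m hm.1
    _ ≤ C * ((2 * N : ℕ) : ℝ) ^ ε := by
        apply mul_le_mul_of_nonneg_left _ (by linarith)
        exact Real.rpow_le_rpow (Nat.cast_nonneg m) (by exact_mod_cast hm.2) hε.le
    _ = C * 2 ^ ε * (N : ℝ) ^ ε := by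
        push_cast
        rw [Real.mul_rpow (by norm_num) (Nat.cast_nonneg N)]
        ring

end Pool.Agent.Helper92.CB
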