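import Mathlib
import Pool.Agent.Helper92.CB.Defs

/-!
# Block CB-HC (MP_b6b996_nt)
Hypercontractive inequality for polynomials of degree `≤ d` in independent signs with means `ρ i ∈ [0, 1/2] ∪ {1}`.
(`wt ρ η = ∏ (1 + η_i ρ_i)/2` is the product weight, see GB/Defs.)
Proof. (1) Bonami lemma: for every real function `F` in the span of the `∏_{i ∈ A} η_i`, `|A| ≤ d`: `E F⁴ ≤ 18^d (E F²)²`. Induction on the number of
variables used: write `F = G + x H`, `x = η_i - ρ_i`, `G`, `H` free of `η_i`, degrees `≤ d`, `≤ d - 1`. If `ρ i = 1` then `x = 0` almost surely. Else `E x = 0`,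
`s = E x² = 1 - ρ² ≥ 3/4`, `|E x³| = 2ρ(1-ρ²) ≤ s`, `E x⁴ = (1-ρ²)(1+3ρ²) ≤ (7/4) s`. With `H' = √s H`:
`E F⁴ = E G⁴ + 6 E G²H'² + 4 E[x³] E[G H³] + E[x⁴] E[H⁴] ≤ E G⁴ + 6 E G²H'² + 4.62 E|G H'³| + (7/3) E H'⁴`, `4.62 |G H'³| ≤ 2.31 (G²H'² + H'⁴)`,
`E G²H'² ≤ (E G⁴ E H'⁴)^{1/2}`; with the induction hypotheses the total is `≤ 18^d (E G² + E H'²)² = 18^d (E F²)²` since `8.31/√18 ≤ 2` and `4.65/18 ≤ 1`.
(2) `F^{2^r}` is in the span for degree `2^r d` (`∏_A η ∏_B η = ∏_{A △ B} η`), so `E F^{2^{r+2}} ≤ 18^{2^r d} (E F^{2^{r+1}})²`; induction on `r` gives the exponent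
`d r 2^{r-1} ≤ d r 2^r`.
-/

set_option autoImplicit false

namespace Pool.Agent.Helper92.CB

open Finset
open Pool.Agent.Helper92.GB (e ext F npi wt)

namespace HCAux

variable {ι : Type} [Fintype ι] [DecidableEq ι]

/-- The average. -/
noncomputable def E (ρ : ι → ℝ) (f : (ι → ℤˣ) → ℝ) : ℝ := ∑ η : ι → ℤˣ, wt ρ η * f η

/-- Flip the sign `i`. -/
def fl (i : ι) (η : ι → ℤˣ) : ι → ℤˣ := Function.update η i (-η i)

lemma fl_fl (i : ι) (η : ι → ℤˣ) : fl i (fl i η) = η := by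
  funext s
  by_cases h : s = i
  · subst h; simp [fl]
  · simp [fl, h]

lemma sum_fl (i : ι) (f : (ι → ℤˣ) → ℝ) : ∑ η, f (fl i η) = ∑ η, f η :=
  Fintype.sum_equiv ⟨fl i, fl i, fl_fl i, fl_fl i⟩ _ _ (fun _ => rfl)

/-- The weight of the other signs. -/
noncomputable def wo (ρ : ι → ℝ) (i : ι) (η : ι → ℤˣ) : ℝ :=
  ∏ s ∈ univ.erase i, (1 + ((η s : ℤ) : ℝ) * ρ s) / 2

lemma wt_eq (ρ : ι → ℝ) (i : ι) (η : ι → ℤˣ) :
    wt ρ η = (1 + ((η i : ℤ) : ℝ) * ρ i) / 2 * wo ρ i η := by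
  rw [wt, wo, Finset.mul_prod_erase univ (fun s => (1 + ((η s : ℤ) : ℝ) * ρ s) / 2) (mem_univ i)]

lemma wo_fl (ρ : ι → ℝ) (i : ι) (η : ι → ℤˣ) : wo ρ i (fl i η) = wo ρ i η :=
  Finset.prod_congr rfl fun s hs => by
    rw [fl, Function.update_of_ne (Finset.ne_of_mem_erase hs)]

lemma E_ind1 (ρ : ι → ℝ) (i : ι) (φ : ℝ → ℝ) (f : (ι → ℤˣ) → ℝ) (hf : ∀ η, f (fl i η) = f η) :
    2 * E ρ (fun η => φ ((η i : ℤ) : ℝ) * f η) =
      ((1 + ρ i) / 2 * φ 1 + (1 - ρ i) / 2 * φ (-1)) * ∑ η, wo ρ i η * f η := by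
  have h0 : 2 * E ρ (fun η => φ ((η i : ℤ) : ℝ) * f η) =
      ∑ η, (wt ρ η * (φ ((η i : ℤ) : ℝ) * f η) +
        wt ρ (fl i η) * (φ (((fl i η) i : ℤ) : ℝ) * f (fl i η))) := by
    rw [sum_add_distrib, sum_fl i (fun η => wt ρ η * (φ ((η i : ℤ) : ℝ) * f η)), E]
    ring
  rw [h0, mul_sum]
  refine sum_congr rfl fun η _ => ?_
  have hi : (fl i η) i = - η i := by simp [fl]
  rw [hf, wt_eq ρ i η, wt_eq ρ i (fl i η), wo_fl, hi]
  rcases Int.units_eq_one_or (η i) with e | e <;> rw [e] <;> simp <;> ring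

lemma E_ind (ρ : ι → ℝ) (i : ι) (φ : ℝ → ℝ) (f : (ι → ℤˣ) → ℝ) (hf : ∀ η, f (fl i η) = f η) :
    E ρ (fun η => φ ((η i : ℤ) : ℝ) * f η) =
      ((1 + ρ i) / 2 * φ 1 + (1 - ρ i) / 2 * φ (-1)) * E ρ f := by
  have h1 := E_ind1 ρ i φ f hf
  have h2 := E_ind1 ρ i (fun _ => 1) f hf
  have h3 : E ρ (fun η => (fun _ => (1 : ℝ)) ((η i : ℤ) : ℝ) * f η) = E ρ f := by
    simp only [one_mul]
  rw [h3] at h2
  have h4 : ∑ η, wo ρ i η * f η = 2 * E ρ f := by rw [h2]; ring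
  rw [h4] at h1
  linarith

lemma wt_nonneg (ρ : ι → ℝ) (hρ : ∀ i, (0 ≤ ρ i ∧ ρ i ≤ 1 / 2) ∨ ρ i = 1) (η : ι → ℤˣ) :
    0 ≤ wt ρ η := by
  refine Finset.prod_nonneg fun s _ => ?_
  rcases hρ s with h | h <;> rcases Int.units_eq_one_or (η s) with e | e <;> rw [e] <;>
    push_cast <;> linarith

lemma E_one (ρ : ι → ℝ) : E ρ (fun _ => 1) = 1 := by
  unfold E
  simp only [mul_one, wt]
  have e2 := Finset.prod_univ_sum (fun _ : ι => (Finset.univ : Finset ℤˣ))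
    (fun s u => (1 + (((u : ℤˣ) : ℤ) : ℝ) * ρ s) / 2)
  rw [Fintype.piFinset_univ] at e2
  rw [← e2]
  refine Finset.prod_eq_one fun s _ => ?_
  have : (Finset.univ : Finset ℤˣ) = {1, -1} := by decide
  rw [this, Finset.sum_pair (by decide)]
  push_cast
  ring

lemma E_add (ρ : ι → ℝ) (f g : (ι → ℤˣ) → ℝ) :
    E ρ (fun η => f η + g η) = E ρ f + E ρ g := by
  simp only [E, mul_add, sum_add_distrib]

lemma E_mul (ρ : ι → ℝ) (c : ℝ) (f : (ι → ℤˣ) → ℝ) :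
    E ρ (fun η => c * f η) = c * E ρ f := by
  simp only [E, mul_sum]
  exact sum_congr rfl fun η _ => by ring

lemma E_mono (ρ : ι → ℝ) (hρ : ∀ i, (0 ≤ ρ i ∧ ρ i ≤ 1 / 2) ∨ ρ i = 1)
    (f g : (ι → ℤˣ) → ℝ) (h : ∀ η, f η ≤ g η) : E ρ f ≤ E ρ g :=
  sum_le_sum fun η _ => mul_le_mul_of_nonneg_left (h η) (wt_nonneg ρ hρ η)

lemma E_nonneg (ρ : ι → ℝ) (hρ : ∀ i, (0 ≤ ρ i ∧ ρ i ≤ 1 / 2) ∨ ρ i = 1)
    (f : (ι → ℤˣ) → ℝ) (h : ∀ η, 0 ≤ f η) : 0 ≤ E ρ f :=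
  sum_nonneg fun η _ => mul_nonneg (wt_nonneg ρ hρ η) (h η)

/-- The character of a set. -/
def chi (T : Finset ι) (η : ι → ℤˣ) : ℝ := ∏ i ∈ T, ((η i : ℤ) : ℝ)

/-- Polynomials of degree at most `d` in the signs of `S`. -/
def V (S : Finset ι) (d : ℕ) : Submodule ℝ ((ι → ℤˣ) → ℝ) :=
  Submodule.span ℝ {f | ∃ T, T ⊆ S ∧ T.card ≤ d ∧ f = chi T}

lemma V_inv (S : Finset ι) (d : ℕ) (i : ι) (hi : i ∉ S) (f : (ι → ℤˣ) → ℝ) (hf : f ∈ V S d)
    (η : ι → ℤˣ) : f (fl i η) = f η := by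
  unfold V at hf
  induction hf using Submodule.span_induction with
  | mem x hx =>
    obtain ⟨T, hT, -, rfl⟩ := hx
    refine prod_congr rfl fun s hs => ?_
    rw [fl, Function.update_of_ne]
    rintro rfl
    exact hi (hT hs)
  | zero => rfl
  | add x y _ _ hx hy => simp only [Pi.add_apply, hx, hy]
  | smul a x _ hx => simp only [Pi.smul_apply, hx]

lemma chi_mul (A B : Finset ι) (η : ι → ℤˣ) : chi A η * chi B η = chi (symmDiff A B) η := by
  unfold chi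
  have hA : A = (A \ B) ∪ (A ∩ B) := by
    ext x; simp only [mem_union, mem_sdiff, mem_inter]; tauto
  have hB : B = (B \ A) ∪ (A ∩ B) := by
    ext x; simp only [mem_union, mem_sdiff, mem_inter]; tauto
  have hS : symmDiff A B = (A \ B) ∪ (B \ A) := rfl
  have dA : Disjoint (A \ B) (A ∩ B) := by
    rw [Finset.disjoint_left]; intro x; simp only [mem_sdiff, mem_inter]; tauto
  have dB : Disjoint (B \ A) (A ∩ B) := by
    rw [Finset.disjoint_left]; intro x; simp only [mem_sdiff, mem_inter]; tauto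
  have dS : Disjoint (A \ B) (B \ A) := by
    rw [Finset.disjoint_left]; intro x; simp only [mem_sdiff]; tauto
  have e1 : ∏ i ∈ A, ((η i : ℤ) : ℝ) =
      (∏ i ∈ A \ B, ((η i : ℤ) : ℝ)) * ∏ i ∈ A ∩ B, ((η i : ℤ) : ℝ) := by
    conv_lhs => rw [hA]
    rw [prod_union dA]
  have e2 : ∏ i ∈ B, ((η i : ℤ) : ℝ) =
      (∏ i ∈ B \ A, ((η i : ℤ) : ℝ)) * ∏ i ∈ A ∩ B, ((η i : ℤ) : ℝ) := by
    conv_lhs => rw [hB]
    rw [prod_union dB]
  have e3 : (∏ i ∈ A ∩ B, ((η i : ℤ) : ℝ)) * ∏ i ∈ A ∩ B, ((η i : ℤ) : ℝ) = 1 := by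
    rw [← prod_mul_distrib]
    refine prod_eq_one fun s _ => ?_
    rcases Int.units_eq_one_or (η s) with e | e <;> rw [e] <;> simp
  rw [e1, e2, hS, prod_union dS]
  calc _ = (∏ i ∈ A \ B, ((η i : ℤ) : ℝ)) * (∏ i ∈ B \ A, ((η i : ℤ) : ℝ)) *
        ((∏ i ∈ A ∩ B, ((η i : ℤ) : ℝ)) * ∏ i ∈ A ∩ B, ((η i : ℤ) : ℝ)) := by ring
    _ = _ := by rw [e3, mul_one]

lemma V_mul (S : Finset ι) (a b : ℕ) (f g : (ι → ℤˣ) → ℝ) (hf : f ∈ V S a) (hg : g ∈ V S b) :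
    f * g ∈ V S (a + b) := by
  have h : f * g ∈ V S a * V S b := Submodule.mul_mem_mul hf hg
  unfold V at h
  rw [Submodule.span_mul_span] at h
  refine Submodule.span_mono ?_ h
  rintro _ ⟨_, ⟨A, hA, hA', rfl⟩, _, ⟨B, hB, hB', rfl⟩, rfl⟩
  refine ⟨symmDiff A B, ?_, ?_, ?_⟩
  · intro x hx
    rw [Finset.mem_symmDiff] at hx
    rcases hx with h | h
    · exact hA h.1
    · exact hB h.1
  · have : symmDiff A B ⊆ A ∪ B := by
      intro x hx
      rw [Finset.mem_symmDiff] at hx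
      rw [mem_union]
      tauto
    exact (card_le_card this).trans ((card_union_le A B).trans (by omega))
  · funext η
    exact chi_mul A B η

lemma V_one (S : Finset ι) : (1 : (ι → ℤˣ) → ℝ) ∈ V S 0 :=
  Submodule.subset_span ⟨∅, by simp, by simp, by funext η; simp [chi]⟩

lemma V_pow (S : Finset ι) (a : ℕ) (f : (ι → ℤˣ) → ℝ) (hf : f ∈ V S a) (k : ℕ) :
    f ^ k ∈ V S (k * a) := by
  induction k with
  | zero => simpa using V_one S
  | succ k ih =>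
    rw [pow_succ, Nat.succ_mul]
    exact V_mul S _ _ _ _ ih hf

lemma V_split (S : Finset ι) (d : ℕ) (i : ι) (hi : i ∉ S) (r : ℝ) (f : (ι → ℤˣ) → ℝ)
    (hf : f ∈ V (insert i S) d) : ∃ G ∈ V S d, ∃ H ∈ V S (d - 1), (d = 0 → H = 0) ∧
      ∀ η, f η = G η + (((η i : ℤ) : ℝ) - r) * H η := by
  unfold V at hf
  induction hf using Submodule.span_induction with
  | mem x hx =>
    obtain ⟨T, hT, hd, rfl⟩ := hx
    by_cases h : i ∈ T
    · have hc : (T.erase i).card = T.card - 1 := card_erase_of_mem h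
      have hpos : 0 < T.card := card_pos.2 ⟨i, h⟩
      have hs : T.erase i ⊆ S := by
        intro x hx
        have h1 := hT (mem_of_mem_erase hx)
        rcases mem_insert.1 h1 with h2 | h2
        · exact absurd h2 (ne_of_mem_erase hx)
        · exact h2
      refine ⟨r • chi (T.erase i), Submodule.smul_mem _ _
        (Submodule.subset_span ⟨T.erase i, hs, by omega, rfl⟩), chi (T.erase i),
        Submodule.subset_span ⟨T.erase i, hs, by omega, rfl⟩, fun h0 => by omega, fun η => ?_⟩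
      have : chi T η = ((η i : ℤ) : ℝ) * chi (T.erase i) η := by
        unfold chi
        rw [Finset.mul_prod_erase T (fun s => ((η s : ℤ) : ℝ)) h]
      rw [this, Pi.smul_apply, smul_eq_mul]
      ring
    · have hs : T ⊆ S := by
        intro x hx
        rcases mem_insert.1 (hT hx) with h2 | h2
        · exact absurd (h2 ▸ hx) h
        · exact h2
      exact ⟨chi T, Submodule.subset_span ⟨T, hs, hd, rfl⟩, 0, Submodule.zero_mem _,
        fun _ => rfl, fun η => by simp⟩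
  | zero => exact ⟨0, Submodule.zero_mem _, 0, Submodule.zero_mem _, fun _ => rfl,
      fun η => by simp⟩
  | add x y _ _ hx hy =>
    obtain ⟨G, hG, H, hH, h0, h⟩ := hx
    obtain ⟨G', hG', H', hH', h0', h'⟩ := hy
    refine ⟨G + G', Submodule.add_mem _ hG hG', H + H', Submodule.add_mem _ hH hH',
      fun hd => by rw [h0 hd, h0' hd, add_zero], fun η => ?_⟩
    simp only [Pi.add_apply, h η, h' η]
    ring
  | smul a x _ hx =>
    obtain ⟨G, hG, H, hH, h0, h⟩ := hx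
    refine ⟨a • G, Submodule.smul_mem _ _ hG, a • H, Submodule.smul_mem _ _ hH,
      fun hd => by rw [h0 hd, smul_zero], fun η => ?_⟩
    simp only [Pi.smul_apply, h η, smul_eq_mul]
    ring

lemma arith (s g4 h4 P Q m3 a b K EF : ℝ) (hs : 3 / 4 ≤ s) (hm3 : 4 * m3 * Q ≤
    s * (2.31 * P + 1.732 * h4)) (ha : 0 ≤ a) (hb : 0 ≤ b) (hK : 0 ≤ K)
    (hh : 0 ≤ h4) (hP : 0 ≤ P) (hg4 : 0 ≤ g4)
    (hCS : P ^ 2 ≤ g4 * h4) (hg : g4 ≤ 18 * K * a ^ 2) (hh4 : h4 ≤ K * b ^ 2) (m4 : ℝ)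
    (hm4 : m4 ≤ 7 / 4 * s)
    (hEF : EF = g4 + 6 * s * P + 4 * m3 * Q + m4 * h4) :
    EF ≤ 18 * K * (a + s * b) ^ 2 := by
  have hs0 : 0 ≤ s := by linarith
  have h1 : (8.31 * (s * P)) ^ 2 ≤ (2 * (18 * K * (a * (s * b)))) ^ 2 := by
    have h2 : P ^ 2 ≤ (18 * K * a ^ 2) * (K * b ^ 2) :=
      hCS.trans (mul_le_mul hg hh4 hh (by positivity))
    have h3 : s ^ 2 * P ^ 2 ≤ s ^ 2 * ((18 * K * a ^ 2) * (K * b ^ 2)) :=
      mul_le_mul_of_nonneg_left h2 (by positivity)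
    have h4' : 0 ≤ s ^ 2 * (K ^ 2 * a ^ 2 * b ^ 2) := by positivity
    have e1 : (8.31 * (s * P)) ^ 2 = 69.0561 * (s ^ 2 * P ^ 2) := by ring
    have e2 : (2 * (18 * K * (a * (s * b)))) ^ 2 =
      1296 * (s ^ 2 * (K ^ 2 * a ^ 2 * b ^ 2)) := by ring
    have e3 : s ^ 2 * ((18 * K * a ^ 2) * (K * b ^ 2)) =
      18 * (s ^ 2 * (K ^ 2 * a ^ 2 * b ^ 2)) := by ring
    rw [e1, e2]
    rw [e3] at h3
    nlinarith
  have h2 : 8.31 * (s * P) ≤ 2 * (18 * K * (a * (s * b))) :=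
    le_trans (le_abs_self _) (abs_le_of_sq_le_sq h1 (by positivity))
  have h3 : m4 * h4 ≤ 7 / 4 * s * h4 := mul_le_mul_of_nonneg_right hm4 hh
  have h5 : s * h4 ≤ 4 / 3 * (s ^ 2 * (K * b ^ 2)) := by
    have : s * h4 ≤ s * (K * b ^ 2) := mul_le_mul_of_nonneg_left hh4 hs0
    have h6 : 0 ≤ K * b ^ 2 := by positivity
    nlinarith [mul_nonneg (mul_nonneg hs0 h6) (by linarith : (0 : ℝ) ≤ s - 3 / 4)]
  have h7 : 0 ≤ s ^ 2 * (K * b ^ 2) := by positivity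
  rw [hEF]
  have e4 : 18 * K * (a + s * b) ^ 2 = 18 * K * a ^ 2 + 2 * (18 * K * (a * (s * b))) +
    18 * (s ^ 2 * (K * b ^ 2)) := by ring
  rw [e4]
  nlinarith

lemma pointwise (s m3 G H : ℝ) (h : |m3| ≤ s) :
    4 * m3 * (G * H ^ 3) ≤ s * (2.31 * (G ^ 2 * H ^ 2) + 1.732 * H ^ 4) := by
  have h1 : |4 * (G * H ^ 3)| ≤ 2.31 * (G ^ 2 * H ^ 2) + 1.732 * H ^ 4 := by
    rw [abs_le]
    constructor
    · nlinarith [sq_nonneg (G * H + 1.732 / 2 * H ^ 2), sq_nonneg (G * H), sq_nonneg (H ^ 2)]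
    · nlinarith [sq_nonneg (G * H - 1.732 / 2 * H ^ 2), sq_nonneg (G * H), sq_nonneg (H ^ 2)]
  calc 4 * m3 * (G * H ^ 3) = m3 * (4 * (G * H ^ 3)) := by ring
    _ ≤ |m3 * (4 * (G * H ^ 3))| := le_abs_self _
    _ = |m3| * |4 * (G * H ^ 3)| := abs_mul _ _
    _ ≤ s * (2.31 * (G ^ 2 * H ^ 2) + 1.732 * H ^ 4) :=
      mul_le_mul h h1 (abs_nonneg _) ((abs_nonneg _).trans h)

lemma cs (ρ : ι → ℝ) (hρ : ∀ i, (0 ≤ ρ i ∧ ρ i ≤ 1 / 2) ∨ ρ i = 1) (G H : (ι → ℤˣ) → ℝ) :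
    E ρ (fun η => G η ^ 2 * H η ^ 2) ^ 2 ≤ E ρ (fun η => G η ^ 4) * E ρ (fun η => H η ^ 4) := by
  refine Finset.sum_sq_le_sum_mul_sum_of_sq_le_mul _
    (fun η _ => mul_nonneg (wt_nonneg ρ hρ η) (by positivity))
    (fun η _ => mul_nonneg (wt_nonneg ρ hρ η) (by positivity)) (fun η _ => le_of_eq (by ring))

lemma bonami (ρ : ι → ℝ) (hρ : ∀ i, (0 ≤ ρ i ∧ ρ i ≤ 1 / 2) ∨ ρ i = 1) (S : Finset ι) :
    ∀ (d : ℕ) (f : (ι → ℤˣ) → ℝ), f ∈ V S d →
      E ρ (fun η => f η ^ 4) ≤ 18 ^ d * E ρ (fun η => f η ^ 2) ^ 2 := by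
  induction S using Finset.induction_on with
  | empty =>
    intro d f hf
    have hc : ∃ c : ℝ, ∀ η, f η = c := by
      unfold V at hf
      induction hf using Submodule.span_induction with
      | mem x hx =>
        obtain ⟨T, hT, -, rfl⟩ := hx
        rw [subset_empty] at hT
        subst hT
        exact ⟨1, fun η => by simp [chi]⟩
      | zero => exact ⟨0, fun η => rfl⟩
      | add x y _ _ hx hy =>
        obtain ⟨a, ha⟩ := hx
        obtain ⟨b, hb⟩ := hy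
        exact ⟨a + b, fun η => by simp [ha, hb]⟩
      | smul a x _ hx =>
        obtain ⟨b, hb⟩ := hx
        exact ⟨a * b, fun η => by simp [hb]⟩
    obtain ⟨c, hc⟩ := hc
    simp only [hc]
    have e4 : E ρ (fun _ => c ^ 4) = c ^ 4 := by
      have := E_mul ρ (c ^ 4) (fun _ => 1)
      rw [E_one] at this
      simpa using this
    have e2 : E ρ (fun _ => c ^ 2) = c ^ 2 := by
      have := E_mul ρ (c ^ 2) (fun _ => 1)
      rw [E_one] at this
      simpa using this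
    rw [e4, e2]
    have : (1 : ℝ) ≤ 18 ^ d := one_le_pow₀ (by norm_num)
    nlinarith [sq_nonneg (c ^ 2)]
  | insert i S hi ih =>
    intro d f hf
    obtain ⟨G, hG, H, hH, h0, h⟩ := V_split S d i hi (ρ i) f hf
    have iG := V_inv S d i hi G hG
    have iH := V_inv S (d - 1) i hi H hH
    have bG := ih d G hG
    have bH := ih (d - 1) H hH
    have hE4 : E ρ (fun η => f η ^ 4) = E ρ (fun η => G η ^ 4) +
        6 * (1 - ρ i ^ 2) * E ρ (fun η => G η ^ 2 * H η ^ 2) +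
        4 * (-2 * ρ i * (1 - ρ i ^ 2)) * E ρ (fun η => G η * H η ^ 3) +
        ((1 - ρ i ^ 2) * (1 + 3 * ρ i ^ 2)) * E ρ (fun η => H η ^ 4) := by
      have e0 : E ρ (fun η => f η ^ 4) = E ρ (fun η => G η ^ 4) +
          E ρ (fun η => (fun t : ℝ => 4 * (t - ρ i)) ((η i : ℤ) : ℝ) * (G η ^ 3 * H η)) +
          E ρ (fun η => (fun t : ℝ => 6 * (t - ρ i) ^ 2) ((η i : ℤ) : ℝ) *
            (G η ^ 2 * H η ^ 2)) +
          E ρ (fun η => (fun t : ℝ => 4 * (t - ρ i) ^ 3) ((η i : ℤ) : ℝ) * (G η * H η ^ 3)) +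
          E ρ (fun η => (fun t : ℝ => (t - ρ i) ^ 4) ((η i : ℤ) : ℝ) * (H η ^ 4)) := by
        simp only [E, ← sum_add_distrib]
        refine sum_congr rfl fun η _ => ?_
        rw [h η]
        ring
      rw [e0, E_ind ρ i (fun t : ℝ => 4 * (t - ρ i)) (fun η => G η ^ 3 * H η)
          (fun η => by simp only [iG, iH]),
        E_ind ρ i (fun t : ℝ => 6 * (t - ρ i) ^ 2) (fun η => G η ^ 2 * H η ^ 2)
          (fun η => by simp only [iG, iH]),
        E_ind ρ i (fun t : ℝ => 4 * (t - ρ i) ^ 3) (fun η => G η * H η ^ 3)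
          (fun η => by simp only [iG, iH]),
        E_ind ρ i (fun t : ℝ => (t - ρ i) ^ 4) (fun η => H η ^ 4)
          (fun η => by simp only [iH])]
      ring
    have hE2 : E ρ (fun η => f η ^ 2) = E ρ (fun η => G η ^ 2) +
        (1 - ρ i ^ 2) * E ρ (fun η => H η ^ 2) := by
      have e0 : E ρ (fun η => f η ^ 2) = E ρ (fun η => G η ^ 2) +
          E ρ (fun η => (fun t : ℝ => 2 * (t - ρ i)) ((η i : ℤ) : ℝ) * (G η * H η)) +
          E ρ (fun η => (fun t : ℝ => (t - ρ i) ^ 2) ((η i : ℤ) : ℝ) * (H η ^ 2)) := by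
        simp only [E, ← sum_add_distrib]
        refine sum_congr rfl fun η _ => ?_
        rw [h η]
        ring
      rw [e0, E_ind ρ i (fun t : ℝ => 2 * (t - ρ i)) (fun η => G η * H η)
          (fun η => by simp only [iG, iH]),
        E_ind ρ i (fun t : ℝ => (t - ρ i) ^ 2) (fun η => H η ^ 2)
          (fun η => by simp only [iH])]
      ring
    rcases Nat.eq_zero_or_pos d with hd | hd
    · have hH0 := h0 hd
      have : ∀ η, f η = G η := fun η => by rw [h η, hH0]; simp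
      simp only [this]
      exact bG
    · rcases hρ i with hr | hr
      · have hK : (18 : ℝ) ^ d = 18 * 18 ^ (d - 1) := by
          conv_lhs => rw [show d = (d - 1) + 1 from by omega]
          rw [pow_succ]; ring
        rw [hK, hE2]
        have hs : 3 / 4 ≤ 1 - ρ i ^ 2 := by nlinarith
        refine arith (1 - ρ i ^ 2) (E ρ (fun η => G η ^ 4)) (E ρ (fun η => H η ^ 4))
          (E ρ (fun η => G η ^ 2 * H η ^ 2)) (E ρ (fun η => G η * H η ^ 3))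
          (-2 * ρ i * (1 - ρ i ^ 2)) _ _ _ _ hs ?_
          (E_nonneg ρ hρ _ fun η => by positivity)
          (E_nonneg ρ hρ _ fun η => by positivity) (by positivity)
          (E_nonneg ρ hρ _ fun η => by positivity)
          (E_nonneg ρ hρ _ fun η => by positivity)
          (E_nonneg ρ hρ _ fun η => by positivity) (cs ρ hρ G H) ?_ bH
          ((1 - ρ i ^ 2) * (1 + 3 * ρ i ^ 2)) ?_ hE4
        · have h1 : |(-2 * ρ i * (1 - ρ i ^ 2))| ≤ 1 - ρ i ^ 2 := by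
            rw [abs_le]
            constructor <;> nlinarith
          have h2 : E ρ (fun η => 4 * (-2 * ρ i * (1 - ρ i ^ 2)) * (G η * H η ^ 3)) ≤
              E ρ (fun η => (1 - ρ i ^ 2) * (2.31 * (G η ^ 2 * H η ^ 2) + 1.732 * H η ^ 4)) :=
            E_mono ρ hρ _ _ fun η => pointwise _ _ _ _ h1
          rw [E_mul, E_mul, E_add, E_mul, E_mul] at h2
          exact h2
        · rw [← hK]
          exact bG
        · nlinarith
      · rw [hE4, hE2, hr]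
        have : E ρ (fun η => G η ^ 4) ≤ 18 ^ d * E ρ (fun η => G η ^ 2) ^ 2 := bG
        norm_num
        exact this

end HCAux

theorem HC {ι : Type} [Fintype ι] [DecidableEq ι] (ρ : ι → ℝ)
    (hρ : ∀ i, (0 ≤ ρ i ∧ ρ i ≤ 1 / 2) ∨ ρ i = 1) {J : Type} (A : Finset J) (c : J → ℝ)
    (W : J → Finset ι) (d : ℕ) (hd : ∀ j ∈ A, (W j).card ≤ d) (r : ℕ) :
    ∑ η : ι → ℤˣ, wt ρ η * (∑ j ∈ A, c j * ∏ i ∈ W j, ((η i : ℤ) : ℝ)) ^ (2 ^ (r + 1)) ≤
      18 ^ (d * r * 2 ^ r) *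
        (∑ η : ι → ℤˣ, wt ρ η * (∑ j ∈ A, c j * ∏ i ∈ W j, ((η i : ℤ) : ℝ)) ^ 2) ^ (2 ^ r) := by
  set f : (ι → ℤˣ) → ℝ := fun η => ∑ j ∈ A, c j * ∏ i ∈ W j, ((η i : ℤ) : ℝ) with hf
  have hfV : f ∈ HCAux.V univ d := by
    have : f = ∑ j ∈ A, c j • HCAux.chi (W j) := by
      funext η
      simp [hf, HCAux.chi]
    rw [this]
    exact Submodule.sum_mem _ fun j hj => Submodule.smul_mem _ _
      (Submodule.subset_span ⟨W j, subset_univ _, hd j hj, rfl⟩)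
  have key : ∀ r : ℕ, HCAux.E ρ (fun η => f η ^ (2 ^ (r + 1))) ≤
      18 ^ (d * r * 2 ^ r) * HCAux.E ρ (fun η => f η ^ 2) ^ (2 ^ r) := by
    intro r
    induction r with
    | zero => simp
    | succ r ih =>
      have hb := HCAux.bonami ρ hρ univ (2 ^ r * d) (f ^ (2 ^ r)) (HCAux.V_pow univ d f hfV _)
      have e1 : HCAux.E ρ (fun η => (f ^ (2 ^ r)) η ^ 4) =
          HCAux.E ρ (fun η => f η ^ (2 ^ (r + 1 + 1))) := by
        congr 1
        funext η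
        rw [Pi.pow_apply, ← pow_mul]
        congr 1
        ring
      have e2 : HCAux.E ρ (fun η => (f ^ (2 ^ r)) η ^ 2) =
          HCAux.E ρ (fun η => f η ^ (2 ^ (r + 1))) := by
        congr 1
        funext η
        rw [Pi.pow_apply, ← pow_mul]
        congr 1
      rw [e1, e2] at hb
      have hE2 : 0 ≤ HCAux.E ρ (fun η => f η ^ 2) :=
        HCAux.E_nonneg ρ hρ _ fun η => by positivity
      have hE : 0 ≤ HCAux.E ρ (fun η => f η ^ (2 ^ (r + 1))) :=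
        HCAux.E_nonneg ρ hρ _ fun η => by rw [pow_succ, pow_mul]; positivity
      calc HCAux.E ρ (fun η => f η ^ (2 ^ (r + 1 + 1)))
          ≤ 18 ^ (2 ^ r * d) * HCAux.E ρ (fun η => f η ^ (2 ^ (r + 1))) ^ 2 := hb
        _ ≤ 18 ^ (2 ^ r * d) *
            (18 ^ (d * r * 2 ^ r) * HCAux.E ρ (fun η => f η ^ 2) ^ (2 ^ r)) ^ 2 := by
          gcongr
        _ = 18 ^ (2 ^ r * d + d * r * 2 ^ r * 2) *
            HCAux.E ρ (fun η => f η ^ 2) ^ (2 ^ (r + 1)) := by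
          rw [mul_pow, ← pow_mul, ← pow_mul, ← mul_assoc, ← pow_add, ← pow_succ]
        _ ≤ 18 ^ (d * (r + 1) * 2 ^ (r + 1)) *
            HCAux.E ρ (fun η => f η ^ 2) ^ (2 ^ (r + 1)) := by
          refine mul_le_mul_of_nonneg_right (pow_le_pow_right₀ (by norm_num) ?_) (by positivity)
          have : d * (r + 1) * 2 ^ (r + 1) = 2 * (2 ^ r * d) + d * r * 2 ^ r * 2 := by ring
          rw [this]
          omega
  exact key r

end Pool.Agent.Helper92.CB
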