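import Mathlib
import Pool.Agent.Helper92.CB.Defs
import Pool.Agent.Helper92.CB.HC

/-!
# Block CB-MOM (MP_b6b996_nt)
High moments of a polynomial in signs are bounded by the second moment in an independent model.
Proof. `ch A f * ch B f = ch (A △ B) f` (squares of signs are 1). Expand the power (`Finset.sum_pow'` or induction): the left side is
`∑_{(j_1..j_R)} ∏ c_{j_i} Lf (ch (△_i K j_i))`, `R = 2^{r+1}`; the iterated symmetric difference `W` is a subset of `U` with `|W ∩ S| ≤ ∑ |K j_i ∩ S| ≤ t`, so the term is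
at most `∏_{p ∈ W} ρ p = E_ρ ∏_i ∏_{p ∈ K j_i} η_p` (independent signs `η_p`, `p ∈ U`, with means `ρ p`; factor the sum over `η`). Hence the left side is
`≤ ∑_η wt ρ η (∑_j ∏_{p ∈ K j} η_p)^R` (index type `{p // p ∈ U}`, coefficients 1), apply HC, and expand the square:
`E_ρ (∑_j ∏ η)² = ∑_{i,j} ∏_{p ∈ K i △ K j} ρ p`.
-/

set_option autoImplicit false

namespace Pool.Agent.Helper92.CB

open Finset
open Pool.Agent.Helper92.GB (e ext F npi wt)

/-- signs on `U` extended by 1 -/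
private def sx (U : Finset ℕ) (η : {p // p ∈ U} → ℤˣ) : ℕ → ℤˣ :=
  fun p => if h : p ∈ U then η ⟨p, h⟩ else 1

private lemma ch_sx (U W : Finset ℕ) (hW : W ⊆ U) (η : {p // p ∈ U} → ℤˣ) :
    ch W (sx U η) = ∏ i : {p // p ∈ U}, if (i : ℕ) ∈ W then ((η i : ℤ) : ℝ) else 1 := by
  classical
  unfold ch
  have h1 : ∏ p ∈ W, ((sx U η p : ℤ) : ℝ) = ∏ p ∈ U, if p ∈ W then ((sx U η p : ℤ) : ℝ) else 1 := by
    rw [Finset.prod_ite_mem, Finset.inter_eq_right.mpr hW]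
  rw [h1, ← Finset.prod_coe_sort U]
  refine Finset.prod_congr rfl fun i _ => ?_
  have h2 : sx U η (i : ℕ) = η i := by
    unfold sx
    rw [dif_pos i.2]
  rw [h2]

private lemma mom_wt (U W : Finset ℕ) (hW : W ⊆ U) (ρ : ℕ → ℝ) :
    ∑ η : {p // p ∈ U} → ℤˣ, wt (fun i : {p // p ∈ U} => ρ i) η * ch W (sx U η) =
      ∏ p ∈ W, ρ p := by
  classical
  have h1 : ∀ η : {p // p ∈ U} → ℤˣ, wt (fun i : {p // p ∈ U} => ρ i) η * ch W (sx U η) =
      ∏ i : {p // p ∈ U}, ((1 + ((η i : ℤ) : ℝ) * ρ i) / 2 *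
        if (i : ℕ) ∈ W then ((η i : ℤ) : ℝ) else 1) := by
    intro η
    rw [ch_sx U W hW, wt, ← Finset.prod_mul_distrib]
  simp_rw [h1]
  have h2 := Finset.prod_univ_sum (fun _ : {p // p ∈ U} => (Finset.univ : Finset ℤˣ))
    (fun i u => ((1 + ((u : ℤ) : ℝ) * ρ i) / 2 *
        if (i : ℕ) ∈ W then ((u : ℤ) : ℝ) else 1))
  rw [Fintype.piFinset_univ] at h2
  rw [← h2]
  have h3 : ∀ i : {p // p ∈ U}, ∑ u ∈ (Finset.univ : Finset ℤˣ),
      ((1 + ((u : ℤ) : ℝ) * ρ i) / 2 * if (i : ℕ) ∈ W then ((u : ℤ) : ℝ) else 1) =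
      if (i : ℕ) ∈ W then ρ i else 1 := by
    intro i
    rw [show (Finset.univ : Finset ℤˣ) = {1, -1} from rfl, Finset.sum_pair (by decide)]
    split_ifs
    · push_cast
      ring
    · push_cast
      ring
  rw [Finset.prod_congr rfl fun i _ => h3 i, Finset.prod_coe_sort U (fun p => if p ∈ W then ρ p else 1),
    Finset.prod_ite_mem, Finset.inter_eq_right.mpr hW]

private lemma ch_mul (A B : Finset ℕ) (x : ℕ → ℤˣ) : ch A x * ch B x = ch (symmDiff A B) x := by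
  classical
  unfold ch
  rw [← Finset.prod_inter_mul_prod_sdiff A B, ← Finset.prod_inter_mul_prod_sdiff B A,
    Finset.inter_comm B A]
  have h1 : (∏ p ∈ A ∩ B, ((x p : ℤ) : ℝ)) * ∏ p ∈ A ∩ B, ((x p : ℤ) : ℝ) = 1 := by
    rw [← Finset.prod_mul_distrib]
    refine Finset.prod_eq_one fun p _ => ?_
    rcases Int.units_eq_one_or (x p) with h | h <;> rw [h] <;> norm_num
  have h2 : ∏ p ∈ symmDiff A B, ((x p : ℤ) : ℝ) =
      (∏ p ∈ A \ B, ((x p : ℤ) : ℝ)) * ∏ p ∈ B \ A, ((x p : ℤ) : ℝ) := by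
    rw [symmDiff_def, Finset.sup_eq_union]
    exact Finset.prod_union disjoint_sdiff_sdiff
  rw [h2]
  calc _ = ((∏ p ∈ A ∩ B, ((x p : ℤ) : ℝ)) * ∏ p ∈ A ∩ B, ((x p : ℤ) : ℝ)) *
        ((∏ p ∈ A \ B, ((x p : ℤ) : ℝ)) * ∏ p ∈ B \ A, ((x p : ℤ) : ℝ)) := by ring
    _ = _ := by rw [h1, one_mul]

/-- the points of `U` in an odd number of the `B i` -/
private noncomputable def od (U : Finset ℕ) {m : ℕ} (B : Fin m → Finset ℕ) : Finset ℕ :=
  open Classical in U.filter (fun p => Odd ((univ.filter fun i => p ∈ B i).card))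

private lemma prod_ch (U : Finset ℕ) {m : ℕ} (B : Fin m → Finset ℕ) (hB : ∀ i, B i ⊆ U)
    (x : ℕ → ℤˣ) : ∏ i, ch (B i) x = ch (od U B) x := by
  classical
  have h1 : ∀ i, ch (B i) x = ∏ p ∈ U, if p ∈ B i then ((x p : ℤ) : ℝ) else 1 := by
    intro i
    rw [Finset.prod_ite_mem, Finset.inter_eq_right.mpr (hB i)]
    rfl
  rw [Finset.prod_congr rfl fun i _ => h1 i, Finset.prod_comm]
  unfold ch od
  rw [Finset.prod_filter]
  refine Finset.prod_congr rfl fun p _ => ?_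
  rw [Finset.prod_ite, Finset.prod_const, Finset.prod_const_one, mul_one]
  rcases Int.units_eq_one_or (x p) with h | h
  · rw [h]
    simp
  · rw [h]
    split_ifs with h2
    · push_cast
      exact Odd.neg_one_pow h2
    · push_cast
      exact Even.neg_one_pow (Nat.not_odd_iff_even.mp h2)

private lemma od_sub (U : Finset ℕ) {m : ℕ} (B : Fin m → Finset ℕ) : od U B ⊆ U := by
  classical
  unfold od
  exact Finset.filter_subset _ _

private lemma od_card (U S : Finset ℕ) {m : ℕ} (B : Fin m → Finset ℕ) (t : ℕ)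
    (hS : ∀ i, (B i ∩ S).card * m ≤ t) : (od U B ∩ S).card ≤ t := by
  classical
  have h1 : od U B ∩ S ⊆ univ.biUnion (fun i => B i ∩ S) := by
    intro p hp
    rw [Finset.mem_inter] at hp
    obtain ⟨hp1, hp2⟩ := hp
    unfold od at hp1
    rw [Finset.mem_filter] at hp1
    have h2 := hp1.2.pos
    rw [Finset.card_pos] at h2
    obtain ⟨i, hi⟩ := h2
    rw [Finset.mem_filter] at hi
    rw [Finset.mem_biUnion]
    exact ⟨i, Finset.mem_univ _, Finset.mem_inter.mpr ⟨hi.2, hp2⟩⟩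
  have h3 := (Finset.card_le_card h1).trans Finset.card_biUnion_le
  rcases Nat.eq_zero_or_pos m with hm | hm
  · subst hm
    simp at h3
    rw [h3]
    simp
  · have h4 : (∑ i, (B i ∩ S).card) * m ≤ t * m := by
      rw [Finset.sum_mul]
      calc ∑ i, (B i ∩ S).card * m ≤ ∑ _i : Fin m, t := Finset.sum_le_sum fun i _ => hS i
        _ = t * m := by simp [mul_comm]
    exact h3.trans (Nat.le_of_mul_le_mul_right h4 hm)

private lemma pow_expand {J : Type} (A : Finset J) (c : J → ℝ) (K : J → Finset ℕ) (U : Finset ℕ)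
    (hU : ∀ j ∈ A, K j ⊆ U) (R : ℕ) (x : ℕ → ℤˣ) :
    (∑ j ∈ A, c j * ch (K j) x) ^ R =
      ∑ v ∈ Fintype.piFinset (fun _ : Fin R => A), (∏ i, c (v i)) * ch (od U fun i => K (v i)) x := by
  classical
  rw [Finset.sum_pow']
  refine Finset.sum_congr rfl fun v hv => ?_
  rw [Fintype.mem_piFinset] at hv
  rw [Finset.prod_mul_distrib, prod_ch U (fun i => K (v i)) (fun i => hU _ (hv i))]

theorem MOM (Lf : ((ℕ → ℤˣ) → ℝ) →ₗ[ℝ] ℝ) (ρ : ℕ → ℝ)
    (hρ : ∀ p, (0 ≤ ρ p ∧ ρ p ≤ 1 / 2) ∨ ρ p = 1) {J : Type} (A : Finset J) (c : J → ℝ)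
    (hc : ∀ j ∈ A, |c j| ≤ 1) (K : J → Finset ℕ) (d r : ℕ) (hd : ∀ j ∈ A, (K j).card ≤ d)
    (U S : Finset ℕ) (t : ℕ) (hU : ∀ j ∈ A, K j ⊆ U) (hS : ∀ j ∈ A, (K j ∩ S).card * 2 ^ (r + 1) ≤ t)
    (hL : ∀ W : Finset ℕ, W ⊆ U → (W ∩ S).card ≤ t → |Lf (ch W)| ≤ ∏ p ∈ W, ρ p) :
    Lf (fun f => (∑ j ∈ A, c j * ch (K j) f) ^ (2 ^ (r + 1))) ≤
      18 ^ (d * r * 2 ^ r) *
        (∑ i ∈ A, ∑ j ∈ A, ∏ p ∈ symmDiff (K i) (K j), ρ p) ^ (2 ^ r) := by
  classical
  have hρ0 : ∀ p, 0 ≤ ρ p := by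
    intro p
    rcases hρ p with h | h
    · exact h.1
    · rw [h]
      norm_num
  -- the expansion
  have e1 : (fun f => (∑ j ∈ A, c j * ch (K j) f) ^ (2 ^ (r + 1))) =
      ∑ v ∈ Fintype.piFinset (fun _ : Fin (2 ^ (r + 1)) => A),
        (∏ i, c (v i)) • ch (od U fun i => K (v i)) := by
    funext f
    rw [pow_expand A c K U hU, Finset.sum_apply]
    rfl
  rw [e1, map_sum]
  have e2 : ∑ v ∈ Fintype.piFinset (fun _ : Fin (2 ^ (r + 1)) => A),
        Lf ((∏ i, c (v i)) • ch (od U fun i => K (v i))) ≤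
      ∑ v ∈ Fintype.piFinset (fun _ : Fin (2 ^ (r + 1)) => A),
        ∏ p ∈ od U fun i => K (v i), ρ p := by
    refine Finset.sum_le_sum fun v hv => ?_
    rw [Fintype.mem_piFinset] at hv
    rw [map_smul, smul_eq_mul]
    have h1 := hL (od U fun i => K (v i)) (od_sub _ _) (od_card U S _ t fun i => hS _ (hv i))
    have h2 : |∏ i, c (v i)| ≤ 1 := by
      rw [Finset.abs_prod]
      exact Finset.prod_le_one (fun i _ => abs_nonneg _) fun i _ => hc _ (hv i)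
    calc (∏ i, c (v i)) * Lf (ch (od U fun i => K (v i)))
        ≤ |(∏ i, c (v i)) * Lf (ch (od U fun i => K (v i)))| := le_abs_self _
      _ = |∏ i, c (v i)| * |Lf (ch (od U fun i => K (v i)))| := abs_mul _ _
      _ ≤ 1 * |Lf (ch (od U fun i => K (v i)))| := by gcongr
      _ ≤ _ := by rw [one_mul]; exact h1
  refine e2.trans ?_
  -- independent model
  have e3 : ∑ v ∈ Fintype.piFinset (fun _ : Fin (2 ^ (r + 1)) => A),
        ∏ p ∈ od U fun i => K (v i), ρ p =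
      ∑ η : {p // p ∈ U} → ℤˣ, wt (fun i : {p // p ∈ U} => ρ i) η *
        (∑ j ∈ A, ch (K j) (sx U η)) ^ (2 ^ (r + 1)) := by
    have h1 : ∀ η : {p // p ∈ U} → ℤˣ, (∑ j ∈ A, ch (K j) (sx U η)) ^ (2 ^ (r + 1)) =
        ∑ v ∈ Fintype.piFinset (fun _ : Fin (2 ^ (r + 1)) => A),
          ch (od U fun i => K (v i)) (sx U η) := by
      intro η
      have h2 := pow_expand A (fun _ => 1) K U hU (2 ^ (r + 1)) (sx U η)
      simpa using h2
    simp_rw [h1, Finset.mul_sum]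
    rw [Finset.sum_comm]
    refine Finset.sum_congr rfl fun v _ => ?_
    rw [mom_wt U _ (od_sub _ _)]
  rw [e3]
  have hW : ∀ (j : J), j ∈ A → ∀ η : {p // p ∈ U} → ℤˣ, ch (K j) (sx U η) =
      ∏ i ∈ univ.filter (fun i : {p // p ∈ U} => (i : ℕ) ∈ K j), ((η i : ℤ) : ℝ) := by
    intro j hj η
    rw [ch_sx U (K j) (hU j hj), Finset.prod_filter]
  have hcard : ∀ j ∈ A, (univ.filter (fun i : {p // p ∈ U} => (i : ℕ) ∈ K j)).card ≤ d := by
    intro j hj
    refine le_trans ?_ (hd j hj)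
    refine Finset.card_le_card_of_injOn (fun i => (i : ℕ)) ?_ ?_
    · intro i hi
      simpa using hi
    · intro a _ b _ hab
      exact Subtype.ext hab
  have h5 := HC (fun i : {p // p ∈ U} => ρ i) (fun i => hρ i) A (fun _ => 1)
    (fun j => univ.filter (fun i : {p // p ∈ U} => (i : ℕ) ∈ K j)) d hcard r
  have e4 : ∀ η : {p // p ∈ U} → ℤˣ, ∑ j ∈ A, (1 : ℝ) *
      ∏ i ∈ univ.filter (fun i : {p // p ∈ U} => (i : ℕ) ∈ K j), ((η i : ℤ) : ℝ) =
      ∑ j ∈ A, ch (K j) (sx U η) := by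
    intro η
    refine Finset.sum_congr rfl fun j hj => ?_
    rw [hW j hj η, one_mul]
  simp_rw [e4] at h5
  have e5 : ∑ η : {p // p ∈ U} → ℤˣ, wt (fun i : {p // p ∈ U} => ρ i) η *
      (∑ j ∈ A, ch (K j) (sx U η)) ^ 2 =
      ∑ i ∈ A, ∑ j ∈ A, ∏ p ∈ symmDiff (K i) (K j), ρ p := by
    have h1 : ∀ η : {p // p ∈ U} → ℤˣ, (∑ j ∈ A, ch (K j) (sx U η)) ^ 2 =
        ∑ i ∈ A, ∑ j ∈ A, ch (symmDiff (K i) (K j)) (sx U η) := by
      intro η
      rw [sq, Finset.sum_mul_sum]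
      refine Finset.sum_congr rfl fun i _ => Finset.sum_congr rfl fun j _ => ?_
      rw [ch_mul]
    simp_rw [h1, Finset.mul_sum]
    rw [Finset.sum_comm]
    refine Finset.sum_congr rfl fun i hi => ?_
    rw [Finset.sum_comm]
    refine Finset.sum_congr rfl fun j hj => ?_
    refine mom_wt U _ ?_ ρ
    intro p hp
    rw [Finset.mem_symmDiff] at hp
    rcases hp with hp | hp
    · exact hU i hi hp.1
    · exact hU j hj hp.1
  rw [e5] at h5
  exact h5

end Pool.Agent.Helper92.CB
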