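import Mathlib
import Pool.Agent.Helper92.CB.Defs

/-!
# Block CB-SM (MP_b6b996_nt)
The second moment in the independent model (pure counting).
Notation: `κ(n) = kap h N n`, `Δ-primes` = primes dividing some `|h i - h j|`, `i ≠ j` (each difference is between 1 and N, so has `≤ τ` prime factors).
For `n` in `sqf h N` a prime `p ∣ n + h i` which is not a Δ-prime divides no other `n + h j`, so it is in `κ(n)`. `|κ(n)| ≤ k τ`.
Proof. The term of `(n, n')` is 0 unless `κ(n) △ κ(n') ⊆ S ∪ Low`. Put `s_i` = product of the `p ∈ S \ κ(n')`, `p ∣ n + h i`, `p` not a Δ-prime, `s'_i` the same with `n`, `n'` exchanged;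
all these primes lie in `(κ(n) △ κ(n')) ∩ S` and are distinct for distinct `i`. Let `v = min_i ω(s_i)`, `v' = min_i ω(s'_i)`; by symmetry assume `v' ≤ v` (factor 2), `v' = ω(s'_j)`.
The term is `≤ (a/√z)^{v+v'}` (if `k ≥ 2` two indices give `2v + 2v'` primes `p` with `ρ p ≤ (a/√z)^{1/2}`, the other factors are `≤ 1`; if `S = ∅` then `v = v' = 0`).
Number of `n` for given `v`: some product `s` of `v` distinct primes of `S` divides `n + h 0 ≤ 2N`, so at most `∑_s (N/s + 1) ≤ ∑_s 3N/s ≤ 3N C(|S|,v)/(3z)^v ≤ 3N/v!` (`|S| ≤ z`).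
Number of `n'` for given `n`, `v'`: `n' + h j = u s'_j`, `j` in `k` ways, `s'_j` in `C(|S|, v') ≤ z^{v'}/v'!` ways, and `u` is squarefree with all prime factors in
`κ(n) ∪ Low ∪ {Δ-primes}` (a prime `p ∣ u` which is no Δ-prime is in `κ(n')`; if not in `κ(n)` it is in `S ∪ Low`, and not in `S`, else it divides `s'_j`): `≤ 2^(|Low| + (k + k²) τ)` ways.
Total `≤ 2 ∑_{v' ≤ v} (3N/v!) k 2^(..) (z^{v'}/v'!) (a/√z)^{v+v'} ≤ 6 k N 2^(..) ∑_{v,v'} (a^v/v!) (a^{v'}/v'!) z^{(v'-v)/2}[v' ≤ v] ≤ 6 k N 2^(..) e^{2a}`.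
-/

set_option autoImplicit false

namespace Pool.Agent.Helper92.CB

open Finset
open Pool.Agent.Helper92.GB (e ext F npi wt)

/-- The primes dividing a difference of two shifts. -/
private def smD {k : ℕ} (h : Fin k → ℕ) : Finset ℕ :=
  ((univ : Finset (Fin k × Fin k)).filter fun q => q.1 ≠ q.2).biUnion
    fun q => ((h q.1 - h q.2) + (h q.2 - h q.1)).primeFactors

private def smP {k : ℕ} (h : Fin k → ℕ) (N : ℕ) (S : Finset ℕ) (n n' : ℕ) (i : Fin k) : Finset ℕ :=
  S.filter fun p => p ∉ kap h N n' ∧ p ∉ smD h ∧ p ∣ n + h i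

private def smV {k : ℕ} (h : Fin k → ℕ) (N : ℕ) (S : Finset ℕ) (hk : (univ : Finset (Fin k)).Nonempty)
    (n n' : ℕ) : ℕ := (univ : Finset (Fin k)).inf' hk fun i => (smP h N S n n' i).card

private theorem smD_of_dvd {k : ℕ} {h : Fin k → ℕ} (hinj : Function.Injective h) {n p : ℕ}
    (hp : p.Prime) {i j : Fin k} (hij : i ≠ j) (hi : p ∣ n + h i) (hj : p ∣ n + h j) :
    p ∈ smD h := by
  rw [smD, Finset.mem_biUnion]
  refine ⟨(i, j), by simp [hij], ?_⟩
  have hne : h i ≠ h j := fun hh => hij (hinj hh)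
  rw [Nat.mem_primeFactors]
  refine ⟨hp, ?_, by simp only; omega⟩
  simp only
  rcases le_total (h i) (h j) with hh | hh
  · have h1 : (h i - h j) + (h j - h i) = (n + h j) - (n + h i) := by omega
    rw [h1]
    exact Nat.dvd_sub hj hi
  · have h1 : (h i - h j) + (h j - h i) = (n + h i) - (n + h j) := by omega
    rw [h1]
    exact Nat.dvd_sub hi hj

private theorem smD_card {k : ℕ} {h : Fin k → ℕ} (hinj : Function.Injective h) {N τ : ℕ}
    (hle : ∀ i, h i ≤ N) (hτ : ∀ n : ℕ, 1 ≤ n → n ≤ 2 * N → n.primeFactors.card ≤ τ) :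
    (smD h).card ≤ k ^ 2 * τ := by
  have h1 : (smD h).card ≤
      (((univ : Finset (Fin k × Fin k)).filter fun q => q.1 ≠ q.2)).card * τ := by
    rw [smD]
    apply Finset.card_biUnion_le_card_mul
    intro q hq
    rw [Finset.mem_filter] at hq
    have hne : h q.1 ≠ h q.2 := fun hh => hq.2 (hinj hh)
    have := hle q.1
    have := hle q.2
    apply hτ <;> omega
  refine h1.trans (Nat.mul_le_mul_right _ ?_)
  refine (Finset.card_filter_le _ _).trans ?_
  simp [sq]

private theorem sm_mem_kap {k : ℕ} {h : Fin k → ℕ} (hinj : Function.Injective h) {N n p : ℕ}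
    (hle : ∀ i, h i ≤ N) (hn1 : 1 ≤ n) (hnN : n ≤ N) (hp : p.Prime) {i : Fin k}
    (hi : p ∣ n + h i) (hpD : p ∉ smD h) : p ∈ kap h N n := by
  have h1 : (univ.filter fun j => p ∣ n + h j) = {i} := by
    ext j
    rw [Finset.mem_filter, Finset.mem_singleton]
    constructor
    · rintro ⟨-, hj⟩
      by_contra hji
      exact hpD (smD_of_dvd hinj hp hji hj hi)
    · rintro rfl
      exact ⟨Finset.mem_univ _, hi⟩
  rw [kap, Finset.mem_filter, Finset.mem_Icc, h1, Finset.card_singleton]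
  have h2 : p ≤ n + h i := Nat.le_of_dvd (by omega) hi
  have h3 := hle i
  exact ⟨⟨hp.one_lt.le, by omega⟩, hp, odd_one⟩

private theorem sm_kap_exists {k : ℕ} {h : Fin k → ℕ} {N n p : ℕ} (hp : p ∈ kap h N n) :
    p.Prime ∧ ∃ i, p ∣ n + h i := by
  rw [kap, Finset.mem_filter] at hp
  refine ⟨hp.2.1, ?_⟩
  have h1 : ((univ.filter fun i => p ∣ n + h i)).Nonempty := by
    rw [← Finset.card_pos]
    exact hp.2.2.pos
  obtain ⟨i, hi⟩ := h1
  rw [Finset.mem_filter] at hi
  exact ⟨i, hi.2⟩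

private theorem sm_kap_card {k : ℕ} {h : Fin k → ℕ} {N n τ : ℕ}
    (hle : ∀ i, h i ≤ N) (hn1 : 1 ≤ n) (hnN : n ≤ N)
    (hτ : ∀ n : ℕ, 1 ≤ n → n ≤ 2 * N → n.primeFactors.card ≤ τ) :
    (kap h N n).card ≤ k * τ := by
  have hsub : kap h N n ⊆ (univ : Finset (Fin k)).biUnion fun i => (n + h i).primeFactors := by
    intro p hp
    obtain ⟨hpp, i, hi⟩ := sm_kap_exists hp
    rw [Finset.mem_biUnion]
    refine ⟨i, Finset.mem_univ _, ?_⟩
    rw [Nat.mem_primeFactors]
    exact ⟨hpp, hi, by omega⟩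
  refine (Finset.card_le_card hsub).trans ?_
  have := Finset.card_biUnion_le_card_mul (univ : Finset (Fin k)) (fun i => (n + h i).primeFactors) τ
    (fun i _ => hτ _ (by omega) (by have := hle i; omega))
  simpa using this

/-- the primes in the sets `smP` lie in the difference of the two `kap` -/
private theorem smP_sub {k : ℕ} {h : Fin k → ℕ} (hinj : Function.Injective h) {N z : ℕ}
    (hle : ∀ i, h i ≤ N) {S : Finset ℕ} (hS : ∀ p ∈ S, p.Prime ∧ 3 * z < p ∧ p ≤ 4 * z)
    {n n' : ℕ} (hn1 : 1 ≤ n) (hnN : n ≤ N) (i : Fin k) :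
    smP h N S n n' i ⊆ kap h N n \ kap h N n' := by
  intro p hp
  rw [smP, Finset.mem_filter] at hp
  rw [Finset.mem_sdiff]
  exact ⟨sm_mem_kap hinj hle hn1 hnN (hS p hp.1).1 hp.2.2.2 hp.2.2.1, hp.2.1⟩

private theorem smP_disj {k : ℕ} {h : Fin k → ℕ} (hinj : Function.Injective h) {N z : ℕ}
    {S : Finset ℕ} (hS : ∀ p ∈ S, p.Prime ∧ 3 * z < p ∧ p ≤ 4 * z)
    (n n' : ℕ) {i j : Fin k} (hij : i ≠ j) :
    Disjoint (smP h N S n n' i) (smP h N S n n' j) := by
  rw [Finset.disjoint_left]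
  intro p hi hj
  rw [smP, Finset.mem_filter] at hi hj
  exact hi.2.2.1 (smD_of_dvd hinj (hS p hi.1).1 hij hi.2.2.2 hj.2.2.2)

/-- a set of at least `2 v` primes -/
private theorem smA_card {k : ℕ} {h : Fin k → ℕ} (hinj : Function.Injective h) {N z : ℕ}
    {S : Finset ℕ} (hS : ∀ p ∈ S, p.Prime ∧ 3 * z < p ∧ p ≤ 4 * z)
    (hcase : 2 ≤ k ∨ S = ∅) (hk : (univ : Finset (Fin k)).Nonempty) (n n' : ℕ) :
    2 * smV h N S hk n n' ≤ ((univ : Finset (Fin k)).biUnion fun i => smP h N S n n' i).card := by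
  rw [Finset.card_biUnion (fun i _ j _ hij => smP_disj hinj hS n n' hij)]
  have h1 : ∀ i ∈ (univ : Finset (Fin k)), smV h N S hk n n' ≤ (smP h N S n n' i).card := by
    intro i hi
    exact Finset.inf'_le _ hi
  rcases hcase with h2 | h2
  · have h3 := Finset.card_nsmul_le_sum (univ : Finset (Fin k)) _ _ h1
    rw [Finset.card_univ, Fintype.card_fin, smul_eq_mul] at h3
    exact (Nat.mul_le_mul_right _ h2).trans h3
  · have h3 : smV h N S hk n n' = 0 := by
      obtain ⟨i, hi⟩ := hk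
      have h4 := h1 i hi
      have h5 : smP h N S n n' i = ∅ := by
        rw [smP, h2, Finset.filter_empty]
      rw [h5, Finset.card_empty] at h4
      omega
    rw [h3]
    omega

/-- the size of one term -/
private theorem sm_term {k : ℕ} {h : Fin k → ℕ} (hinj : Function.Injective h) {N z : ℕ}
    (hle : ∀ i, h i ≤ N) {S Low : Finset ℕ} (hS : ∀ p ∈ S, p.Prime ∧ 3 * z < p ∧ p ≤ 4 * z)
    (hcase : 2 ≤ k ∨ S = ∅) (hk : (univ : Finset (Fin k)).Nonempty) {ρ : ℕ → ℝ} {c : ℝ} (hc : 0 ≤ c)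
    (hρS : ∀ p ∈ S, 0 ≤ ρ p ∧ ρ p ≤ 1 ∧ ρ p ^ 2 ≤ c)
    (hρL : ∀ p ∈ Low, 0 ≤ ρ p ∧ ρ p ≤ 1) {n n' : ℕ} (hn1 : 1 ≤ n) (hnN : n ≤ N)
    (hn1' : 1 ≤ n') (hnN' : n' ≤ N)
    (hsub : symmDiff (kap h N n) (kap h N n') ⊆ S ∪ Low) :
    ∏ p ∈ symmDiff (kap h N n) (kap h N n'), ρ p ≤
      c ^ (smV h N S hk n n' + smV h N S hk n' n) := by
  set v := smV h N S hk n n'
  set v' := smV h N S hk n' n
  set A := (univ : Finset (Fin k)).biUnion fun i => smP h N S n n' i
  set A' := (univ : Finset (Fin k)).biUnion fun i => smP h N S n' n i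
  have hA : A ⊆ kap h N n \ kap h N n' := by
    rw [Finset.biUnion_subset]
    exact fun i _ => smP_sub hinj hle hS hn1 hnN i
  have hA' : A' ⊆ kap h N n' \ kap h N n := by
    rw [Finset.biUnion_subset]
    exact fun i _ => smP_sub hinj hle hS hn1' hnN' i
  have hAS : A ⊆ S := by
    rw [Finset.biUnion_subset]
    exact fun i _ => Finset.filter_subset _ _
  have hAS' : A' ⊆ S := by
    rw [Finset.biUnion_subset]
    exact fun i _ => Finset.filter_subset _ _
  have hdisj : Disjoint A A' := by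
    rw [Finset.disjoint_left]
    intro p hp hp'
    exact (Finset.mem_sdiff.mp (hA hp)).2 (Finset.mem_sdiff.mp (hA' hp')).1
  have hcard : 2 * (v + v') ≤ (A ∪ A').card := by
    rw [Finset.card_union_of_disjoint hdisj]
    have h1 : 2 * v ≤ A.card := smA_card hinj hS hcase hk n n'
    have h2 : 2 * v' ≤ A'.card := smA_card hinj hS hcase hk n' n
    omega
  obtain ⟨R, hRsub, hRcard⟩ := Finset.exists_subset_card_eq hcard
  have hRS : R ⊆ S := hRsub.trans (Finset.union_subset hAS hAS')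
  have hRX : R ⊆ symmDiff (kap h N n) (kap h N n') := by
    refine hRsub.trans (Finset.union_subset ?_ ?_)
    · intro p hp
      rw [Finset.mem_symmDiff]
      exact Or.inl (Finset.mem_sdiff.mp (hA hp))
    · intro p hp
      rw [Finset.mem_symmDiff]
      exact Or.inr (Finset.mem_sdiff.mp (hA' hp))
  have h01 : ∀ p ∈ symmDiff (kap h N n) (kap h N n'), 0 ≤ ρ p ∧ ρ p ≤ 1 := by
    intro p hp
    rcases Finset.mem_union.mp (hsub hp) with h1 | h1
    · exact ⟨(hρS p h1).1, (hρS p h1).2.1⟩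
    · exact hρL p h1
  have h2 : ∏ p ∈ symmDiff (kap h N n) (kap h N n'), ρ p ≤ ∏ p ∈ R, ρ p := by
    rw [← Finset.prod_sdiff hRX]
    have h3 : ∏ p ∈ symmDiff (kap h N n) (kap h N n') \ R, ρ p ≤ 1 := by
      apply Finset.prod_le_one
      · intro p hp
        exact (h01 p (Finset.sdiff_subset hp)).1
      · intro p hp
        exact (h01 p (Finset.sdiff_subset hp)).2
    have h4 : 0 ≤ ∏ p ∈ R, ρ p := Finset.prod_nonneg (fun p hp => (h01 p (hRX hp)).1)
    calc _ ≤ 1 * ∏ p ∈ R, ρ p := mul_le_mul_of_nonneg_right h3 h4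
      _ = _ := one_mul _
  refine h2.trans ?_
  have h4 : 0 ≤ ∏ p ∈ R, ρ p := Finset.prod_nonneg (fun p hp => (h01 p (hRX hp)).1)
  have h5 : (∏ p ∈ R, ρ p) ^ 2 ≤ (c ^ (v + v')) ^ 2 := by
    rw [← Finset.prod_pow, ← pow_mul, mul_comm (v + v') 2, ← hRcard]
    calc ∏ p ∈ R, ρ p ^ 2 ≤ ∏ _p ∈ R, c :=
          Finset.prod_le_prod (fun p _ => sq_nonneg _) (fun p hp => (hρS p (hRS hp)).2.2)
      _ = c ^ R.card := Finset.prod_const c
  exact (sq_le_sq₀ h4 (by positivity)).mp h5

private theorem sm_mult {N s h0 : ℕ} (hs : 1 ≤ s) (hh : h0 ≤ N) :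
    (((Icc 1 N).filter fun n => s ∣ n + h0).card : ℝ) ≤ 3 * N / s := by
  have hs0 : (0 : ℝ) < s := by exact_mod_cast hs
  rcases ((Icc 1 N).filter fun n => s ∣ n + h0).eq_empty_or_nonempty with he | hne
  · rw [he, Finset.card_empty]
    push_cast
    positivity
  · have hs2 : s ≤ 2 * N := by
      obtain ⟨n, hn⟩ := hne
      rw [Finset.mem_filter, Finset.mem_Icc] at hn
      have := Nat.le_of_dvd (by omega) hn.2
      omega
    have h1 : ((Icc 1 N).filter fun n => s ∣ n + h0).card ≤ (N + h0) / s - h0 / s := by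
      rw [← Nat.card_Ioc]
      apply Finset.card_le_card_of_injOn (fun n => (n + h0) / s)
      · intro n hn
        rw [Finset.mem_coe, Finset.mem_filter, Finset.mem_Icc] at hn
        rw [Finset.mem_coe, Finset.mem_Ioc]
        obtain ⟨⟨hn1, hnN⟩, q, hq⟩ := hn
        constructor
        · simp only
          rw [hq, Nat.mul_div_cancel_left _ hs, Nat.div_lt_iff_lt_mul hs]
          rw [mul_comm q s, ← hq]
          omega
        · exact Nat.div_le_div_right (by omega)
      · intro n hn m hm hnm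
        rw [Finset.mem_coe, Finset.mem_filter, Finset.mem_Icc] at hn hm
        obtain ⟨⟨hn1, hnN⟩, q, hq⟩ := hn
        obtain ⟨⟨hm1, hmN⟩, r, hr⟩ := hm
        simp only at hnm
        rw [hq, hr, Nat.mul_div_cancel_left _ hs, Nat.mul_div_cancel_left _ hs] at hnm
        rw [hnm, ← hr] at hq
        omega
    have h2 : h0 / s ≤ (N + h0) / s := Nat.div_le_div_right (by omega)
    have h3 : (((N + h0) / s - h0 / s : ℕ) : ℝ) ≤ N / s + 1 := by
      rw [Nat.cast_sub h2]
      have h4 : (((N + h0) / s : ℕ) : ℝ) ≤ ((N + h0 : ℕ) : ℝ) / s := Nat.cast_div_le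
      have h5 : (h0 : ℝ) ≤ s * (((h0 / s : ℕ) : ℝ) + 1) := by
        have := Nat.lt_mul_div_succ h0 hs
        exact_mod_cast this.le
      have h6 : (h0 : ℝ) / s ≤ ((h0 / s : ℕ) : ℝ) + 1 := by
        rw [div_le_iff₀ hs0]
        linarith
      push_cast at h4
      rw [add_div] at h4
      linarith
    have h7 : (1 : ℝ) ≤ 2 * N / s := by
      rw [le_div_iff₀ hs0, one_mul]
      exact_mod_cast hs2
    calc (((Icc 1 N).filter fun n => s ∣ n + h0).card : ℝ)
        ≤ (((N + h0) / s - h0 / s : ℕ) : ℝ) := by exact_mod_cast h1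
      _ ≤ N / s + 1 := h3
      _ ≤ N / s + 2 * N / s := by linarith
      _ = 3 * N / s := by ring

private theorem sm_Scard {z : ℕ} {S : Finset ℕ} (hS : ∀ p ∈ S, p.Prime ∧ 3 * z < p ∧ p ≤ 4 * z) :
    S.card ≤ z := by
  have h1 : S ⊆ Finset.Ioc (3 * z) (4 * z) := by
    intro p hp
    rw [Finset.mem_Ioc]
    exact (hS p hp).2
  have h2 := Finset.card_le_card h1
  rw [Nat.card_Ioc] at h2
  omega

private theorem sm_choose {z j : ℕ} {S : Finset ℕ}
    (hS : ∀ p ∈ S, p.Prime ∧ 3 * z < p ∧ p ≤ 4 * z) :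
    ((S.powersetCard j).card : ℝ) ≤ (z : ℝ) ^ j / j.factorial := by
  rw [Finset.card_powersetCard]
  refine (Nat.choose_le_pow_div (α := ℝ) j S.card).trans ?_
  have h1 : (S.card : ℝ) ≤ z := by exact_mod_cast sm_Scard hS
  gcongr

private theorem sm_countN {N z h0 v : ℕ} (hz : 1 ≤ z) (hh : h0 ≤ N) {S : Finset ℕ}
    (hS : ∀ p ∈ S, p.Prime ∧ 3 * z < p ∧ p ≤ 4 * z) :
    (((Icc 1 N).filter fun n => ∃ V ∈ S.powersetCard v, (∏ p ∈ V, p) ∣ n + h0).card : ℝ) ≤
      3 * N / v.factorial := by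
  have hz0 : (0 : ℝ) < z := by exact_mod_cast hz
  have hsub : ((Icc 1 N).filter fun n => ∃ V ∈ S.powersetCard v, (∏ p ∈ V, p) ∣ n + h0) ⊆
      (S.powersetCard v).biUnion fun V => (Icc 1 N).filter fun n => (∏ p ∈ V, p) ∣ n + h0 := by
    intro n hn
    rw [Finset.mem_filter] at hn
    obtain ⟨hn1, V, hV, hdvd⟩ := hn
    rw [Finset.mem_biUnion]
    exact ⟨V, hV, Finset.mem_filter.mpr ⟨hn1, hdvd⟩⟩
  have h1 : ∀ V ∈ S.powersetCard v,
      (((Icc 1 N).filter fun n => (∏ p ∈ V, p) ∣ n + h0).card : ℝ) ≤ 3 * N / (3 * z) ^ v := by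
    intro V hV
    rw [Finset.mem_powersetCard] at hV
    have hpos : 1 ≤ ∏ p ∈ V, p := Finset.prod_pos (fun p hp => (hS p (hV.1 hp)).1.pos)
    refine (sm_mult hpos hh).trans ?_
    apply div_le_div_of_nonneg_left (by positivity) (by positivity)
    have h2 : ∏ _p ∈ V, (3 * z) ≤ ∏ p ∈ V, p :=
      Finset.prod_le_prod' (fun p hp => (hS p (hV.1 hp)).2.1.le)
    rw [Finset.prod_const, hV.2] at h2
    exact_mod_cast h2
  calc (((Icc 1 N).filter fun n => ∃ V ∈ S.powersetCard v, (∏ p ∈ V, p) ∣ n + h0).card : ℝ)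
      ≤ (((S.powersetCard v).biUnion fun V =>
          (Icc 1 N).filter fun n => (∏ p ∈ V, p) ∣ n + h0).card : ℝ) := by
        exact_mod_cast Finset.card_le_card hsub
    _ ≤ ((∑ V ∈ S.powersetCard v, ((Icc 1 N).filter fun n => (∏ p ∈ V, p) ∣ n + h0).card : ℕ) : ℝ) := by
        exact_mod_cast Finset.card_biUnion_le
    _ = ∑ V ∈ S.powersetCard v, (((Icc 1 N).filter fun n => (∏ p ∈ V, p) ∣ n + h0).card : ℝ) := by
        push_cast
        rfl
    _ ≤ ∑ _V ∈ S.powersetCard v, 3 * (N : ℝ) / (3 * z) ^ v := Finset.sum_le_sum h1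
    _ = (S.powersetCard v).card * (3 * (N : ℝ) / (3 * z) ^ v) := by
        rw [Finset.sum_const, nsmul_eq_mul]
    _ ≤ ((z : ℝ) ^ v / v.factorial) * (3 * (N : ℝ) / (3 * z) ^ v) :=
        mul_le_mul_of_nonneg_right (sm_choose hS) (by positivity)
    _ = (3 * N / v.factorial) * (1 / 3 ^ v) := by
        rw [mul_pow]
        field_simp
    _ ≤ (3 * N / v.factorial) * 1 := by
        apply mul_le_mul_of_nonneg_left _ (by positivity)
        rw [div_le_one (by positivity)]
        exact one_le_pow₀ (by norm_num)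
    _ = 3 * N / v.factorial := mul_one _

private theorem sm_countG {k : ℕ} {h : Fin k → ℕ} (hinj : Function.Injective h) {N z τ : ℕ}
    (hle : ∀ i, h i ≤ N) {S Low : Finset ℕ} (hS : ∀ p ∈ S, p.Prime ∧ 3 * z < p ∧ p ≤ 4 * z)
    (hk : (univ : Finset (Fin k)).Nonempty)
    (hτ : ∀ n : ℕ, 1 ≤ n → n ≤ 2 * N → n.primeFactors.card ≤ τ)
    {n : ℕ} (hn1 : 1 ≤ n) (hnN : n ≤ N) (j : ℕ) :
    (((sqf h N).filter fun n' => symmDiff (kap h N n) (kap h N n') ⊆ S ∪ Low ∧
      smV h N S hk n' n = j).card : ℝ) ≤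
      k * ((z : ℝ) ^ j / j.factorial) * 2 ^ (Low.card + (k + k ^ 2) * τ) := by
  classical
  set W : Finset ℕ := kap h N n ∪ Low ∪ smD h with hW
  have hWcard : W.card ≤ Low.card + (k + k ^ 2) * τ := by
    have h1 : W.card ≤ (kap h N n).card + Low.card + (smD h).card :=
      (Finset.card_union_le _ _).trans (Nat.add_le_add_right (Finset.card_union_le _ _) _)
    have h2 := sm_kap_card hle hn1 hnN hτ
    have h3 := smD_card hinj hle hτ
    have h4 : (k + k ^ 2) * τ = k * τ + k ^ 2 * τ := by ring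
    omega
  have hsub : ((sqf h N).filter fun n' => symmDiff (kap h N n) (kap h N n') ⊆ S ∪ Low ∧
      smV h N S hk n' n = j) ⊆
      ((univ : Finset (Fin k)) ×ˢ ((S.powersetCard j) ×ˢ W.powerset)).image
        fun x => (∏ p ∈ x.2.1, p) * (∏ p ∈ x.2.2, p) - h x.1 := by
    intro n' hn'
    rw [Finset.mem_filter, sqf, Finset.mem_filter, Finset.mem_Icc] at hn'
    obtain ⟨⟨⟨hn1', hnN'⟩, hsq⟩, hsd, hv⟩ := hn'
    obtain ⟨i, -, hi⟩ := Finset.exists_mem_eq_inf' hk (fun i => (smP h N S n' n i).card)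
    rw [Finset.mem_image]
    refine ⟨(i, (smP h N S n' n i, (n' + h i).primeFactors \ smP h N S n' n i)), ?_, ?_⟩
    · rw [Finset.mem_product, Finset.mem_product, Finset.mem_powersetCard, Finset.mem_powerset]
      refine ⟨Finset.mem_univ _, ⟨Finset.filter_subset _ _, ?_⟩, ?_⟩
      · rw [← hv]
        exact hi.symm
      · intro p hp
        rw [Finset.mem_sdiff, Nat.mem_primeFactors] at hp
        obtain ⟨⟨hpp, hpd, -⟩, hpn⟩ := hp
        rw [hW, Finset.mem_union, Finset.mem_union]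
        by_cases hD : p ∈ smD h
        · exact Or.inr hD
        · left
          by_cases hK : p ∈ kap h N n
          · exact Or.inl hK
          · right
            have hK' : p ∈ kap h N n' := sm_mem_kap hinj hle hn1' hnN' hpp hpd hD
            have h1 : p ∈ S ∪ Low := by
              apply hsd
              rw [Finset.mem_symmDiff]
              exact Or.inr ⟨hK', hK⟩
            rcases Finset.mem_union.mp h1 with h2 | h2
            · exact absurd (Finset.mem_filter.mpr ⟨h2, hK, hD, hpd⟩) hpn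
            · exact h2
    · have hsubP : smP h N S n' n i ⊆ (n' + h i).primeFactors := by
        intro p hp
        rw [smP, Finset.mem_filter] at hp
        rw [Nat.mem_primeFactors]
        exact ⟨(hS p hp.1).1, hp.2.2.2, by omega⟩
      simp only
      rw [mul_comm, Finset.prod_sdiff hsubP, Nat.prod_primeFactors_of_squarefree (hsq i)]
      omega
  have hcard : ((sqf h N).filter fun n' => symmDiff (kap h N n) (kap h N n') ⊆ S ∪ Low ∧
      smV h N S hk n' n = j).card ≤ k * ((S.powersetCard j).card * 2 ^ W.card) := by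
    refine (Finset.card_le_card hsub).trans (Finset.card_image_le.trans ?_)
    rw [Finset.card_product, Finset.card_product, Finset.card_powerset, Finset.card_univ,
      Fintype.card_fin]
  calc (((sqf h N).filter fun n' => symmDiff (kap h N n) (kap h N n') ⊆ S ∪ Low ∧
      smV h N S hk n' n = j).card : ℝ) ≤ ((k * ((S.powersetCard j).card * 2 ^ W.card) : ℕ) : ℝ) := by
        exact_mod_cast hcard
    _ = k * ((S.powersetCard j).card : ℝ) * 2 ^ W.card := by
        push_cast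
        ring
    _ ≤ k * ((z : ℝ) ^ j / j.factorial) * 2 ^ (Low.card + (k + k ^ 2) * τ) := by
        have h1 := sm_choose (j := j) hS
        have h2 : (2 : ℝ) ^ W.card ≤ 2 ^ (Low.card + (k + k ^ 2) * τ) :=
          pow_le_pow_right₀ (by norm_num) hWcard
        gcongr

theorem SM {k : ℕ} (hk : 1 ≤ k) (N z : ℕ) (hN : 1 ≤ N) (hz : 1 ≤ z) (h : Fin k → ℕ)
    (hinj : Function.Injective h) (hle : ∀ i, h i ≤ N) (S Low : Finset ℕ)
    (hS : ∀ p ∈ S, p.Prime ∧ 3 * z < p ∧ p ≤ 4 * z) (hcase : 2 ≤ k ∨ S = ∅) (ρ : ℕ → ℝ) (a : ℝ)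
    (ha : 0 ≤ a) (hρS : ∀ p ∈ S, 0 ≤ ρ p ∧ ρ p ≤ 1 ∧ ρ p ^ 2 ≤ a / Real.sqrt z)
    (hρL : ∀ p ∈ Low, 0 ≤ ρ p ∧ ρ p ≤ 1) (hρ0 : ∀ p, p ∉ S → p ∉ Low → ρ p = 0) (τ : ℕ)
    (hτ : ∀ n : ℕ, 1 ≤ n → n ≤ 2 * N → n.primeFactors.card ≤ τ) :
    ∑ n ∈ sqf h N, ∑ n' ∈ sqf h N, ∏ p ∈ symmDiff (kap h N n) (kap h N n'), ρ p ≤
      6 * k * N * 2 ^ (Low.card + (k + k ^ 2) * τ) * Real.exp (2 * a) := by
  classical
  have hku : (univ : Finset (Fin k)).Nonempty := ⟨⟨0, hk⟩, Finset.mem_univ _⟩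
  have hz1 : (1 : ℝ) ≤ z := by exact_mod_cast hz
  have hsz1 : (1 : ℝ) ≤ Real.sqrt z := Real.one_le_sqrt.mpr hz1
  have hsz0 : (0 : ℝ) < Real.sqrt z := by linarith
  set c : ℝ := a / Real.sqrt z with hc
  have hc0 : 0 ≤ c := div_nonneg ha hsz0.le
  set E : ℕ := Low.card + (k + k ^ 2) * τ with hE
  set v : ℕ → ℕ → ℕ := fun n n' => smV h N S hku n n' with hv
  have hmem : ∀ n ∈ sqf h N, 1 ≤ n ∧ n ≤ N := by
    intro n hn
    rw [sqf, Finset.mem_filter, Finset.mem_Icc] at hn
    exact hn.1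
  set NN : ℕ → Finset ℕ := fun i => (Icc 1 N).filter fun n =>
    ∃ V ∈ S.powersetCard i, (∏ p ∈ V, p) ∣ n + h ⟨0, hk⟩ with hNN
  set Gd : ℕ → ℕ → Finset ℕ := fun n j => (sqf h N).filter fun n' =>
    symmDiff (kap h N n) (kap h N n') ⊆ S ∪ Low ∧ smV h N S hku n' n = j with hGd
  set Y : ℕ → ℕ → ℝ := fun n n' =>
    if symmDiff (kap h N n) (kap h N n') ⊆ S ∪ Low ∧ v n' n ≤ v n n' then
      c ^ (v n n' + v n' n) else 0 with hY
  have hY0 : ∀ n n', 0 ≤ Y n n' := by
    intro n n'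
    simp only [hY]
    split_ifs
    · positivity
    · exact le_rfl
  have hT : ∀ n ∈ sqf h N, ∀ n' ∈ sqf h N,
      ∏ p ∈ symmDiff (kap h N n) (kap h N n'), ρ p ≤ Y n n' + Y n' n := by
    intro n hn n' hn'
    by_cases hsub : symmDiff (kap h N n) (kap h N n') ⊆ S ∪ Low
    · have h1 := sm_term hinj hle hS hcase hku hc0 hρS hρL (hmem n hn).1 (hmem n hn).2
        (hmem n' hn').1 (hmem n' hn').2 hsub
      have hsub' : symmDiff (kap h N n') (kap h N n) ⊆ S ∪ Low := by
        rw [symmDiff_comm]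
        exact hsub
      rcases le_total (v n' n) (v n n') with hle' | hle'
      · have h2 : Y n n' = c ^ (v n n' + v n' n) := by
          simp only [hY]
          rw [if_pos ⟨hsub, hle'⟩]
        rw [h2]
        have := hY0 n' n
        linarith
      · have h2 : Y n' n = c ^ (v n n' + v n' n) := by
          simp only [hY]
          rw [if_pos ⟨hsub', hle'⟩, add_comm]
        rw [h2]
        have := hY0 n n'
        linarith
    · obtain ⟨p, hp, hpn⟩ := Finset.not_subset.mp hsub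
      rw [Finset.mem_union, not_or] at hpn
      rw [Finset.prod_eq_zero hp (hρ0 p hpn.1 hpn.2)]
      have := hY0 n n'
      have := hY0 n' n
      linarith
  have hvM : ∀ n n', v n n' ≤ S.card := by
    intro n n'
    have h1 : v n n' ≤ (smP h N S n n' ⟨0, hk⟩).card := Finset.inf'_le _ (Finset.mem_univ _)
    exact h1.trans (Finset.card_filter_le _ _)
  have hYle : ∀ n ∈ sqf h N, ∀ n' ∈ sqf h N, Y n n' ≤
      ∑ i ∈ range (S.card + 1), ∑ j ∈ range (i + 1),
        (if n ∈ NN i then (1 : ℝ) else 0) * (if n' ∈ Gd n j then 1 else 0) * c ^ (i + j) := by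
    intro n hn n' hn'
    have hnn : ∀ i j : ℕ, 0 ≤
        (if n ∈ NN i then (1 : ℝ) else 0) * (if n' ∈ Gd n j then 1 else 0) * c ^ (i + j) := by
      intro i j
      split_ifs <;> positivity
    by_cases hcond : symmDiff (kap h N n) (kap h N n') ⊆ S ∪ Low ∧ v n' n ≤ v n n'
    · have h1 : Y n n' = (if n ∈ NN (v n n') then (1 : ℝ) else 0) *
          (if n' ∈ Gd n (v n' n) then 1 else 0) * c ^ (v n n' + v n' n) := by
        have hN1 : n ∈ NN (v n n') := by
          simp only [hNN]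
          rw [Finset.mem_filter, Finset.mem_Icc]
          refine ⟨hmem n hn, ?_⟩
          have h2 : v n n' ≤ (smP h N S n n' ⟨0, hk⟩).card :=
            Finset.inf'_le _ (Finset.mem_univ _)
          obtain ⟨V, hVs, hVc⟩ := Finset.exists_subset_card_eq h2
          refine ⟨V, Finset.mem_powersetCard.mpr ⟨hVs.trans (Finset.filter_subset _ _), hVc⟩, ?_⟩
          apply Finset.prod_primes_dvd
          · intro p hp
            exact (hS p (Finset.filter_subset _ _ (hVs hp))).1.prime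
          · intro p hp
            have := hVs hp
            rw [smP, Finset.mem_filter] at this
            exact this.2.2.2
        have hG1 : n' ∈ Gd n (v n' n) := by
          simp only [hGd]
          rw [Finset.mem_filter]
          exact ⟨hn', hcond.1, rfl⟩
        rw [if_pos hN1, if_pos hG1, one_mul, one_mul]
        simp only [hY]
        rw [if_pos hcond]
      rw [h1]
      refine le_trans ?_ (Finset.single_le_sum
        (f := fun i => ∑ j ∈ range (i + 1),
        (if n ∈ NN i then (1 : ℝ) else 0) * (if n' ∈ Gd n j then 1 else 0) * c ^ (i + j))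
        (fun i _ => Finset.sum_nonneg (fun j _ => hnn i j))
        (Finset.mem_range.mpr (Nat.lt_succ_of_le (hvM n n'))))
      exact Finset.single_le_sum (f := fun j =>
        (if n ∈ NN (v n n') then (1 : ℝ) else 0) * (if n' ∈ Gd n j then 1 else 0) *
          c ^ (v n n' + j))
        (fun j _ => hnn _ j) (Finset.mem_range.mpr (Nat.lt_succ_of_le hcond.2))
    · have h1 : Y n n' = 0 := by
        simp only [hY]
        rw [if_neg hcond]
      rw [h1]
      exact Finset.sum_nonneg (fun i _ => Finset.sum_nonneg (fun j _ => hnn i j))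
  have hij : ∀ i j : ℕ, j ≤ i → ∑ n ∈ sqf h N, ∑ n' ∈ sqf h N,
      (if n ∈ NN i then (1 : ℝ) else 0) * (if n' ∈ Gd n j then 1 else 0) * c ^ (i + j) ≤
      3 * k * N * 2 ^ E * ((a ^ i / i.factorial) * (a ^ j / j.factorial)) := by
    intro i j hji
    have h1 : ∀ n ∈ sqf h N, ∑ n' ∈ sqf h N,
        (if n ∈ NN i then (1 : ℝ) else 0) * (if n' ∈ Gd n j then 1 else 0) * c ^ (i + j) ≤
        (if n ∈ NN i then (1 : ℝ) else 0) * (k * ((z : ℝ) ^ j / j.factorial) * 2 ^ E *
          c ^ (i + j)) := by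
      intro n hn
      have h2 : ∑ n' ∈ sqf h N,
          (if n ∈ NN i then (1 : ℝ) else 0) * (if n' ∈ Gd n j then 1 else 0) * c ^ (i + j) =
          (if n ∈ NN i then (1 : ℝ) else 0) * ((Gd n j).card * c ^ (i + j)) := by
        have h3 : ∑ n' ∈ sqf h N, (if n' ∈ Gd n j then (1 : ℝ) else 0) = (Gd n j).card := by
          rw [Finset.sum_ite_mem, Finset.sum_const, nsmul_eq_mul, mul_one]
          congr 2
          exact Finset.inter_eq_right.mpr (Finset.filter_subset _ _)
        rw [← Finset.sum_mul, ← Finset.mul_sum, h3]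
        ring
      rw [h2]
      apply mul_le_mul_of_nonneg_left _ (by split_ifs <;> norm_num)
      apply mul_le_mul_of_nonneg_right _ (by positivity)
      exact sm_countG hinj hle hS hku hτ (hmem n hn).1 (hmem n hn).2 j
    refine (Finset.sum_le_sum h1).trans ?_
    rw [← Finset.sum_mul]
    have h4 : ∑ n ∈ sqf h N, (if n ∈ NN i then (1 : ℝ) else 0) ≤ 3 * N / i.factorial := by
      rw [Finset.sum_ite_mem, Finset.sum_const, nsmul_eq_mul, mul_one]
      refine le_trans ?_ (sm_countN (v := i) hz (hle ⟨0, hk⟩) hS)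
      exact_mod_cast Finset.card_le_card Finset.inter_subset_right
    have hB0 : 0 ≤ k * ((z : ℝ) ^ j / j.factorial) * 2 ^ E * c ^ (i + j) := by positivity
    refine (mul_le_mul_of_nonneg_right h4 hB0).trans ?_
    have h5 : (z : ℝ) ^ j * c ^ (i + j) ≤ a ^ i * a ^ j := by
      rw [hc, div_pow, ← pow_add]
      have h6 : (z : ℝ) ^ j ≤ Real.sqrt z ^ (i + j) := by
        calc (z : ℝ) ^ j = (Real.sqrt z ^ 2) ^ j := by rw [Real.sq_sqrt (by linarith)]
          _ = Real.sqrt z ^ (2 * j) := by rw [← pow_mul]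
          _ ≤ Real.sqrt z ^ (i + j) := pow_le_pow_right₀ hsz1 (by omega)
      rw [← mul_div_assoc, div_le_iff₀ (by positivity), mul_comm]
      exact mul_le_mul_of_nonneg_left h6 (by positivity)
    have h7 : 3 * (N : ℝ) / i.factorial * (k * ((z : ℝ) ^ j / j.factorial) * 2 ^ E * c ^ (i + j)) =
        3 * k * N * 2 ^ E / (i.factorial * j.factorial) * ((z : ℝ) ^ j * c ^ (i + j)) := by
      field_simp
    have h8 : 3 * k * N * 2 ^ E * ((a ^ i / i.factorial) * (a ^ j / j.factorial)) =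
        3 * (k : ℝ) * N * 2 ^ E / (i.factorial * j.factorial) * (a ^ i * a ^ j) := by
      field_simp
    rw [h7, h8]
    exact mul_le_mul_of_nonneg_left h5 (by positivity)
  have hYsum : ∑ n ∈ sqf h N, ∑ n' ∈ sqf h N, Y n n' ≤
      3 * k * N * 2 ^ E * Real.exp (2 * a) := by
    calc ∑ n ∈ sqf h N, ∑ n' ∈ sqf h N, Y n n'
        ≤ ∑ n ∈ sqf h N, ∑ n' ∈ sqf h N, ∑ i ∈ range (S.card + 1), ∑ j ∈ range (i + 1),
          (if n ∈ NN i then (1 : ℝ) else 0) * (if n' ∈ Gd n j then 1 else 0) * c ^ (i + j) :=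
          Finset.sum_le_sum (fun n hn => Finset.sum_le_sum (fun n' hn' => hYle n hn n' hn'))
      _ = ∑ i ∈ range (S.card + 1), ∑ j ∈ range (i + 1), ∑ n ∈ sqf h N, ∑ n' ∈ sqf h N,
          (if n ∈ NN i then (1 : ℝ) else 0) * (if n' ∈ Gd n j then 1 else 0) * c ^ (i + j) := by
          have h1 : ∀ n ∈ sqf h N, ∑ n' ∈ sqf h N, ∑ i ∈ range (S.card + 1), ∑ j ∈ range (i + 1),
              (if n ∈ NN i then (1 : ℝ) else 0) * (if n' ∈ Gd n j then 1 else 0) * c ^ (i + j) =
              ∑ i ∈ range (S.card + 1), ∑ j ∈ range (i + 1), ∑ n' ∈ sqf h N,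
              (if n ∈ NN i then (1 : ℝ) else 0) * (if n' ∈ Gd n j then 1 else 0) *
                c ^ (i + j) := by
            intro n _
            rw [Finset.sum_comm]
            apply Finset.sum_congr rfl
            intro i _
            rw [Finset.sum_comm]
          rw [Finset.sum_congr rfl h1, Finset.sum_comm]
          apply Finset.sum_congr rfl
          intro i _
          rw [Finset.sum_comm]
      _ ≤ ∑ i ∈ range (S.card + 1), ∑ j ∈ range (i + 1),
          3 * k * N * 2 ^ E * ((a ^ i / i.factorial) * (a ^ j / j.factorial)) := by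
          apply Finset.sum_le_sum
          intro i _
          apply Finset.sum_le_sum
          intro j hj
          exact hij i j (Nat.lt_succ_iff.mp (Finset.mem_range.mp hj))
      _ ≤ ∑ i ∈ range (S.card + 1), 3 * k * N * 2 ^ E * ((a ^ i / i.factorial) * Real.exp a) := by
          apply Finset.sum_le_sum
          intro i _
          rw [← Finset.mul_sum, ← Finset.mul_sum]
          apply mul_le_mul_of_nonneg_left _ (by positivity)
          apply mul_le_mul_of_nonneg_left _ (by positivity)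
          exact Real.sum_le_exp_of_nonneg ha _
      _ = 3 * k * N * 2 ^ E * ((∑ i ∈ range (S.card + 1), a ^ i / i.factorial) * Real.exp a) := by
          rw [← Finset.mul_sum, Finset.sum_mul]
      _ ≤ 3 * k * N * 2 ^ E * (Real.exp a * Real.exp a) := by
          apply mul_le_mul_of_nonneg_left _ (by positivity)
          apply mul_le_mul_of_nonneg_right _ (Real.exp_pos a).le
          exact Real.sum_le_exp_of_nonneg ha _
      _ = 3 * k * N * 2 ^ E * Real.exp (2 * a) := by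
          rw [← Real.exp_add, two_mul]
  calc ∑ n ∈ sqf h N, ∑ n' ∈ sqf h N, ∏ p ∈ symmDiff (kap h N n) (kap h N n'), ρ p
      ≤ ∑ n ∈ sqf h N, ∑ n' ∈ sqf h N, (Y n n' + Y n' n) :=
        Finset.sum_le_sum (fun n hn => Finset.sum_le_sum (fun n' hn' => hT n hn n' hn'))
    _ = ∑ n ∈ sqf h N, ∑ n' ∈ sqf h N, Y n n' + ∑ n ∈ sqf h N, ∑ n' ∈ sqf h N, Y n' n := by
        simp only [Finset.sum_add_distrib]
    _ = ∑ n ∈ sqf h N, ∑ n' ∈ sqf h N, Y n n' + ∑ n ∈ sqf h N, ∑ n' ∈ sqf h N, Y n n' := by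
        congr 1
        rw [Finset.sum_comm]
    _ ≤ 6 * k * N * 2 ^ E * Real.exp (2 * a) := by
        have := hYsum
        linarith

end Pool.Agent.Helper92.CB
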