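import Mathlib
import Pool.Agent.Helper92.CB.Defs
import Pool.Agent.Helper92.CB.MOM
import Pool.Agent.Helper92.CB.SM

/-!
# Block CB-MBN (MP_b6b996_nt)
Moment bound for one `N`.
Proof. MOM with `A = sqf h N`, `K = kap h N`, `d = k τ` (`|kap h N n| ≤ ∑_i ω(n + h i)`), `U` = the primes `≤ 2N`, this `S` and `t`, and `ρ p = 1` on `Low \ S`, `0` off `S ∪ Low`, and on `S`:
`ρ p = ρ₁ := √(min 1 (t/√z))` if this is `≤ 1/2`, else `1`. Condition `hL` of MOM: for `W ⊆ S ∪ Low` with `|W ∩ S| ≤ t` it is hL1 (monotone in the cardinal); else hL0.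
Then SM with `a = 4t` (`ρ p ² ≤ 4t/√z` on `S` in both cases; if `t = 0` then `ρ₁ = 0`).
-/

set_option autoImplicit false

namespace Pool.Agent.Helper92.CB

open Finset
open Pool.Agent.Helper92.GB (e ext F npi wt)

theorem MBN {k : ℕ} (hk : 1 ≤ k) (r N z : ℕ) (hN : 1 ≤ N) (hz : 1 ≤ z) (h : Fin k → ℕ)
    (hinj : Function.Injective h) (hle : ∀ i, h i ≤ N) (a : ℕ → ℝ) (ha : ∀ n, |a n| ≤ 1)
    (S Low : Finset ℕ) (hS : ∀ p ∈ S, p.Prime ∧ 3 * z < p ∧ p ≤ 4 * z) (hcase : 2 ≤ k ∨ S = ∅)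
    (τ : ℕ) (hτ : ∀ n : ℕ, 1 ≤ n → n ≤ 2 * N → n.primeFactors.card ≤ τ) (t : ℕ)
    (ht : ∀ n ∈ sqf h N, (kap h N n ∩ S).card * 2 ^ (r + 1) ≤ t)
    (Lf : ((ℕ → ℤˣ) → ℝ) →ₗ[ℝ] ℝ)
    (hL0 : ∀ W : Finset ℕ, (∀ p ∈ W, p.Prime ∧ p ≤ 2 * N) → ¬ W ⊆ S ∪ Low → Lf (ch W) = 0)
    (hL1 : ∀ W : Finset ℕ, (∀ p ∈ W, p.Prime ∧ p ≤ 2 * N) →
      |Lf (ch W)| ≤ (Real.sqrt (min 1 ((W ∩ S).card / Real.sqrt z))) ^ (W ∩ S).card) :
    Lf (fun f => (∑ n ∈ sqf h N, a n * ch (kap h N n) f) ^ (2 ^ (r + 1))) ≤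
      18 ^ (k * τ * r * 2 ^ r) *
        (6 * k * N * 2 ^ (Low.card + (k + k ^ 2) * τ) * Real.exp (8 * t)) ^ (2 ^ r) := by
  classical
  have hz0 : (0 : ℝ) < Real.sqrt z := Real.sqrt_pos.2 (by exact_mod_cast hz)
  have ht0 : (0 : ℝ) ≤ t := Nat.cast_nonneg t
  set ρ₁ : ℝ := Real.sqrt (min 1 (t / Real.sqrt z)) with hρ₁
  have hm0 : 0 ≤ min 1 ((t : ℝ) / Real.sqrt z) := le_min zero_le_one (by positivity)
  have hρ₁0 : 0 ≤ ρ₁ := Real.sqrt_nonneg _
  have hρ₁1 : ρ₁ ≤ 1 := by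
    rw [hρ₁]
    exact Real.sqrt_le_one.2 (min_le_left _ _)
  have hρ₁s : ρ₁ ^ 2 = min 1 ((t : ℝ) / Real.sqrt z) := by
    rw [hρ₁]; exact Real.sq_sqrt hm0
  set ρS : ℝ := if ρ₁ ≤ 1 / 2 then ρ₁ else 1 with hρS
  have hρS0 : 0 ≤ ρS := by rw [hρS]; split_ifs <;> linarith
  have hρS1 : ρS ≤ 1 := by rw [hρS]; split_ifs <;> linarith
  have hρ₁S : ρ₁ ≤ ρS := by rw [hρS]; split_ifs <;> linarith
  have hρSq : ρS ^ 2 ≤ (4 * (t : ℝ)) / Real.sqrt z := by
    have h1 : (t : ℝ) / Real.sqrt z ≤ 4 * t / Real.sqrt z := by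
      apply div_le_div_of_nonneg_right _ hz0.le
      linarith
    rw [hρS]
    split_ifs with hc
    · rw [hρ₁s]
      exact (min_le_right _ _).trans h1
    · have h2 : 1 / 4 < min 1 ((t : ℝ) / Real.sqrt z) := by
        rw [← hρ₁s]
        nlinarith [not_le.1 hc]
      have h3 : 1 / 4 < (t : ℝ) / Real.sqrt z := lt_of_lt_of_le h2 (min_le_right _ _)
      have h4 : 4 * (t : ℝ) / Real.sqrt z = 4 * ((t : ℝ) / Real.sqrt z) := by ring
      rw [h4]
      linarith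
  set ρ : ℕ → ℝ := fun p => if p ∈ S then ρS else if p ∈ Low then 1 else 0 with hρdef
  have hρn : ∀ p, 0 ≤ ρ p := by
    intro p
    simp only [hρdef]
    split_ifs <;> linarith
  have hρ : ∀ p, (0 ≤ ρ p ∧ ρ p ≤ 1 / 2) ∨ ρ p = 1 := by
    intro p
    simp only [hρdef]
    split_ifs with h1 h2
    · rw [hρS]
      split_ifs with hc
      · exact Or.inl ⟨hρ₁0, hc⟩
      · exact Or.inr rfl
    · exact Or.inr rfl
    · exact Or.inl ⟨le_rfl, by norm_num⟩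
  set U : Finset ℕ := (Icc 1 (2 * N)).filter Nat.Prime with hU
  have hUm : ∀ W : Finset ℕ, W ⊆ U → ∀ p ∈ W, p.Prime ∧ p ≤ 2 * N := by
    intro W hW p hp
    have h1 := mem_filter.1 (hW hp)
    exact ⟨h1.2, (mem_Icc.1 h1.1).2⟩
  have hprod : ∀ W : Finset ℕ, W ⊆ S ∪ Low → ∏ p ∈ W, ρ p = ρS ^ (W ∩ S).card := by
    intro W hW
    have h1 : ∀ p ∈ W, ρ p = if p ∈ S then ρS else 1 := by
      intro p hp
      simp only [hρdef]
      by_cases hpS : p ∈ S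
      · simp [hpS]
      · have hpL : p ∈ Low := by
          rcases mem_union.1 (hW hp) with h2 | h2
          · exact absurd h2 hpS
          · exact h2
        simp [hpS, hpL]
    rw [prod_congr rfl h1, prod_ite, prod_const, prod_const_one, mul_one, filter_mem_eq_inter]
  have hkapd : ∀ n ∈ sqf h N, (kap h N n).card ≤ k * τ := by
    intro n hn
    have hn' := mem_Icc.1 (mem_filter.1 hn).1
    have h1 : kap h N n ⊆ univ.biUnion (fun i => (n + h i).primeFactors) := by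
      intro p hp
      obtain ⟨_, hpp, hodd⟩ := mem_filter.1 hp
      have hpos := hodd.pos
      obtain ⟨i, hi⟩ := card_pos.1 hpos
      refine mem_biUnion.2 ⟨i, mem_univ i, ?_⟩
      exact Nat.mem_primeFactors.2 ⟨hpp, (mem_filter.1 hi).2, by omega⟩
    refine (card_le_card h1).trans ?_
    refine card_biUnion_le.trans ?_
    have h2 : ∀ i ∈ (univ : Finset (Fin k)), ((n + h i).primeFactors).card ≤ τ := by
      intro i _
      have := hle i
      exact hτ (n + h i) (by omega) (by omega)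
    refine (sum_le_sum h2).trans ?_
    simp
  have hkapU : ∀ n ∈ sqf h N, kap h N n ⊆ U := by
    intro n _ p hp
    obtain ⟨h1, h2, _⟩ := mem_filter.1 hp
    exact mem_filter.2 ⟨h1, h2⟩
  have hL : ∀ W : Finset ℕ, W ⊆ U → (W ∩ S).card ≤ t → |Lf (ch W)| ≤ ∏ p ∈ W, ρ p := by
    intro W hW hWt
    by_cases hWS : W ⊆ S ∪ Low
    · rw [hprod W hWS]
      refine (hL1 W (hUm W hW)).trans ?_
      apply pow_le_pow_left₀ (Real.sqrt_nonneg _)
      refine le_trans ?_ hρ₁S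
      rw [hρ₁]
      apply Real.sqrt_le_sqrt
      apply min_le_min le_rfl
      apply div_le_div_of_nonneg_right _ hz0.le
      exact_mod_cast hWt
    · rw [hL0 W (hUm W hW) hWS, abs_zero]
      exact prod_nonneg fun p _ => hρn p
  have h1 := MOM Lf ρ hρ (sqf h N) a (fun n _ => ha n) (kap h N) (k * τ) r hkapd U S t hkapU ht hL
  have h2 := SM hk N z hN hz h hinj hle S Low hS hcase ρ (4 * t) (by positivity)
    (fun p hp => by
      have : ρ p = ρS := by simp [hρdef, hp]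
      rw [this]
      exact ⟨hρS0, hρS1, hρSq⟩)
    (fun p hp => by
      refine ⟨hρn p, ?_⟩
      simp only [hρdef]
      split_ifs <;> linarith)
    (fun p hp hp' => by simp [hρdef, hp, hp']) τ hτ
  have h3 : (2 : ℝ) * (4 * t) = 8 * t := by ring
  rw [h3] at h2
  refine h1.trans ?_
  apply mul_le_mul_of_nonneg_left _ (by positivity)
  apply pow_le_pow_left₀ _ h2
  exact sum_nonneg fun i _ => sum_nonneg fun j _ => prod_nonneg fun p _ => hρn p

end Pool.Agent.Helper92.CB
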