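import Mathlib
import Pool.Agent.Helper92.CB.Defs

/-!
# Block CB-OPS (MP_b6b996_nt)
Elementary facts on the averaging operators. All by induction on the list.
EL_ch: `ex (c i) (w i)` applied to `f ↦ a * ch W' f`: split `ch W (ov c x f) = (∏_{p ∈ W ∩ c} x p) * ch (W \ c) f`.
MU: product of the uniform sign sums.
-/

set_option autoImplicit false

namespace Pool.Agent.Helper92.CB

open Finset
open Pool.Agent.Helper92.GB (e ext F npi wt)

private theorem h33_ch_ov (c : Finset ℕ) (x : {p // p ∈ c} → ℤˣ) (W : Finset ℕ) (f : ℕ → ℤˣ) :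
    ch W (ov c x f) = (∏ p : {p // p ∈ c}, if (p : ℕ) ∈ W then ((x p : ℤ) : ℝ) else 1) *
      ch (W.filter fun p => p ∉ c) f := by
  unfold ch
  rw [← Finset.prod_filter_mul_prod_filter_not W (fun p => p ∈ c)]
  congr 1
  · have h1 : (∏ p ∈ W.filter (fun p => p ∈ c), ((ov c x f p : ℤ) : ℝ)) =
        ∏ p ∈ c, if p ∈ W then ((ov c x f p : ℤ) : ℝ) else 1 := by
      rw [← Finset.prod_filter]
      apply Finset.prod_congr
      · ext p
        simp only [Finset.mem_filter]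
        tauto
      · intro p _
        rfl
    rw [h1, ← Finset.prod_coe_sort c]
    apply Finset.prod_congr rfl
    intro p _
    have h2 : ov c x f (p : ℕ) = x p := by
      unfold ov
      rw [dif_pos p.2]
    rw [h2]
  · apply Finset.prod_congr rfl
    intro p hp
    rw [Finset.mem_filter] at hp
    unfold ov
    rw [dif_neg hp.2]

private theorem h33_EL_ch {I : Type} (c : I → Finset ℕ) (w : ∀ i, ({p // p ∈ c i} → ℤˣ) → ℝ)
    (hdis : ∀ i j, i ≠ j → Disjoint (c i) (c j)) (l : List I) (W : Finset ℕ) :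
    l.Nodup → ∀ f : ℕ → ℤˣ,
    EL c w l (ch W) f = (l.map fun i => mom (c i) (w i) W).prod *
      ch (W.filter fun p => ∀ i ∈ l, p ∉ c i) f := by
  induction l with
  | nil =>
    intro _ f
    simp [EL]
  | cons i l ih =>
    intro hl f
    rw [List.nodup_cons] at hl
    have key : ∀ x : {p // p ∈ c i} → ℤˣ,
        w i x * EL c w l (ch W) (ov (c i) x f) =
        (l.map fun i => mom (c i) (w i) W).prod *
          ch (W.filter fun p => ∀ j ∈ i :: l, p ∉ c j) f *
          (w i x * ∏ p : {p // p ∈ c i}, if (p : ℕ) ∈ W then ((x p : ℤ) : ℝ) else 1) := by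
      intro x
      rw [ih hl.2, h33_ch_ov]
      have h1 : (∏ p : {p // p ∈ c i}, if (p : ℕ) ∈ W.filter (fun p => ∀ i ∈ l, p ∉ c i) then
          ((x p : ℤ) : ℝ) else 1) =
          ∏ p : {p // p ∈ c i}, if (p : ℕ) ∈ W then ((x p : ℤ) : ℝ) else 1 := by
        apply Finset.prod_congr rfl
        intro p _
        have h2 : ((p : ℕ) ∈ W.filter (fun p => ∀ i ∈ l, p ∉ c i)) ↔ (p : ℕ) ∈ W := by
          rw [Finset.mem_filter]
          constructor
          · exact fun h => h.1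
          · intro h
            refine ⟨h, ?_⟩
            intro j hj hpj
            have hij : i ≠ j := by
              rintro rfl
              exact hl.1 hj
            exact (Finset.disjoint_left.1 (hdis i j hij)) p.2 hpj
        simp only [h2]
      have h3 : (W.filter (fun p => ∀ i ∈ l, p ∉ c i)).filter (fun p => p ∉ c i) =
          W.filter fun p => ∀ j ∈ i :: l, p ∉ c j := by
        ext p
        simp only [Finset.mem_filter, List.mem_cons, forall_eq_or_imp]
        tauto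
      rw [h1, h3]
      ring
    show ex (c i) (w i) (EL c w l (ch W)) f = _
    unfold ex
    rw [Finset.sum_congr rfl (fun x _ => key x), ← Finset.mul_sum, List.map_cons, List.prod_cons]
    unfold mom
    ring

theorem EL_ch {I : Type} (c : I → Finset ℕ) (w : ∀ i, ({p // p ∈ c i} → ℤˣ) → ℝ)
    (hdis : ∀ i j, i ≠ j → Disjoint (c i) (c j)) (l : List I) (hl : l.Nodup) (W : Finset ℕ)
    (hW : ∀ p ∈ W, ∃ i ∈ l, p ∈ c i) (f : ℕ → ℤˣ) :
    EL c w l (ch W) f = (l.map fun i => mom (c i) (w i) W).prod := by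
  rw [h33_EL_ch c w hdis l W hl f]
  have h1 : W.filter (fun p => ∀ i ∈ l, p ∉ c i) = ∅ := by
    rw [Finset.filter_eq_empty_iff]
    intro p hp h
    obtain ⟨i, hi, hpi⟩ := hW p hp
    exact h i hi hpi
  rw [h1]
  simp [ch]

theorem EL_lin {I : Type} (c : I → Finset ℕ) (w : ∀ i, ({p // p ∈ c i} → ℤˣ) → ℝ) (l : List I)
    (f : ℕ → ℤˣ) : ∃ Lf : ((ℕ → ℤˣ) → ℝ) →ₗ[ℝ] ℝ, ∀ Φ, Lf Φ = EL c w l Φ f := by
  induction l generalizing f with
  | nil => exact ⟨LinearMap.proj f, fun Φ => rfl⟩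
  | cons i l ih =>
    choose L hL using ih
    refine ⟨∑ x : {p // p ∈ c i} → ℤˣ, w i x • L (ov (c i) x f), ?_⟩
    intro Φ
    show _ = ex (c i) (w i) (EL c w l Φ) f
    unfold ex
    rw [LinearMap.sum_apply]
    apply Finset.sum_congr rfl
    intro x _
    rw [LinearMap.smul_apply, hL, smul_eq_mul]

theorem EL_mono {I : Type} (c : I → Finset ℕ) (w : ∀ i, ({p // p ∈ c i} → ℤˣ) → ℝ)
    (hw : ∀ i x, 0 ≤ w i x) (l : List I) (Φ Ψ : (ℕ → ℤˣ) → ℝ) (h : ∀ f, Φ f ≤ Ψ f) (f : ℕ → ℤˣ) :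
    EL c w l Φ f ≤ EL c w l Ψ f := by
  induction l generalizing f with
  | nil => exact h f
  | cons i l ih =>
    show ex (c i) (w i) (EL c w l Φ) f ≤ ex (c i) (w i) (EL c w l Ψ) f
    unfold ex
    apply Finset.sum_le_sum
    intro x _
    exact mul_le_mul_of_nonneg_left (ih _) (hw i x)

private theorem h33_EL_zero {I : Type} (c : I → Finset ℕ)
    (w : ∀ i, ({p // p ∈ c i} → ℤˣ) → ℝ) (l : List I) (f : ℕ → ℤˣ) :
    EL c w l (fun _ => 0) f = 0 := by
  induction l generalizing f with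
  | nil => rfl
  | cons i l ih =>
    show ex (c i) (w i) (EL c w l (fun _ => 0)) f = 0
    unfold ex
    apply Finset.sum_eq_zero
    intro x _
    rw [ih, mul_zero]

theorem EL_dom {I : Type} (c : I → Finset ℕ) (w w0 : ∀ i, ({p // p ∈ c i} → ℤˣ) → ℝ)
    (hw : ∀ i x, 0 ≤ w i x) (hw0 : ∀ i x, 0 ≤ w0 i x) (D : I → ℝ) (hD0 : ∀ i, 0 ≤ D i)
    (hD : ∀ i x, w i x ≤ D i * w0 i x) (l : List I) (Φ : (ℕ → ℤˣ) → ℝ) (hΦ : ∀ f, 0 ≤ Φ f)
    (f : ℕ → ℤˣ) : EL c w l Φ f ≤ (l.map D).prod * EL c w0 l Φ f := by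
  induction l generalizing f with
  | nil => simp [EL]
  | cons i l ih =>
    show ex (c i) (w i) (EL c w l Φ) f ≤ ((i :: l).map D).prod * ex (c i) (w0 i) (EL c w0 l Φ) f
    unfold ex
    rw [Finset.mul_sum, List.map_cons, List.prod_cons]
    apply Finset.sum_le_sum
    intro x _
    have hP : 0 ≤ (l.map D).prod := by
      apply List.prod_nonneg
      intro a ha
      rw [List.mem_map] at ha
      obtain ⟨j, _, rfl⟩ := ha
      exact hD0 j
    have hE : 0 ≤ EL c w0 l Φ (ov (c i) x f) := by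
      have := EL_mono c w0 hw0 l (fun _ => 0) Φ hΦ (ov (c i) x f)
      rwa [h33_EL_zero] at this
    calc w i x * EL c w l Φ (ov (c i) x f)
        ≤ w i x * ((l.map D).prod * EL c w0 l Φ (ov (c i) x f)) :=
          mul_le_mul_of_nonneg_left (ih _) (hw i x)
      _ ≤ (D i * w0 i x) * ((l.map D).prod * EL c w0 l Φ (ov (c i) x f)) :=
          mul_le_mul_of_nonneg_right (hD i x) (mul_nonneg hP hE)
      _ = D i * (l.map D).prod * (w0 i x * EL c w0 l Φ (ov (c i) x f)) := by ring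

private theorem h33_mu (c : Finset ℕ) (S : Finset ℕ) :
    mom c (fun x => wt (fun _ => 0) x) S = if S ∩ c = ∅ then 1 else 0 := by
  classical
  unfold mom wt
  have h1 : ∀ x : {p // p ∈ c} → ℤˣ,
      (∏ s : {p // p ∈ c}, (1 + (((x s : ℤ) : ℝ)) * 0) / 2) *
        (∏ p : {p // p ∈ c}, if (p : ℕ) ∈ S then ((x p : ℤ) : ℝ) else 1) =
      ∏ p : {p // p ∈ c}, (1 / 2 : ℝ) * (if (p : ℕ) ∈ S then ((x p : ℤ) : ℝ) else 1) := by
    intro x
    rw [← Finset.prod_mul_distrib]
    apply Finset.prod_congr rfl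
    intro p _
    rw [mul_zero, add_zero]
  rw [Finset.sum_congr rfl (fun x _ => h1 x)]
  have h2 := (Finset.prod_univ_sum (fun _ : {p // p ∈ c} => (Finset.univ : Finset ℤˣ))
    (fun (p : {p // p ∈ c}) (u : ℤˣ) =>
      (1 / 2 : ℝ) * (if (p : ℕ) ∈ S then ((u : ℤ) : ℝ) else 1))).symm
  rw [Fintype.piFinset_univ] at h2
  rw [h2]
  have h3 : ∀ p : {p // p ∈ c}, (∑ u : ℤˣ,
      (1 / 2 : ℝ) * (if (p : ℕ) ∈ S then ((u : ℤ) : ℝ) else 1)) =
      if (p : ℕ) ∈ S then 0 else 1 := by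
    intro p
    have hu : (Finset.univ : Finset ℤˣ) = {1, -1} := by decide
    rw [hu, Finset.sum_pair (by decide)]
    by_cases hp : (p : ℕ) ∈ S
    · simp [hp]
    · simp only [hp, if_false]
      norm_num
  rw [Finset.prod_congr rfl (fun p _ => h3 p)]
  by_cases hS : S ∩ c = ∅
  · rw [if_pos hS]
    apply Finset.prod_eq_one
    intro p _
    rw [if_neg]
    intro hp
    have : (p : ℕ) ∈ S ∩ c := Finset.mem_inter.2 ⟨hp, p.2⟩
    rw [hS] at this
    exact absurd this (Finset.notMem_empty _)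
  · rw [if_neg hS]
    obtain ⟨p, hp⟩ := Finset.nonempty_of_ne_empty hS
    rw [Finset.mem_inter] at hp
    apply Finset.prod_eq_zero (Finset.mem_univ (⟨p, hp.2⟩ : {p // p ∈ c}))
    rw [if_pos hp.1]

theorem MU (c : Finset ℕ) : IsPW (fun x : {p // p ∈ c} → ℤˣ => wt (fun _ => 0) x) ∧
    ∀ S : Finset ℕ, mom c (fun x => wt (fun _ => 0) x) S = if S ∩ c = ∅ then 1 else 0 := by
  refine ⟨⟨?_, ?_⟩, h33_mu c⟩
  · intro x
    show 0 ≤ wt (fun _ => 0) x
    unfold wt
    apply Finset.prod_nonneg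
    intro s _
    rw [mul_zero, add_zero]
    norm_num
  · have h := h33_mu c ∅
    unfold mom at h
    simpa using h

end Pool.Agent.Helper92.CB
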