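import Mathlib
import Pool.Agent.Helper92.CB.Defs
import Pool.Agent.Helper92.GB.UR
import Pool.Agent.Helper92.CB.OPS

/-!
# Block CB-ORD (MP_b6b996_nt)
The weights on the signs of the other primes in a dyadic block: uniform, conditioned on the linear bounds.
Proof. For `2^k ≥ M₀` (UR) apply UR with `M = 2^k`, `S = {p // p ∈ c}` (`card ≤ 2^k`), `h = 0`, `V = 2^k`, `w = [p ≤ y] χ(p) p^{it}` (as in GB/NS `block_large`): the bad event has uniform probability `≤ 2^{-10k} ≤ 1/2`;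
`w` = uniform weight conditioned on the complement. For `2^k < M₀` take `w` uniform, the bound holds trivially with `C` large (`log(q(2+|t|)) ≥ log 2`). If `y > 2^{k+1}` replace it by `2^{k+1}`.
-/

set_option autoImplicit false

namespace Pool.Agent.Helper92.CB

open Finset
open Pool.Agent.Helper92.GB (e ext F npi wt)

private theorem ORD_npi_eq {n : ℕ} (hn : 0 < n) (t : ℝ) :
    npi n t = Complex.exp (Complex.I * ((Real.log n * t : ℝ) : ℂ)) := by
  have h : (n : ℂ) ≠ 0 := by exact_mod_cast hn.ne'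
  rw [npi, Complex.cpow_def_of_ne_zero h, ← Complex.natCast_log]
  push_cast
  congr 1
  ring

private theorem ORD_norm_npi_le (n : ℕ) (t : ℝ) : ‖npi n t‖ ≤ 1 := by
  rcases Nat.eq_zero_or_pos n with h | h
  · subst h
    rw [npi]
    by_cases ht : (t : ℂ) * Complex.I = 0
    · rw [ht]; simp
    · rw [Nat.cast_zero, Complex.zero_cpow ht]; simp
  · rw [ORD_npi_eq h, mul_comm, Complex.norm_exp_ofReal_mul_I]

private theorem ORD_npi_lip {n : ℕ} (hn : 0 < n) (t t' : ℝ) :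
    ‖npi n t - npi n t'‖ ≤ n * |t - t'| := by
  rw [ORD_npi_eq hn, ORD_npi_eq hn]
  have e1 : Complex.exp (Complex.I * ((Real.log n * t : ℝ) : ℂ)) -
      Complex.exp (Complex.I * ((Real.log n * t' : ℝ) : ℂ)) =
      Complex.exp (Complex.I * ((Real.log n * t' : ℝ) : ℂ)) *
        (Complex.exp (Complex.I * ((Real.log n * (t - t') : ℝ) : ℂ)) - 1) := by
    rw [mul_sub, ← Complex.exp_add, mul_one]
    congr 2
    push_cast
    ring
  rw [e1, norm_mul]
  have e2 : ‖Complex.exp (Complex.I * ((Real.log n * t' : ℝ) : ℂ))‖ = 1 := by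
    rw [mul_comm, Complex.norm_exp_ofReal_mul_I]
  rw [e2, one_mul]
  refine (Real.norm_exp_I_mul_ofReal_sub_one_le).trans ?_
  rw [Real.norm_eq_abs, abs_mul]
  have h1 : |Real.log n| ≤ n := by
    have hn1 : (1 : ℝ) ≤ n := by exact_mod_cast hn
    rw [abs_of_nonneg (Real.log_nonneg hn1)]
    exact (Real.log_le_sub_one_of_pos (by linarith)).trans (by linarith)
  exact mul_le_mul_of_nonneg_right h1 (abs_nonneg _)

private theorem ORD_sum_wt_zero (S : Type) [Fintype S] [DecidableEq S] :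
    ∑ η : S → ℤˣ, wt (fun _ => 0) η = 1 := by
  have h : ∀ η : S → ℤˣ, wt (fun _ => (0 : ℝ)) η = (1 / 2 : ℝ) ^ Fintype.card S := by
    intro η
    simp [wt]
  rw [Finset.sum_congr rfl (fun η _ => h η), Finset.sum_const, Finset.card_univ, Fintype.card_fun,
    Fintype.card_units_int, nsmul_eq_mul]
  push_cast
  rw [← mul_pow]
  norm_num

private theorem ORD_log_X {q : ℕ} (hq : 1 ≤ q) (t : ℝ) : Real.log 2 ≤ Real.log (q * (2 + |t|)) := by
  apply Real.log_le_log (by norm_num)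
  have h1 : (1 : ℝ) ≤ q := by exact_mod_cast hq
  have h2 := abs_nonneg t
  nlinarith

private theorem ORD_small {c : Finset ℕ} {k : ℕ} (hc : c ⊆ Ioc (2 ^ k) (2 ^ (k + 1)))
    (f : ℕ → ℤˣ) (q : ℕ) (χ : DirichletCharacter ℂ q) (t : ℝ) (y : ℕ) :
    ‖∑ p ∈ c.filter (· ≤ y), ((f p : ℤ) : ℂ) * χ (p : ZMod q) * npi p t‖ ≤ (2 : ℝ) ^ k := by
  refine (norm_sum_le _ _).trans ?_
  calc ∑ p ∈ c.filter (· ≤ y), ‖((f p : ℤ) : ℂ) * χ (p : ZMod q) * npi p t‖
      ≤ ∑ _p ∈ c.filter (· ≤ y), (1 : ℝ) := by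
        refine sum_le_sum fun p _ => ?_
        rw [norm_mul, norm_mul]
        have h1 : ‖((f p : ℤ) : ℂ)‖ = 1 := by
          rcases Int.units_eq_one_or (f p) with h | h <;> rw [h] <;> simp
        rw [h1, one_mul]
        calc ‖χ (p : ZMod q)‖ * ‖npi p t‖ ≤ 1 * 1 :=
              mul_le_mul (χ.norm_le_one _) (ORD_norm_npi_le _ _) (norm_nonneg _) zero_le_one
          _ = 1 := one_mul 1
    _ = ((c.filter (· ≤ y)).card : ℝ) := by simp
    _ ≤ (2 : ℝ) ^ k := by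
        have : (c.filter (· ≤ y)).card ≤ 2 ^ k := by
          refine (card_filter_le _ _).trans ((card_le_card hc).trans ?_)
          rw [Nat.card_Ioc, pow_succ]
          omega
        exact_mod_cast this

private theorem ORD_large (A : ℝ) (M₀ : ℕ) (hA : 0 < A) (hM₀ : 2 ≤ M₀)
    (hUR : ∀ M : ℕ, M₀ ≤ M →
    ∀ (S : Type) [Fintype S] [DecidableEq S], Fintype.card S ≤ M → ∀ h : S → ℝ,
    (∀ s, |h s| ≤ 1) → ∀ V : ℝ, 1 ≤ V → V ≤ (M : ℝ) ^ 4 →
    ∀ w : (q : ℕ) → DirichletCharacter ℂ q → ℝ → ℕ → S → ℂ,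
    (∀ q χ t y, ∑ s, ‖w q χ t y s‖ ^ 2 ≤ V) →
    (∀ q χ t t' y s, ‖w q χ t y s - w q χ t' y s‖ ≤ (M : ℝ) ^ 4 * |t - t'|) →
    open Classical in
    ∑ η : S → ℤˣ, wt h η *
        (if ∃ (q : ℕ) (χ : DirichletCharacter ℂ q) (t : ℝ) (y : ℕ), 1 ≤ q ∧ y ≤ 4 * M ∧
          A * Real.sqrt V * Real.sqrt (Real.log (q * (2 + |t|)) * Real.log M) <
            ‖∑ s, ((((η s : ℤ) : ℝ) - h s : ℝ) : ℂ) * w q χ t y s‖ then 1 else 0)
      ≤ 1 / (M : ℝ) ^ 10) (k : ℕ) (hk : M₀ ≤ 2 ^ k) (c : Finset ℕ)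
    (hc : c ⊆ Ioc (2 ^ k) (2 ^ (k + 1))) :
    ∃ w : ({p // p ∈ c} → ℤˣ) → ℝ, IsPW w ∧ (∀ x, w x ≤ 2 * wt (fun _ => 0) x) ∧
      ∀ f : ℕ → ℤˣ, 0 < w (rs c f) →
        ∀ (q : ℕ) (χ : DirichletCharacter ℂ q) (t : ℝ) (y : ℕ), 1 ≤ q →
          ‖∑ p ∈ c.filter (· ≤ y), ((f p : ℤ) : ℂ) * χ (p : ZMod q) * npi p t‖ ≤
            A * Real.sqrt (2 ^ k) * (k + 1) * Real.sqrt (Real.log (q * (2 + |t|))) := by
  classical
  have hmem : ∀ p ∈ c, 2 ^ k < p ∧ p ≤ 2 ^ (k + 1) := fun p hp => mem_Ioc.1 (hc hp)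
  have hcard : Fintype.card {p // p ∈ c} ≤ 2 ^ k := by
    rw [Fintype.card_coe]
    refine (card_le_card hc).trans ?_
    rw [Nat.card_Ioc, pow_succ]
    omega
  have h2k : (2 : ℝ) ≤ 2 ^ k := by
    have : (2 : ℕ) ≤ 2 ^ k := hM₀.trans hk
    exact_mod_cast this
  set w : (q : ℕ) → DirichletCharacter ℂ q → ℝ → ℕ → {p // p ∈ c} → ℂ :=
    fun q χ t y s => if (s : ℕ) ≤ y then χ ((s : ℕ) : ZMod q) * npi s t else 0 with hw
  have hw1 : ∀ q χ t y s, ‖w q χ t y s‖ ≤ 1 := by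
    intro q χ t y s
    simp only [hw]
    split_ifs
    · rw [norm_mul]
      calc ‖χ ((s : ℕ) : ZMod q)‖ * ‖npi s t‖ ≤ 1 * 1 :=
            mul_le_mul (χ.norm_le_one _) (ORD_norm_npi_le _ _) (norm_nonneg _) zero_le_one
        _ = 1 := one_mul 1
    · simp
  have hsum : ∀ q χ t y, ∑ s, ‖w q χ t y s‖ ^ 2 ≤ (2 : ℝ) ^ k := by
    intro q χ t y
    calc ∑ s, ‖w q χ t y s‖ ^ 2 ≤ ∑ _s : {p // p ∈ c}, (1 : ℝ) :=
          sum_le_sum fun s _ => pow_le_one₀ (norm_nonneg _) (hw1 q χ t y s)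
      _ = Fintype.card {p // p ∈ c} := by simp
      _ ≤ (2 : ℝ) ^ k := by exact_mod_cast hcard
  have hlip : ∀ q χ t t' y s, ‖w q χ t y s - w q χ t' y s‖ ≤
      (((2 ^ k : ℕ) : ℝ)) ^ 4 * |t - t'| := by
    intro q χ t t' y s
    have hs := hmem s s.2
    have hs0 : 0 < (s : ℕ) := lt_of_le_of_lt (Nat.zero_le _) hs.1
    simp only [hw]
    split_ifs
    · rw [← mul_sub, norm_mul]
      have h1 : ‖χ ((s : ℕ) : ZMod q)‖ ≤ 1 := χ.norm_le_one _
      have h2 := ORD_npi_lip hs0 t t'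
      have h3 : ((s : ℕ) : ℝ) ≤ (((2 ^ k : ℕ) : ℝ)) ^ 4 := by
        have h4 : ((s : ℕ) : ℝ) ≤ 2 ^ (k + 1) := by exact_mod_cast hs.2
        push_cast
        rw [pow_succ] at h4
        nlinarith [pow_le_pow_left₀ (by norm_num : (0 : ℝ) ≤ 2) h2k 3,
          pow_le_pow_left₀ (by norm_num : (0 : ℝ) ≤ 2) h2k 2]
      calc ‖χ ((s : ℕ) : ZMod q)‖ * ‖npi s t - npi s t'‖ ≤ 1 * (s * |t - t'|) :=
            mul_le_mul h1 h2 (norm_nonneg _) zero_le_one
        _ = s * |t - t'| := one_mul _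
        _ ≤ _ := mul_le_mul_of_nonneg_right h3 (abs_nonneg _)
    · simp only [sub_self, norm_zero]
      positivity
  have hmain := hUR (2 ^ k) hk {p // p ∈ c} hcard (fun _ => 0) (fun _ => by simp) ((2 : ℝ) ^ k)
    (by linarith) (by push_cast; nlinarith [pow_le_pow_left₀ (by norm_num : (0 : ℝ) ≤ 2) h2k 3,
          pow_le_pow_left₀ (by norm_num : (0 : ℝ) ≤ 2) h2k 2]) w hsum hlip
  set bad : ({p // p ∈ c} → ℤˣ) → Prop := fun η =>
      ∃ (q : ℕ) (χ : DirichletCharacter ℂ q) (t : ℝ) (y : ℕ),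
      1 ≤ q ∧ y ≤ 4 * 2 ^ k ∧
      A * Real.sqrt (2 ^ k) * Real.sqrt (Real.log (q * (2 + |t|)) * Real.log (2 ^ k : ℕ)) <
        ‖∑ s, ((((η s : ℤ) : ℝ) - 0 : ℝ) : ℂ) * w q χ t y s‖ with hbad
  set P : ℝ := ∑ η : {p // p ∈ c} → ℤˣ, wt (fun _ => (0 : ℝ)) η * (if bad η then 1 else 0) with hP
  have hP1 : P ≤ 1 / ((2 ^ k : ℕ) : ℝ) ^ 10 := hmain
  have hP2 : P ≤ 1 / 2 := by
    refine hP1.trans (one_div_le_one_div_of_le (by norm_num) ?_)
    push_cast
    calc (2 : ℝ) ≤ 2 ^ k := h2k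
      _ = (2 ^ k) ^ 1 := (pow_one _).symm
      _ ≤ (2 ^ k) ^ 10 := pow_le_pow_right₀ (by linarith) (by norm_num)
  have hwt0 : ∀ η : {p // p ∈ c} → ℤˣ, 0 ≤ wt (fun _ => (0 : ℝ)) η := by
    intro η
    simp only [wt, mul_zero, add_zero]
    positivity
  have hG : ∑ η : {p // p ∈ c} → ℤˣ, (if bad η then 0 else wt (fun _ => (0 : ℝ)) η) = 1 - P := by
    rw [← ORD_sum_wt_zero {p // p ∈ c}, hP, ← sum_sub_distrib]
    refine sum_congr rfl fun η _ => ?_
    split_ifs <;> simp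
  have hGpos : 0 < 1 - P := by linarith
  refine ⟨fun η => (if bad η then 0 else wt (fun _ => (0 : ℝ)) η) / (1 - P), ⟨?_, ?_⟩, ?_, ?_⟩
  · intro η
    apply div_nonneg _ hGpos.le
    split_ifs
    · exact le_rfl
    · exact hwt0 η
  · rw [← sum_div, hG, div_self hGpos.ne']
  · intro η
    dsimp only
    rw [div_le_iff₀ hGpos]
    have h1 := hwt0 η
    split_ifs
    · have : 0 ≤ 2 * wt (fun _ => (0 : ℝ)) η * (1 - P) := by positivity
      exact this
    · nlinarith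
  · intro f hf q χ t y hq
    have hnb : ¬ bad (rs c f) := by
      intro hb
      simp only [hb, if_true, zero_div, lt_irrefl] at hf
    have e1 : ∑ p ∈ c.filter (· ≤ y), ((f p : ℤ) : ℂ) * χ (p : ZMod q) * npi p t =
        ∑ s : {p // p ∈ c}, (((((rs c f) s : ℤ) : ℝ) - 0 : ℝ) : ℂ) *
          w q χ t (min y (4 * 2 ^ k)) s := by
      rw [sum_filter, ← sum_coe_sort c]
      refine sum_congr rfl fun s _ => ?_
      have hs := hmem s s.2
      have h4 : (s : ℕ) ≤ 4 * 2 ^ k := by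
        have := hs.2
        rw [pow_succ] at this
        omega
      simp only [hw, rs]
      by_cases hy : (s : ℕ) ≤ y
      · rw [if_pos hy, if_pos (le_min hy h4)]
        push_cast
        ring
      · rw [if_neg hy, if_neg (fun h => hy (h.trans (min_le_left _ _))), mul_zero]
    have h5 : ‖∑ s : {p // p ∈ c}, (((((rs c f) s : ℤ) : ℝ) - 0 : ℝ) : ℂ) *
          w q χ t (min y (4 * 2 ^ k)) s‖ ≤
        A * Real.sqrt (2 ^ k) * Real.sqrt (Real.log (q * (2 + |t|)) * Real.log (2 ^ k : ℕ)) := by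
      by_contra hcon
      exact hnb ⟨q, χ, t, _, hq, min_le_right _ _, not_le.1 hcon⟩
    rw [← e1] at h5
    refine h5.trans ?_
    have hL : 0 ≤ Real.log (q * (2 + |t|)) :=
      (Real.log_nonneg (by norm_num)).trans (ORD_log_X hq t)
    rw [Real.sqrt_mul hL]
    have h6 : Real.sqrt (Real.log ((2 ^ k : ℕ) : ℝ)) ≤ (k : ℝ) + 1 := by
      rw [Real.sqrt_le_left (by positivity)]
      push_cast
      rw [Real.log_pow]
      have : Real.log 2 ≤ 1 := by
        have := Real.log_two_lt_d9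
        linarith
      have hk0 : (0 : ℝ) ≤ k := by positivity
      nlinarith
    have h7 : 0 ≤ A * Real.sqrt (2 ^ k) := by positivity
    calc A * Real.sqrt (2 ^ k) * (Real.sqrt (Real.log (q * (2 + |t|))) *
          Real.sqrt (Real.log ((2 ^ k : ℕ) : ℝ)))
        ≤ A * Real.sqrt (2 ^ k) * (Real.sqrt (Real.log (q * (2 + |t|))) * ((k : ℝ) + 1)) :=
          mul_le_mul_of_nonneg_left (mul_le_mul_of_nonneg_left h6 (Real.sqrt_nonneg _)) h7
      _ = _ := by ring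

theorem ORD : ∃ C : ℝ, 0 < C ∧ ∀ (k : ℕ) (c : Finset ℕ), c ⊆ Ioc (2 ^ k) (2 ^ (k + 1)) →
    ∃ w : ({p // p ∈ c} → ℤˣ) → ℝ, IsPW w ∧ (∀ x, w x ≤ 2 * wt (fun _ => 0) x) ∧
      ∀ f : ℕ → ℤˣ, 0 < w (rs c f) →
        ∀ (q : ℕ) (χ : DirichletCharacter ℂ q) (t : ℝ) (y : ℕ), 1 ≤ q →
          ‖∑ p ∈ c.filter (· ≤ y), ((f p : ℤ) : ℂ) * χ (p : ZMod q) * npi p t‖ ≤
            C * Real.sqrt (2 ^ k) * (k + 1) * Real.sqrt (Real.log (q * (2 + |t|))) := by
  classical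
  obtain ⟨A, M₀, hA, hM₀, hUR⟩ := GB.UR
  have hl2 : 0 < Real.log 2 := Real.log_pos (by norm_num)
  have hsl : 0 < Real.sqrt (Real.log 2) := Real.sqrt_pos.2 hl2
  refine ⟨A + Real.sqrt M₀ / Real.sqrt (Real.log 2), by positivity, fun k c hc => ?_⟩
  by_cases hk : M₀ ≤ 2 ^ k
  · obtain ⟨w, hw1, hw2, hw3⟩ := ORD_large A M₀ hA hM₀ hUR k hk c hc
    refine ⟨w, hw1, hw2, fun f hf q χ t y hq => (hw3 f hf q χ t y hq).trans ?_⟩
    have h1 : 0 ≤ Real.sqrt (2 ^ k) * ((k : ℝ) + 1) * Real.sqrt (Real.log (q * (2 + |t|))) := by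
      positivity
    have h2 : 0 ≤ Real.sqrt M₀ / Real.sqrt (Real.log 2) := by positivity
    nlinarith [mul_nonneg h2 h1]
  · push Not at hk
    have hwt0 : ∀ η : {p // p ∈ c} → ℤˣ, 0 ≤ wt (fun _ => (0 : ℝ)) η := by
      intro η
      simp only [wt, mul_zero, add_zero]
      positivity
    refine ⟨fun η => wt (fun _ => (0 : ℝ)) η, ⟨hwt0, ORD_sum_wt_zero _⟩, ?_, ?_⟩
    · intro η
      have := hwt0 η
      dsimp only
      linarith
    · intro f _ q χ t y hq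
      refine (ORD_small hc f q χ t y).trans ?_
      have hS : (0 : ℝ) ≤ 2 ^ k := by positivity
      have h2 : (2 : ℝ) ^ k = Real.sqrt (2 ^ k) * Real.sqrt (2 ^ k) :=
        (Real.mul_self_sqrt hS).symm
      have h3 : Real.sqrt ((2 : ℝ) ^ k) ≤ Real.sqrt M₀ := by
        apply Real.sqrt_le_sqrt
        exact_mod_cast hk.le
      have h4 : Real.sqrt (Real.log 2) ≤ Real.sqrt (Real.log (q * (2 + |t|))) :=
        Real.sqrt_le_sqrt (ORD_log_X hq t)
      have h5 : (1 : ℝ) ≤ (k : ℝ) + 1 := by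
        have : (0 : ℝ) ≤ k := by positivity
        linarith
      have h6 : Real.sqrt M₀ ≤ (A + Real.sqrt M₀ / Real.sqrt (Real.log 2)) *
          Real.sqrt (Real.log (q * (2 + |t|))) := by
        calc Real.sqrt M₀ = Real.sqrt M₀ / Real.sqrt (Real.log 2) * Real.sqrt (Real.log 2) := by
              field_simp
          _ ≤ (A + Real.sqrt M₀ / Real.sqrt (Real.log 2)) * Real.sqrt (Real.log 2) := by
              apply mul_le_mul_of_nonneg_right _ hsl.le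
              linarith
          _ ≤ _ := by
              apply mul_le_mul_of_nonneg_left h4
              positivity
      calc (2 : ℝ) ^ k = Real.sqrt (2 ^ k) * Real.sqrt (2 ^ k) := h2
        _ ≤ Real.sqrt (2 ^ k) * ((A + Real.sqrt M₀ / Real.sqrt (Real.log 2)) *
            Real.sqrt (Real.log (q * (2 + |t|)))) :=
            mul_le_mul_of_nonneg_left (h3.trans h6) (Real.sqrt_nonneg _)
        _ = (A + Real.sqrt M₀ / Real.sqrt (Real.log 2)) * Real.sqrt (2 ^ k) * 1 *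
            Real.sqrt (Real.log (q * (2 + |t|))) := by ring
        _ ≤ _ := by
            apply mul_le_mul_of_nonneg_right _ (Real.sqrt_nonneg _)
            apply mul_le_mul_of_nonneg_left h5
            positivity

end Pool.Agent.Helper92.CB
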