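import Mathlib
import Pool.Agent.Helper92.CB.Defs

/-!
# Block CB-EXG (MP_b6b996_nt)
Expansion of the correlation sums in the signs, and reduction to a grid of frequencies.
corr_eq: for `n ∈ Icc 1 M` with all `n + h i` squarefree, `∏_i ext f (n + h i) = ∏_i ∏_{p ∣ n + h i} f p = ∏_p f(p)^{#{i : p ∣ n + h i}} = ch (kap h N n) f` (`n + h i ≤ 2N`); if some `n + h i` is not squarefree the product is 0.
grid: `|e(nx) - e(ny/(4N²))| ≤ 2π N/(4N²)` for the nearest grid point modulo 1, the sum has at most `N` terms of modulus `≤ 1`; real and imaginary parts.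
-/

set_option autoImplicit false

namespace Pool.Agent.Helper92.CB

open Finset
open Pool.Agent.Helper92.GB (e ext F npi wt)

/-- the product over the prime factors as a product over all primes up to `2 N` -/
private lemma h99_pf (f : ℕ → ℤ) (m N : ℕ) (h1 : 1 ≤ m) (h2 : m ≤ 2 * N) :
    ∏ p ∈ m.primeFactors, f p =
      ∏ p ∈ (Icc 1 (2 * N)).filter Nat.Prime, if p ∣ m then f p else 1 := by
  rw [← Finset.prod_filter, Finset.filter_filter]
  refine Finset.prod_congr ?_ fun _ _ => rfl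
  ext p
  rw [Nat.mem_primeFactors, Finset.mem_filter, Finset.mem_Icc]
  constructor
  · rintro ⟨hp, hd, _⟩
    exact ⟨⟨hp.one_lt.le, (Nat.le_of_dvd (by omega) hd).trans h2⟩, hp, hd⟩
  · rintro ⟨_, hp, hd⟩
    exact ⟨hp, hd, by omega⟩

private lemma h99_prod {k : ℕ} (h : Fin k → ℕ) (N n : ℕ) (hn1 : 1 ≤ n) (hnN : n ≤ N) (hle : ∀ i, h i ≤ N)
    (f : ℕ → ℤˣ) (hsq : ∀ i, Squarefree (n + h i)) :
    ∏ i, ext (fun n => ((f n : ℤˣ) : ℤ)) (n + h i) = ∏ p ∈ kap h N n, ((f p : ℤˣ) : ℤ) := by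
  have h1 : ∀ i, ext (fun n => ((f n : ℤˣ) : ℤ)) (n + h i) =
      ∏ p ∈ (Icc 1 (2 * N)).filter Nat.Prime, if p ∣ n + h i then ((f p : ℤˣ) : ℤ) else 1 := by
    intro i
    unfold Pool.Agent.Helper92.GB.ext
    rw [if_pos (hsq i)]
    exact h99_pf (fun n => ((f n : ℤˣ) : ℤ)) (n + h i) N (by omega) (by have := hle i; omega)
  rw [Finset.prod_congr rfl fun i _ => h1 i, Finset.prod_comm]
  have h2 : kap h N n = ((Icc 1 (2 * N)).filter Nat.Prime).filter
      (fun p => Odd ((univ.filter fun i => p ∣ n + h i).card)) := by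
    unfold kap
    rw [Finset.filter_filter]
  rw [h2, Finset.prod_filter (s := (Icc 1 (2 * N)).filter Nat.Prime)]
  refine Finset.prod_congr rfl fun p _ => ?_
  rw [← Finset.prod_filter, Finset.prod_const]
  have hf : (((f p : ℤˣ) : ℤ)) ^ 2 = 1 := by
    have := Int.units_sq (f p)
    rw [← Units.val_pow_eq_pow_val, this, Units.val_one]
  split_ifs with ho
  · obtain ⟨c, hc⟩ := ho
    rw [hc, pow_succ, pow_mul, hf, one_pow, one_mul]
  · rw [Nat.not_odd_iff_even] at ho
    obtain ⟨c, hc⟩ := ho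
    rw [hc, ← two_mul, pow_mul, hf, one_pow]

theorem corr_eq {k : ℕ} (h : Fin k → ℕ) (M N : ℕ) (hMN : M ≤ N) (hle : ∀ i, h i ≤ N)
    (f : ℕ → ℤˣ) (x : ℝ) : corr (ext fun n => ((f n : ℤˣ) : ℤ)) h M x =
      ∑ n ∈ sqf h N, if n ≤ M then ((ch (kap h N n) f : ℝ) : ℂ) * e (n * x) else 0 := by
  classical
  unfold corr sqf
  rw [Finset.sum_filter]
  have hsub : Icc 1 M ⊆ Icc 1 N := Finset.Icc_subset_Icc_right hMN
  rw [← Finset.sum_subset hsub (f := fun a => if ∀ i, Squarefree (a + h i) then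
      if a ≤ M then ((ch (kap h N a) f : ℝ) : ℂ) * e (a * x) else 0 else 0)]
  · refine Finset.sum_congr rfl fun n hn => ?_
    rw [Finset.mem_Icc] at hn
    split_ifs with hs hM
    · congr 1
      have := h99_prod h N n hn.1 (hn.2.trans hMN) hle f hs
      have h3 : (((∏ i, ext (fun n => ((f n : ℤˣ) : ℤ)) (n + h i) : ℤ)) : ℂ) =
          ((∏ p ∈ kap h N n, ((f p : ℤˣ) : ℤ) : ℤ) : ℂ) := by rw [this]
      rw [Int.cast_prod] at h3
      rw [h3]
      unfold ch
      push_cast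
      rfl
    · exact absurd hn.2 hM
    · push Not at hs
      obtain ⟨i, hi⟩ := hs
      have h0 : ext (fun n => ((f n : ℤˣ) : ℤ)) (n + h i) = 0 := by
        unfold Pool.Agent.Helper92.GB.ext
        rw [if_neg hi]
      rw [Finset.prod_eq_zero (Finset.mem_univ i) (by rw [h0, Int.cast_zero]), zero_mul]
  · intro n hn hnM
    rw [Finset.mem_Icc] at hn hnM
    have : ¬ n ≤ M := fun hh => hnM ⟨hn.1, hh⟩
    simp [this]

private lemma h99_e_norm (x : ℝ) : ‖e x‖ = 1 := by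
  unfold e
  rw [show (2 * Real.pi * Complex.I * x : ℂ) = ((2 * Real.pi * x : ℝ) : ℂ) * Complex.I by push_cast; ring,
    Complex.norm_exp_ofReal_mul_I]

private lemma h99_e_add (x y : ℝ) : e (x + y) = e x * e y := by
  unfold e; rw [← Complex.exp_add]; congr 1; push_cast; ring

private lemma h99_e_int (m : ℤ) : e (m : ℝ) = 1 := by
  unfold e
  rw [show (2 * Real.pi * Complex.I * ((m : ℝ) : ℂ) : ℂ) = m * (2 * Real.pi * Complex.I) by push_cast; ring]
  exact Complex.exp_int_mul_two_pi_mul_I m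

private lemma h99_e_re (x : ℝ) : (e x).re = Real.cos (2 * Real.pi * x) := by
  unfold e
  rw [show (2 * Real.pi * Complex.I * x : ℂ) = ((2 * Real.pi * x : ℝ) : ℂ) * Complex.I by push_cast; ring,
    Complex.exp_ofReal_mul_I_re]

private lemma h99_e_im (x : ℝ) : (e x).im = Real.sin (2 * Real.pi * x) := by
  unfold e
  rw [show (2 * Real.pi * Complex.I * x : ℂ) = ((2 * Real.pi * x : ℝ) : ℂ) * Complex.I by push_cast; ring,
    Complex.exp_ofReal_mul_I_im]

private lemma h99_e_sub (x y : ℝ) : ‖e x - e y‖ ≤ 2 * Real.pi * |x - y| := by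
  have h1 : e x - e y = e y * (e (x - y) - 1) := by
    rw [mul_sub, ← h99_e_add, mul_one]; congr 2; ring
  rw [h1, norm_mul, h99_e_norm, one_mul]
  unfold e
  rw [show (2 * Real.pi * Complex.I * ((x - y : ℝ) : ℂ) : ℂ) =
    Complex.I * ((2 * Real.pi * (x - y) : ℝ) : ℂ) by push_cast; ring]
  refine (Real.norm_exp_I_mul_ofReal_sub_one_le).trans ?_
  rw [Real.norm_eq_abs, abs_mul, abs_of_pos (by positivity : (0 : ℝ) < 2 * Real.pi)]

private lemma h99_ch_abs (W : Finset ℕ) (f : ℕ → ℤˣ) : |ch W f| ≤ 1 := by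
  unfold ch
  rw [Finset.abs_prod]
  refine Finset.prod_le_one (fun _ _ => abs_nonneg _) fun p _ => ?_
  rcases Int.units_eq_one_or (f p) with hp | hp <;> simp [hp]

theorem grid {k : ℕ} (h : Fin k → ℕ) (M N : ℕ) (hN : 1 ≤ N) (hMN : M ≤ N) (hle : ∀ i, h i ≤ N)
    (f : ℕ → ℤˣ) (X : ℝ)
    (h1 : ∀ y : ℕ, y < 4 * N ^ 2 → |∑ n ∈ sqf h N, (if n ≤ M then
      Real.cos (2 * Real.pi * n * (y / (4 * (N : ℝ) ^ 2))) else 0) * ch (kap h N n) f| ≤ X)
    (h2 : ∀ y : ℕ, y < 4 * N ^ 2 → |∑ n ∈ sqf h N, (if n ≤ M then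
      Real.sin (2 * Real.pi * n * (y / (4 * (N : ℝ) ^ 2))) else 0) * ch (kap h N n) f| ≤ X)
    (x : ℝ) : ‖corr (ext fun n => ((f n : ℤˣ) : ℤ)) h M x‖ ≤ 2 * X + 10 := by
  classical
  rw [corr_eq h M N hMN hle f x]
  have hNr : (1 : ℝ) ≤ N := by exact_mod_cast hN
  have hQ : (0 : ℝ) < 4 * (N : ℝ) ^ 2 := by positivity
  set t : ℝ := Int.fract x with ht
  have ht0 : 0 ≤ t := Int.fract_nonneg x
  have ht1 : t < 1 := Int.fract_lt_one x
  set y : ℕ := ⌊4 * (N : ℝ) ^ 2 * t⌋₊ with hy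
  have hy1 : (y : ℝ) ≤ 4 * (N : ℝ) ^ 2 * t := Nat.floor_le (by positivity)
  have hy2 : 4 * (N : ℝ) ^ 2 * t < y + 1 := Nat.lt_floor_add_one _
  have hylt : y < 4 * N ^ 2 := by
    have : (y : ℝ) < ((4 * N ^ 2 : ℕ) : ℝ) := by
      push_cast
      nlinarith
    exact_mod_cast this
  set u : ℝ := (y : ℝ) / (4 * (N : ℝ) ^ 2) with hu
  have hut : |t - u| ≤ 1 / (4 * (N : ℝ) ^ 2) := by
    have h3 : u ≤ t := by rw [hu, div_le_iff₀ hQ]; linarith
    rw [abs_of_nonneg (by linarith)]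
    have h4 : t < (y + 1) / (4 * (N : ℝ) ^ 2) := by rw [lt_div_iff₀ hQ]; linarith
    have h5 : ((y : ℝ) + 1) / (4 * (N : ℝ) ^ 2) = u + 1 / (4 * (N : ℝ) ^ 2) := by rw [hu]; ring
    linarith
  set S : ℂ := ∑ n ∈ sqf h N, if n ≤ M then ((ch (kap h N n) f : ℝ) : ℂ) * e (n * u) else 0 with hS
  have hSre : S.re = ∑ n ∈ sqf h N, (if n ≤ M then
      Real.cos (2 * Real.pi * n * (y / (4 * (N : ℝ) ^ 2))) else 0) * ch (kap h N n) f := by
    rw [hS, Complex.re_sum]
    refine Finset.sum_congr rfl fun n _ => ?_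
    split_ifs
    · rw [Complex.re_ofReal_mul, h99_e_re, mul_comm, ← hu]
      congr 2; ring
    · simp
  have hSim : S.im = ∑ n ∈ sqf h N, (if n ≤ M then
      Real.sin (2 * Real.pi * n * (y / (4 * (N : ℝ) ^ 2))) else 0) * ch (kap h N n) f := by
    rw [hS, Complex.im_sum]
    refine Finset.sum_congr rfl fun n _ => ?_
    split_ifs
    · rw [Complex.im_ofReal_mul, h99_e_im, mul_comm, ← hu]
      congr 2; ring
    · simp
  have hSn : ‖S‖ ≤ 2 * X := by
    refine (Complex.norm_le_abs_re_add_abs_im S).trans ?_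
    rw [hSre, hSim]
    have := h1 y hylt
    have := h2 y hylt
    linarith
  have hdiff : ‖(∑ n ∈ sqf h N, if n ≤ M then ((ch (kap h N n) f : ℝ) : ℂ) * e (n * x) else 0) - S‖ ≤ 10 := by
    rw [hS, ← Finset.sum_sub_distrib]
    refine (norm_sum_le _ _).trans ?_
    have hcard : ((sqf h N).card : ℝ) ≤ N := by
      have : (sqf h N).card ≤ N := by
        unfold sqf
        refine (Finset.card_filter_le _ _).trans ?_
        rw [Nat.card_Icc]; omega
      exact_mod_cast this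
    have hterm : ∀ n ∈ sqf h N, ‖(if n ≤ M then ((ch (kap h N n) f : ℝ) : ℂ) * e (n * x) else 0) -
        (if n ≤ M then ((ch (kap h N n) f : ℝ) : ℂ) * e (n * u) else 0)‖ ≤ 10 / N := by
      intro n hn
      have hnN : n ≤ N := by
        unfold sqf at hn
        rw [Finset.mem_filter, Finset.mem_Icc] at hn
        exact hn.1.2
      split_ifs
      · rw [← mul_sub, norm_mul]
        have hc : ‖((ch (kap h N n) f : ℝ) : ℂ)‖ ≤ 1 := by
          rw [Complex.norm_real, Real.norm_eq_abs]; exact h99_ch_abs _ _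
        have he1 : e (n * x) = e (n * t) := by
          have h6 : (n : ℝ) * x = n * t + ((n * ⌊x⌋ : ℤ) : ℝ) := by
            push_cast
            rw [ht]
            have := Int.fract_add_floor x
            linear_combination (-(n : ℝ)) * this
          rw [h6, h99_e_add, h99_e_int, mul_one]
        have he2 : ‖e (n * x) - e (n * u)‖ ≤ 10 / N := by
          rw [he1]
          refine (h99_e_sub _ _).trans ?_
          rw [← mul_sub, abs_mul, abs_of_nonneg (by positivity : (0 : ℝ) ≤ (n : ℝ))]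
          have hnr : (n : ℝ) ≤ N := by exact_mod_cast hnN
          have hpi : Real.pi < 4 := by have := Real.pi_lt_d2; linarith
          have hpi0 : 0 < Real.pi := Real.pi_pos
          calc 2 * Real.pi * ((n : ℝ) * |t - u|) ≤ 2 * 4 * ((N : ℝ) * (1 / (4 * (N : ℝ) ^ 2))) := by
                gcongr
            _ = 2 / N := by field_simp
            _ ≤ 10 / N := by gcongr; norm_num
        calc ‖((ch (kap h N n) f : ℝ) : ℂ)‖ * ‖e (n * x) - e (n * u)‖ ≤ 1 * (10 / N) :=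
              mul_le_mul hc he2 (norm_nonneg _) (by norm_num)
          _ = 10 / N := one_mul _
      · rw [sub_zero, norm_zero]; positivity
    refine (Finset.sum_le_sum hterm).trans ?_
    rw [Finset.sum_const, nsmul_eq_mul]
    calc ((sqf h N).card : ℝ) * (10 / N) ≤ N * (10 / N) := by gcongr
      _ = 10 := by field_simp
  calc ‖∑ n ∈ sqf h N, if n ≤ M then ((ch (kap h N n) f : ℝ) : ℂ) * e (n * x) else 0‖
      = ‖((∑ n ∈ sqf h N, if n ≤ M then ((ch (kap h N n) f : ℝ) : ℂ) * e (n * x) else 0) - S) + S‖ := by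
        rw [sub_add_cancel]
    _ ≤ 10 + 2 * X := (norm_add_le _ _).trans (add_le_add hdiff hSn)
    _ = 2 * X + 10 := by ring

end Pool.Agent.Helper92.CB
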