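import Mathlib
import Pool.Agent.Helper92.CB.Defs

/-!
# Block CB-OPD (MP_b6b996_nt)
Two more facts on the averaging operators, by induction on the list.
EL_drop: if `Φ` does not depend on the coordinates in `c i` then neither does `EL c w l Φ` (cells are disjoint), and `ex (c i) (w i) Ψ = Ψ` for such `Ψ`.
EL_sel: `EL c w (i :: l) Φ f = ∑_x w i x * EL c w l Φ (ov (c i) x f)`, so some `x` with `w i x > 0` has `EL c w l Φ (ov (c i) x f) ≤` the average; recurse (the later cells are disjoint from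
`c i`, so strengthen the statement: `f'` agrees with `f` off the cells of the list; `rs (c i) (ov (c i) x f) = x`).
-/

set_option autoImplicit false

namespace Pool.Agent.Helper92.CB

open Finset
open Pool.Agent.Helper92.GB (e ext F npi wt)

private theorem ov_agree (c : Finset ℕ) (x : {p // p ∈ c} → ℤˣ) (f f' : ℕ → ℤˣ) (p : ℕ)
    (h : f p = f' p) : ov c x f p = ov c x f' p := by
  unfold ov
  split_ifs <;> simp [h]

private theorem ov_off (c : Finset ℕ) (x : {p // p ∈ c} → ℤˣ) (f : ℕ → ℤˣ) (p : ℕ)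
    (h : p ∉ c) : ov c x f p = f p := by
  unfold ov
  rw [dif_neg h]

private theorem EL_inv {I : Type} (c : I → Finset ℕ)
    (w : ∀ i, ({p // p ∈ c i} → ℤˣ) → ℝ) (R : Finset I) (Φ : (ℕ → ℤˣ) → ℝ)
    (hΦ : ∀ f f' : ℕ → ℤˣ, (∀ i ∈ R, ∀ p ∈ c i, f p = f' p) → Φ f = Φ f') (l : List I) :
    ∀ f f' : ℕ → ℤˣ, (∀ i ∈ R, ∀ p ∈ c i, f p = f' p) → EL c w l Φ f = EL c w l Φ f' := by
  induction l with
  | nil => intro f f' h; exact hΦ f f' h
  | cons i l ih =>
    intro f f' h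
    change ex (c i) (w i) (EL c w l Φ) f = ex (c i) (w i) (EL c w l Φ) f'
    unfold ex
    refine Finset.sum_congr rfl fun x _ => ?_
    rw [ih (ov (c i) x f) (ov (c i) x f') fun j hj p hp => ov_agree _ _ _ _ _ (h j hj p hp)]

theorem EL_drop {I : Type} [DecidableEq I] (c : I → Finset ℕ)
    (w : ∀ i, ({p // p ∈ c i} → ℤˣ) → ℝ) (hdis : ∀ i j, i ≠ j → Disjoint (c i) (c j))
    (hw : ∀ i, ∑ x, w i x = 1) (l : List I) (R : Finset I) (Φ : (ℕ → ℤˣ) → ℝ)
    (hΦ : ∀ f f' : ℕ → ℤˣ, (∀ i ∈ R, ∀ p ∈ c i, f p = f' p) → Φ f = Φ f') :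
    EL c w l Φ = EL c w (l.filter (· ∈ R)) Φ := by
  induction l with
  | nil => rfl
  | cons i l ih =>
    change ex (c i) (w i) (EL c w l Φ) = _
    rw [ih]
    by_cases hi : i ∈ R
    · rw [List.filter_cons_of_pos (by simpa using hi)]
      rfl
    · rw [List.filter_cons_of_neg (by simpa using hi)]
      funext f
      unfold ex
      have h1 : ∀ x : {p // p ∈ c i} → ℤˣ,
          EL c w (l.filter (· ∈ R)) Φ (ov (c i) x f) = EL c w (l.filter (· ∈ R)) Φ f := by
        intro x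
        refine EL_inv c w R Φ hΦ _ _ _ fun j hj p hp => ?_
        refine ov_off _ _ _ _ fun hpi => ?_
        have hne : i ≠ j := fun h => hi (h ▸ hj)
        exact (Finset.disjoint_left.mp (hdis i j hne)) hpi hp
      simp only [h1]
      rw [← Finset.sum_mul, hw i, one_mul]

private theorem sel_aux {Ω : Type} [Fintype Ω] (w : Ω → ℝ) (hw : IsPW w) (G : Ω → ℝ) :
    ∃ x, 0 < w x ∧ G x ≤ ∑ y, w y * G y := by
  by_contra hcon
  push Not at hcon
  have hpos : ∃ x ∈ (Finset.univ : Finset Ω), 0 < w x := by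
    by_contra h
    push Not at h
    have : ∑ x, w x ≤ 0 := Finset.sum_nonpos h
    rw [hw.2] at this
    norm_num at this
  obtain ⟨x0, _, hx0⟩ := hpos
  set A : ℝ := ∑ y, w y * G y with hA
  have h1 : ∑ y, w y * A < ∑ y, w y * G y := by
    refine Finset.sum_lt_sum (fun y _ => ?_) ⟨x0, Finset.mem_univ _, ?_⟩
    · rcases (hw.1 y).eq_or_lt with h | h
      · rw [← h]; simp
      · exact mul_le_mul_of_nonneg_left (hcon y h).le h.le
    · exact mul_lt_mul_of_pos_left (hcon x0 hx0) hx0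
  rw [← Finset.sum_mul, hw.2, one_mul, ← hA] at h1
  exact lt_irrefl _ h1

private theorem EL_sel_aux {I : Type} (c : I → Finset ℕ) (w : ∀ i, ({p // p ∈ c i} → ℤˣ) → ℝ)
    (hdis : ∀ i j, i ≠ j → Disjoint (c i) (c j)) (hw : ∀ i, IsPW (w i)) (Φ : (ℕ → ℤˣ) → ℝ)
    (l : List I) : l.Nodup → ∀ f : ℕ → ℤˣ,
    ∃ f' : ℕ → ℤˣ, (∀ i ∈ l, 0 < w i (rs (c i) f')) ∧ Φ f' ≤ EL c w l Φ f ∧
      ∀ n, (∀ i ∈ l, n ∉ c i) → f' n = f n := by
  induction l with
  | nil =>
    intro _ f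
    exact ⟨f, by simp, le_refl _, fun _ _ => rfl⟩
  | cons i l ih =>
    intro hl f
    rw [List.nodup_cons] at hl
    obtain ⟨x, hx, hle⟩ := sel_aux (w i) (hw i) (fun x => EL c w l Φ (ov (c i) x f))
    obtain ⟨f', h1, h2, h3⟩ := ih hl.2 (ov (c i) x f)
    refine ⟨f', ?_, h2.trans hle, ?_⟩
    · intro j hj
      rcases List.mem_cons.mp hj with rfl | hj
      · have hr : rs (c j) f' = x := by
          funext p
          change f' (p : ℕ) = x p
          rw [h3 (p : ℕ) ?_]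
          · unfold ov
            rw [dif_pos p.2]
          · intro k hk hpk
            have hne : j ≠ k := fun h => hl.1 (h ▸ hk)
            exact (Finset.disjoint_left.mp (hdis j k hne)) p.2 hpk
        rw [hr]; exact hx
      · exact h1 j hj
    · intro n hn
      rw [h3 n fun k hk => hn k (List.mem_cons_of_mem _ hk)]
      exact ov_off _ _ _ _ (hn i List.mem_cons_self)

theorem EL_sel {I : Type} (c : I → Finset ℕ) (w : ∀ i, ({p // p ∈ c i} → ℤˣ) → ℝ)
    (hdis : ∀ i j, i ≠ j → Disjoint (c i) (c j)) (hw : ∀ i, IsPW (w i)) (l : List I)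
    (hl : l.Nodup) (Φ : (ℕ → ℤˣ) → ℝ) (f : ℕ → ℤˣ) :
    ∃ f' : ℕ → ℤˣ, (∀ i ∈ l, 0 < w i (rs (c i) f')) ∧ Φ f' ≤ EL c w l Φ f := by
  obtain ⟨f', h1, h2, _⟩ := EL_sel_aux c w hdis hw Φ l hl f
  exact ⟨f', h1, h2⟩

end Pool.Agent.Helper92.CB
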