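import Mathlib
import Pool.Agent.Helper92.CB.Defs
import Pool.Agent.Helper92.CB.OPS
import Pool.Agent.Helper92.CB.OPD

/-!
# Block CB-EXI (MP_b6b996_nt)
Existence of a sign function avoiding all bad events, with positive weight in every cell.
Proof. Fix `T`. Let `l` be a duplicate free list containing the `i` with `Encodable.encode i < T` and all `i ∈ rel s`, `s < T`. Let `Φ_T f = ∑_{s < T} ∑_θ [X s < |Φ s θ f|]`.
By EL_drop, EL_dom, `[X < |Φ|] ≤ Φ^{2R}/X^{2R}`, EL_mono and linearity, `EL c w l Φ_T 1 ≤ ∑_{s<T} (∏_{i ∈ rel s} D i) card(Θ s) M s / X s^{2R} ≤ 1/2`; EL_sel gives `f_T` with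
positive weights in the cells of `l` and `Φ_T f_T ≤ 1/2`, so `Φ_T f_T = 0`. The sets `K_T` of all `f` good up to `T` in this sense are nonempty, decreasing and closed in the compact space
`ℕ → ℤˣ` (discrete factors; each condition depends on finitely many coordinates), so they have a common point.
-/

set_option autoImplicit false

namespace Pool.Agent.Helper92.CB

open Finset
open Pool.Agent.Helper92.GB (e ext F npi wt)

/-- one bad event -/
private theorem h24_one {I : Type} [DecidableEq I] (c : I → Finset ℕ)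
    (hdis : ∀ i j, i ≠ j → Disjoint (c i) (c j)) (w w0 : ∀ i, ({p // p ∈ c i} → ℤˣ) → ℝ)
    (hw : ∀ i, IsPW (w i)) (hw0 : ∀ i, IsPW (w0 i)) (D : I → ℝ) (hD1 : ∀ i, 1 ≤ D i)
    (hD : ∀ i x, w i x ≤ D i * w0 i x) (rel : Finset I) (Φ : (ℕ → ℤˣ) → ℝ)
    (hdep : ∀ (f f' : ℕ → ℤˣ), (∀ i ∈ rel, ∀ p ∈ c i, f p = f' p) → Φ f = Φ f')
    (R : ℕ) (X M : ℝ) (hX : 0 < X)
    (hmom : ∀ (l : List I), l.Nodup → (∀ i, i ∈ l ↔ i ∈ rel) →
      EL c w0 l (fun f => Φ f ^ (2 * R)) (fun _ => 1) ≤ M)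
    (l : List I) (hl : l.Nodup) (hsub : ∀ i ∈ rel, i ∈ l) :
    EL c w l (fun f => if X < |Φ f| then (1 : ℝ) else 0) (fun _ => 1) ≤
      (∏ i ∈ rel, D i) * (M / X ^ (2 * R)) := by
  classical
  have hXp : 0 < X ^ (2 * R) := by positivity
  have h1 : ∀ f : ℕ → ℤˣ, (if X < |Φ f| then (1 : ℝ) else 0) ≤ Φ f ^ (2 * R) / X ^ (2 * R) := by
    intro f
    have he : Φ f ^ (2 * R) = |Φ f| ^ (2 * R) := by
      rw [pow_mul, pow_mul, sq_abs]
    split_ifs with h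
    · rw [he, le_div_iff₀ hXp, one_mul]
      exact pow_le_pow_left₀ hX.le h.le _
    · rw [he]; positivity
  have hdep' : ∀ (f f' : ℕ → ℤˣ), (∀ i ∈ rel, ∀ p ∈ c i, f p = f' p) →
      Φ f ^ (2 * R) / X ^ (2 * R) = Φ f' ^ (2 * R) / X ^ (2 * R) := by
    intro f f' h
    rw [hdep f f' h]
  refine (EL_mono c w (fun i => (hw i).1) l _ _ h1 _).trans ?_
  rw [EL_drop c w hdis (fun i => (hw i).2) l rel _ hdep']
  set l' := l.filter (· ∈ rel) with hl'
  have hnd : l'.Nodup := hl.filter _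
  have hmem : ∀ i, i ∈ l' ↔ i ∈ rel := by
    intro i
    rw [hl', List.mem_filter]
    simp only [decide_eq_true_eq]
    exact ⟨fun h => h.2, fun h => ⟨hsub i h, h⟩⟩
  have hnn : ∀ f : ℕ → ℤˣ, 0 ≤ Φ f ^ (2 * R) / X ^ (2 * R) := by
    intro f
    have he : Φ f ^ (2 * R) = |Φ f| ^ (2 * R) := by
      rw [pow_mul, pow_mul, sq_abs]
    rw [he]; positivity
  refine (EL_dom c w w0 (fun i => (hw i).1) (fun i => (hw0 i).1) D
    (fun i => le_trans zero_le_one (hD1 i)) hD l' _ hnn _).trans ?_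
  have hprod : (l'.map D).prod = ∏ i ∈ rel, D i := by
    rw [← List.prod_toFinset D hnd]
    refine Finset.prod_congr ?_ fun _ _ => rfl
    ext i
    rw [List.mem_toFinset, hmem]
  rw [hprod]
  have hP : 0 ≤ ∏ i ∈ rel, D i := Finset.prod_nonneg fun i _ => le_trans zero_le_one (hD1 i)
  refine mul_le_mul_of_nonneg_left ?_ hP
  obtain ⟨L, hL⟩ := EL_lin c w0 l' (fun _ => 1)
  have h2 : EL c w0 l' (fun f => Φ f ^ (2 * R) / X ^ (2 * R)) (fun _ => 1) =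
      (X ^ (2 * R))⁻¹ * EL c w0 l' (fun f => Φ f ^ (2 * R)) (fun _ => 1) := by
    rw [← hL, ← hL]
    have h3 : (fun f : ℕ → ℤˣ => Φ f ^ (2 * R) / X ^ (2 * R)) =
        (X ^ (2 * R))⁻¹ • (fun f : ℕ → ℤˣ => Φ f ^ (2 * R)) := by
      funext f
      rw [Pi.smul_apply, smul_eq_mul, div_eq_inv_mul]
    rw [h3, map_smul, smul_eq_mul]
  rw [h2, div_eq_inv_mul]
  exact mul_le_mul_of_nonneg_left (hmom l' hnd hmem) (inv_nonneg.2 hXp.le)

/-- a finite stage -/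
private theorem h24_stage {I : Type} [DecidableEq I] [Encodable I] (c : I → Finset ℕ)
    (hdis : ∀ i j, i ≠ j → Disjoint (c i) (c j)) (w w0 : ∀ i, ({p // p ∈ c i} → ℤˣ) → ℝ)
    (hw : ∀ i, IsPW (w i)) (hw0 : ∀ i, IsPW (w0 i)) (D : I → ℝ) (hD1 : ∀ i, 1 ≤ D i)
    (hD : ∀ i x, w i x ≤ D i * w0 i x) (Θ : ℕ → Type) [∀ s, Fintype (Θ s)] (rel : ℕ → Finset I)
    (Φ : ∀ s, Θ s → (ℕ → ℤˣ) → ℝ)
    (hdep : ∀ (s : ℕ) (θ : Θ s) (f f' : ℕ → ℤˣ), (∀ i ∈ rel s, ∀ p ∈ c i, f p = f' p) →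
      Φ s θ f = Φ s θ f') (R : ℕ → ℕ) (X M : ℕ → ℝ) (hX : ∀ s, 0 < X s)
    (hmom : ∀ (s : ℕ) (θ : Θ s) (l : List I), l.Nodup → (∀ i, i ∈ l ↔ i ∈ rel s) →
      EL c w0 l (fun f => Φ s θ f ^ (2 * R s)) (fun _ => 1) ≤ M s)
    (hsum : ∀ T : ℕ, ∑ s ∈ range T, (∏ i ∈ rel s, D i) * (Fintype.card (Θ s) : ℝ) *
      (M s / X s ^ (2 * R s)) ≤ 1 / 2) (T : ℕ) :
    ∃ f : ℕ → ℤˣ, (∀ i, Encodable.encode i < T → 0 < w i (rs (c i) f)) ∧
      ∀ s < T, ∀ θ : Θ s, |Φ s θ f| ≤ X s := by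
  classical
  have hfin : {i : I | Encodable.encode i < T}.Finite :=
    Set.Finite.preimage (Encodable.encode_injective.injOn) (Set.finite_Iio T)
  set J : Finset I := hfin.toFinset ∪ (range T).biUnion rel with hJ
  set l : List I := J.toList with hl
  have hnd : l.Nodup := J.nodup_toList
  set Φ' : (ℕ → ℤˣ) → ℝ := ∑ s ∈ range T, ∑ θ : Θ s, (fun f => if X s < |Φ s θ f| then (1 : ℝ) else 0)
    with hΦ'
  obtain ⟨L, hL⟩ := EL_lin c w l (fun _ => 1)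
  have hle : EL c w l Φ' (fun _ => 1) ≤ 1 / 2 := by
    rw [← hL, hΦ', map_sum]
    refine le_trans (Finset.sum_le_sum fun s hs => ?_) (hsum T)
    rw [map_sum]
    have h1 : ∀ θ ∈ (Finset.univ : Finset (Θ s)),
        L (fun f => if X s < |Φ s θ f| then (1 : ℝ) else 0) ≤
          (∏ i ∈ rel s, D i) * (M s / X s ^ (2 * R s)) := by
      intro θ _
      rw [hL]
      refine h24_one c hdis w w0 hw hw0 D hD1 hD (rel s) (Φ s θ) (hdep s θ) (R s) (X s) (M s) (hX s)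
        (hmom s θ) l hnd ?_
      intro i hi
      rw [hl, Finset.mem_toList, hJ, Finset.mem_union, Finset.mem_biUnion]
      exact Or.inr ⟨s, hs, hi⟩
    refine (Finset.sum_le_sum h1).trans (le_of_eq ?_)
    rw [Finset.sum_const, Finset.card_univ, nsmul_eq_mul]
    ring
  obtain ⟨f, hf1, hf2⟩ := EL_sel c w hdis hw l hnd Φ' (fun _ => 1)
  refine ⟨f, ?_, ?_⟩
  · intro i hi
    apply hf1
    rw [hl, Finset.mem_toList, hJ, Finset.mem_union]
    left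
    rw [Set.Finite.mem_toFinset]
    exact hi
  · intro s hs θ
    by_contra hcon
    rw [not_le] at hcon
    have h2 : Φ' f = ∑ s ∈ range T, ∑ θ : Θ s, (if X s < |Φ s θ f| then (1 : ℝ) else 0) := by
      rw [hΦ', Finset.sum_apply]
      refine Finset.sum_congr rfl fun s _ => ?_
      rw [Finset.sum_apply]
    have h3 : (1 : ℝ) ≤ Φ' f := by
      rw [h2]
      have h4 : (∑ θ : Θ s, (if X s < |Φ s θ f| then (1 : ℝ) else 0)) ≤
          ∑ s ∈ range T, ∑ θ : Θ s, (if X s < |Φ s θ f| then (1 : ℝ) else 0) :=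
        Finset.single_le_sum (f := fun s => ∑ θ : Θ s, (if X s < |Φ s θ f| then (1 : ℝ) else 0))
          (fun s _ => Finset.sum_nonneg fun θ _ => by split_ifs <;> norm_num) (Finset.mem_range.2 hs)
      have h5 : (if X s < |Φ s θ f| then (1 : ℝ) else 0) ≤
          ∑ θ : Θ s, (if X s < |Φ s θ f| then (1 : ℝ) else 0) :=
        Finset.single_le_sum (f := fun θ => (if X s < |Φ s θ f| then (1 : ℝ) else 0))
          (fun θ _ => by split_ifs <;> norm_num) (Finset.mem_univ θ)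
      rw [if_pos hcon] at h5
      exact h5.trans h4
    linarith

private theorem h24_rs_closed (W : Finset ℕ) (A : Set ({p // p ∈ W} → ℤˣ)) :
    IsClosed {f : ℕ → ℤˣ | rs W f ∈ A} := by
  have hc : Continuous (rs W) := by
    unfold rs
    exact continuous_pi fun p => continuous_apply (p : ℕ)
  exact (isClosed_discrete A).preimage hc

theorem EXI {I : Type} [DecidableEq I] [Encodable I] (c : I → Finset ℕ)
    (hdis : ∀ i j, i ≠ j → Disjoint (c i) (c j)) (w w0 : ∀ i, ({p // p ∈ c i} → ℤˣ) → ℝ)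
    (hw : ∀ i, IsPW (w i)) (hw0 : ∀ i, IsPW (w0 i)) (D : I → ℝ) (hD1 : ∀ i, 1 ≤ D i)
    (hD : ∀ i x, w i x ≤ D i * w0 i x) (Θ : ℕ → Type) [∀ s, Fintype (Θ s)] (rel : ℕ → Finset I)
    (Φ : ∀ s, Θ s → (ℕ → ℤˣ) → ℝ)
    (hdep : ∀ (s : ℕ) (θ : Θ s) (f f' : ℕ → ℤˣ), (∀ i ∈ rel s, ∀ p ∈ c i, f p = f' p) →
      Φ s θ f = Φ s θ f') (R : ℕ → ℕ) (X M : ℕ → ℝ) (hX : ∀ s, 0 < X s)
    (hmom : ∀ (s : ℕ) (θ : Θ s) (l : List I), l.Nodup → (∀ i, i ∈ l ↔ i ∈ rel s) →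
      EL c w0 l (fun f => Φ s θ f ^ (2 * R s)) (fun _ => 1) ≤ M s)
    (hsum : ∀ T : ℕ, ∑ s ∈ range T, (∏ i ∈ rel s, D i) * (Fintype.card (Θ s) : ℝ) *
      (M s / X s ^ (2 * R s)) ≤ 1 / 2) :
    ∃ f : ℕ → ℤˣ, (∀ i, 0 < w i (rs (c i) f)) ∧ ∀ (s : ℕ) (θ : Θ s), |Φ s θ f| ≤ X s := by
  classical
  set K : ℕ → Set (ℕ → ℤˣ) := fun T => {f | (∀ i, Encodable.encode i < T → 0 < w i (rs (c i) f)) ∧
      ∀ s < T, ∀ θ : Θ s, |Φ s θ f| ≤ X s} with hK
  have hdec : ∀ T, K (T + 1) ⊆ K T := by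
    intro T f hf
    exact ⟨fun i hi => hf.1 i (by omega), fun s hs θ => hf.2 s (by omega) θ⟩
  have hne : ∀ T, (K T).Nonempty := fun T =>
    h24_stage c hdis w w0 hw hw0 D hD1 hD Θ rel Φ hdep R X M hX hmom hsum T
  have hcl : ∀ T, IsClosed (K T) := by
    intro T
    have h1 : K T = (⋂ i, ⋂ (_ : Encodable.encode i < T), {f : ℕ → ℤˣ | rs (c i) f ∈ {x | 0 < w i x}}) ∩
        ⋂ s, ⋂ (_ : s < T), ⋂ θ : Θ s, {f : ℕ → ℤˣ | rs ((rel s).biUnion c) f ∈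
          {x | |Φ s θ (ov ((rel s).biUnion c) x (fun _ => 1))| ≤ X s}} := by
      have h2 : ∀ (s : ℕ) (θ : Θ s) (f : ℕ → ℤˣ),
          Φ s θ (ov ((rel s).biUnion c) (rs ((rel s).biUnion c) f) (fun _ => 1)) = Φ s θ f := by
        intro s θ f
        refine hdep s θ _ _ fun i hi p hp => ?_
        have hpW : p ∈ (rel s).biUnion c := Finset.mem_biUnion.2 ⟨i, hi, hp⟩
        unfold ov rs
        rw [dif_pos hpW]
      ext f
      simp only [hK, Set.mem_inter_iff, Set.mem_iInter, Set.mem_ofPred_eq, h2]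
    rw [h1]
    refine IsClosed.inter ?_ ?_
    · exact isClosed_iInter fun i => isClosed_iInter fun _ => h24_rs_closed _ _
    · exact isClosed_iInter fun s => isClosed_iInter fun _ => isClosed_iInter fun θ =>
        h24_rs_closed _ _
  obtain ⟨f, hf⟩ := IsCompact.nonempty_iInter_of_sequence_nonempty_isCompact_isClosed K hdec hne
    (hcl 0).isCompact hcl
  rw [Set.mem_iInter] at hf
  refine ⟨f, fun i => ?_, fun s θ => ?_⟩
  · exact (hf (Encodable.encode i + 1)).1 i (Nat.lt_succ_self _)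
  · exact (hf (s + 1)).2 s (Nat.lt_succ_self _) θ

end Pool.Agent.Helper92.CB
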