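import Mathlib
import Pool.Agent.Helper92.CB.Defs
import Pool.Agent.Helper92.CB.EXI
import Pool.Agent.Helper92.CB.EXG

/-!
# Block CB-PIPE (MP_b6b996_nt)
Union bound over all correlation sums.
Proof. EXI with stages `s` coding `(m, N)` (`Nat.unpair`), `m` coding `k = k0 + m₁` and `ε = 1/(m₂+1)`. For `N ≥ N₀(m)` the parameters `θ` are `(h : Fin k → Fin (N+1) injective, M ≤ N, y < 4N², cos or sin, flip)`,
the test is `Φ f = ∑_{n ∈ sqf h N} a_n ch (kap h N n) f` with `a_n = [n ≤ M] cos/sin(2π n y/(4N²)) * ch (kap h N n) (sg flip)` (note `ch W (σ f) = ch W σ * ch W f`); for `N < N₀(m)` there are no parameters.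
`card Θ ≤ (N+1)^k (N+1) 4N² 2 N`, `∏ D ≤ CD N^5`, `X = N^{1/2+1/(m₂+1)}`, `2R = 2^{r+1}` with `2^r ≥ (m₂+1)(k+14)`, moment `≤ C N^{(1+1/(m₂+1)) 2^r}` (hMB), so the failure term is
`≤ C' N^{k+9} N^{-2^r/(m₂+1)} ≤ C' N^{-5} ≤ 2^{-m-4} N^{-2}` for `N ≥ N₀(m)`. Sum over `m`, `N`: `≤ 1/2`. For `N < N₀(m)` the bound of the conclusion is trivial (constant). `grid` passes to all `x`.
`hdep`: the test depends only on the `f p`, `p` prime `≤ 2N` (`hcov`).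
-/

set_option autoImplicit false

namespace Pool.Agent.Helper92.CB

open Finset
open Pool.Agent.Helper92.GB (e ext F npi wt)

private lemma h56_ch_mul (W : Finset ℕ) (σ f : ℕ → ℤˣ) :
    ch W (fun n => σ n * f n) = ch W σ * ch W f := by
  unfold ch
  rw [← Finset.prod_mul_distrib]
  refine Finset.prod_congr rfl fun p _ => ?_
  push_cast
  rfl

private lemma h56_ch_abs (W : Finset ℕ) (f : ℕ → ℤˣ) : |ch W f| ≤ 1 := by
  unfold ch
  rw [Finset.abs_prod]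
  refine Finset.prod_le_one (fun _ _ => abs_nonneg _) fun p _ => ?_
  rcases Int.units_eq_one_or (f p) with hp | hp <;> simp [hp]

private noncomputable def h56_tr (b : Bool) (x : ℝ) : ℝ := if b then Real.cos x else Real.sin x

private lemma h56_tr_abs (b : Bool) (x : ℝ) : |h56_tr b x| ≤ 1 := by
  unfold h56_tr
  split_ifs
  · exact Real.abs_cos_le_one x
  · exact Real.abs_sin_le_one x

/-- the coefficients -/
private noncomputable def h56_co {k : ℕ} (N : ℕ) (h : Fin k → ℕ) (M y : ℕ) (b : Bool)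
    (σ : ℕ → ℤˣ) (n : ℕ) : ℝ :=
  (if n ≤ M then h56_tr b (2 * Real.pi * n * (y / (4 * (N : ℝ) ^ 2))) else 0) * ch (kap h N n) σ

private lemma h56_co_abs {k : ℕ} (N : ℕ) (h : Fin k → ℕ) (M y : ℕ) (b : Bool)
    (σ : ℕ → ℤˣ) (n : ℕ) : |h56_co N h M y b σ n| ≤ 1 := by
  unfold h56_co
  rw [abs_mul]
  refine mul_le_one₀ ?_ (abs_nonneg _) (h56_ch_abs _ _)
  split_ifs
  · exact h56_tr_abs _ _
  · simp

/-- the test -/
private noncomputable def h56_tst {k : ℕ} (N : ℕ) (h : Fin k → ℕ) (M y : ℕ) (b : Bool)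
    (σ f : ℕ → ℤˣ) : ℝ :=
  ∑ n ∈ sqf h N, h56_co N h M y b σ n * ch (kap h N n) f

private lemma h56_dep {k : ℕ} (N : ℕ) (h : Fin k → ℕ) (M y : ℕ) (b : Bool)
    (σ f f' : ℕ → ℤˣ) (hf : ∀ p : ℕ, p.Prime → p ≤ 2 * N → f p = f' p) :
    h56_tst N h M y b σ f = h56_tst N h M y b σ f' := by
  unfold h56_tst
  refine Finset.sum_congr rfl fun n _ => ?_
  congr 1
  unfold ch
  refine Finset.prod_congr rfl fun p hp => ?_
  unfold kap at hp
  rw [Finset.mem_filter, Finset.mem_Icc] at hp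
  rw [hf p hp.2.1 hp.1.2]

private lemma h56_tst_eq {k : ℕ} (N : ℕ) (h : Fin k → ℕ) (M y : ℕ) (b : Bool)
    (σ f : ℕ → ℤˣ) : ∑ n ∈ sqf h N, (if n ≤ M then
      h56_tr b (2 * Real.pi * n * (y / (4 * (N : ℝ) ^ 2))) else 0) *
        ch (kap h N n) (fun n => σ n * f n) = h56_tst N h M y b σ f := by
  unfold h56_tst h56_co
  refine Finset.sum_congr rfl fun n _ => ?_
  rw [h56_ch_mul, ← mul_assoc]

private lemma h56_card_sqf {k : ℕ} (N : ℕ) (h : Fin k → ℕ) : ((sqf h N).card : ℝ) ≤ N := by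
  have : (sqf h N).card ≤ N := by
    unfold sqf
    refine (Finset.card_filter_le _ _).trans ?_
    rw [Nat.card_Icc]; omega
  exact_mod_cast this

private lemma h56_triv {k : ℕ} (N : ℕ) (h : Fin k → ℕ) (a : ℕ → ℝ) (ha : ∀ n, |a n| ≤ 1)
    (f : ℕ → ℤˣ) : |∑ n ∈ sqf h N, a n * ch (kap h N n) f| ≤ N := by
  refine (Finset.abs_sum_le_sum_abs _ _).trans ?_
  have h1 : ∀ n ∈ sqf h N, |a n * ch (kap h N n) f| ≤ 1 := by
    intro n _
    rw [abs_mul]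
    exact mul_le_one₀ (ha n) (abs_nonneg _) (h56_ch_abs _ _)
  refine (Finset.sum_le_sum h1).trans ?_
  rw [Finset.sum_const, nsmul_eq_mul, mul_one]
  exact h56_card_sqf N h

private lemma h56_ratio (A C ε : ℝ) (hA : 1 ≤ A) (hC : 0 ≤ C) (r q : ℕ)
    (hq : (q : ℝ) ≤ ε * 2 ^ r) :
    C * A ^ ((1 + ε) * 2 ^ r) / (A ^ (1 / 2 + ε)) ^ (2 * 2 ^ r) ≤ C / A ^ q := by
  have hA0 : 0 < A := by linarith
  have h1 : (A ^ (1 / 2 + ε)) ^ (2 * 2 ^ r) = A ^ ((1 + ε) * 2 ^ r) * A ^ (ε * 2 ^ r) := by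
    rw [← Real.rpow_natCast, ← Real.rpow_mul hA0.le, ← Real.rpow_add hA0]
    congr 1
    push_cast
    ring
  have h2 : 0 < A ^ ((1 + ε) * 2 ^ r) := Real.rpow_pos_of_pos hA0 _
  have h3 : A ^ q ≤ A ^ (ε * 2 ^ r) := by
    rw [← Real.rpow_natCast]
    exact Real.rpow_le_rpow_of_exponent_le hA hq
  have h4 : 0 < A ^ q := by positivity
  rw [h1, mul_comm C, mul_div_mul_left _ _ h2.ne']
  exact div_le_div_of_nonneg_left hC h4 h3

private lemma h56_sumN (T : ℕ) : ∑ N ∈ range T, 1 / ((N : ℝ) * (N + 1)) ≤ 1 := by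
  have h : ∀ T : ℕ, ∑ N ∈ range (T + 1), 1 / ((N : ℝ) * (N + 1)) ≤ 1 - 1 / ((T : ℝ) + 1) := by
    intro T
    induction T with
    | zero => simp
    | succ T ih =>
      rw [Finset.sum_range_succ]
      have e1 : (1 : ℝ) / ((((T + 1 : ℕ)) : ℝ) * (((T + 1 : ℕ) : ℝ) + 1)) =
          1 / ((T : ℝ) + 1) - 1 / (((T + 1 : ℕ) : ℝ) + 1) := by
        push_cast
        field_simp
        ring
      rw [e1]
      linarith
  rcases T with _ | T
  · simp
  · refine (h T).trans ?_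
    have : (0 : ℝ) ≤ 1 / ((T : ℝ) + 1) := by positivity
    linarith

private lemma h56_summ (T : ℕ) : ∑ m ∈ range T, ((1 : ℝ) / 2) ^ (m + 4) ≤ 1 / 8 := by
  have h : ∀ T : ℕ, ∑ m ∈ range T, ((1 : ℝ) / 2) ^ (m + 4) = 1 / 8 - (1 / 8) * (1 / 2) ^ T := by
    intro T
    induction T with
    | zero => simp
    | succ T ih =>
      rw [Finset.sum_range_succ, ih]
      ring
  rw [h T]
  have : (0 : ℝ) ≤ (1 / 8) * (1 / 2) ^ T := by positivity
  linarith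

private lemma h56_sum (T : ℕ) : ∑ s ∈ range T, ((1 : ℝ) / 2) ^ ((Nat.unpair s).1 + 4) *
    (1 / (((Nat.unpair s).2 : ℝ) * ((Nat.unpair s).2 + 1))) ≤ 1 / 2 := by
  have h1 : ∑ s ∈ range T, ((1 : ℝ) / 2) ^ ((Nat.unpair s).1 + 4) *
      (1 / (((Nat.unpair s).2 : ℝ) * ((Nat.unpair s).2 + 1))) =
      ∑ x ∈ (range T).image Nat.unpair, ((1 : ℝ) / 2) ^ (x.1 + 4) *
        (1 / ((x.2 : ℝ) * (x.2 + 1))) := by
    rw [Finset.sum_image]
    intro a _ b _ hab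
    have := congrArg (fun x : ℕ × ℕ => Nat.pair x.1 x.2) hab
    simpa using this
  rw [h1]
  have hsub : (range T).image Nat.unpair ⊆ range T ×ˢ range T := by
    intro x hx
    rw [Finset.mem_image] at hx
    obtain ⟨s, hs, rfl⟩ := hx
    rw [Finset.mem_range] at hs
    rw [Finset.mem_product, Finset.mem_range, Finset.mem_range]
    exact ⟨(Nat.unpair_left_le s).trans_lt hs, (Nat.unpair_right_le s).trans_lt hs⟩
  refine (Finset.sum_le_sum_of_subset_of_nonneg hsub fun x _ _ => by positivity).trans ?_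
  have h2 : ∑ x ∈ range T ×ˢ range T, ((1 : ℝ) / 2) ^ (x.1 + 4) * (1 / ((x.2 : ℝ) * (x.2 + 1))) =
      (∑ m ∈ range T, ((1 : ℝ) / 2) ^ (m + 4)) * ∑ N ∈ range T, 1 / ((N : ℝ) * (N + 1)) := by
    rw [Finset.sum_mul_sum, Finset.sum_product]
  rw [h2]
  have h3 := h56_summ T
  have h4 := h56_sumN T
  have h5 : 0 ≤ ∑ N ∈ range T, 1 / ((N : ℝ) * (N + 1)) := Finset.sum_nonneg fun N _ => by positivity
  have h6 : 0 ≤ ∑ m ∈ range T, ((1 : ℝ) / 2) ^ (m + 4) := Finset.sum_nonneg fun N _ => by positivity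
  calc (∑ m ∈ range T, ((1 : ℝ) / 2) ^ (m + 4)) * ∑ N ∈ range T, 1 / ((N : ℝ) * (N + 1))
      ≤ (1 / 8) * 1 := mul_le_mul h3 h4 h5 (by norm_num)
    _ ≤ 1 / 2 := by norm_num

private lemma h56_count (N k G c : ℕ) (hN : 1 ≤ N) (hG : G ≤ N)
    (hc : c ≤ (N + 1) ^ k * ((N + 1) * (4 * N ^ 2 * (2 * G)))) :
    (c : ℝ) ≤ 8 * 2 ^ (k + 1) * (N : ℝ) ^ (k + 4) := by
  have h0 : N + 1 ≤ 2 * N := by omega
  have h4 : c ≤ (2 * N) ^ k * ((2 * N) * (4 * N ^ 2 * (2 * N))) := by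
    refine hc.trans ?_
    gcongr
  have h5 : (c : ℝ) ≤ (2 * (N : ℝ)) ^ k * ((2 * N) * (4 * (N : ℝ) ^ 2 * (2 * N))) := by
    exact_mod_cast h4
  refine h5.trans (le_of_eq ?_)
  rw [mul_pow]
  ring

/-- the failure term of one stage -/
private lemma h56_term (A C CD P K : ℝ) (m k : ℕ) (hA : 1 ≤ A) (hC : 0 ≤ C) (hCD : 0 ≤ CD)
    (_hP0 : 0 ≤ P) (hP : P ≤ CD * A ^ 5) (hK : K ≤ 8 * 2 ^ (k + 1) * A ^ (k + 4))
    (hK0 : 0 ≤ K) (Q : ℝ) (hQ0 : 0 ≤ Q) (hQ : Q ≤ C / A ^ (k + 14))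
    (hA2 : 2 * (8 * 2 ^ (k + 1) * CD * C) * 2 ^ (m + 4) ≤ A) :
    P * K * Q ≤ (1 / 2) ^ (m + 4) * (1 / (A * (A + 1))) := by
  have hA0 : 0 < A := by linarith
  have h1 : P * K * Q ≤ (CD * A ^ 5) * (8 * 2 ^ (k + 1) * A ^ (k + 4)) * (C / A ^ (k + 14)) := by
    gcongr
  have h2 : (CD * A ^ 5) * (8 * 2 ^ (k + 1) * A ^ (k + 4)) * (C / A ^ (k + 14)) =
      (8 * 2 ^ (k + 1) * CD * C) / A ^ 5 := by
    have e1 : A ^ (k + 14) = A ^ 5 * A ^ (k + 4) * A ^ 5 := by ring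
    rw [e1]
    field_simp
  rw [h2] at h1
  refine h1.trans ?_
  have hpow : (0 : ℝ) < 2 ^ (m + 4) := by positivity
  have h3 : (1 / 2 : ℝ) ^ (m + 4) * (1 / (A * (A + 1))) = 1 / (2 ^ (m + 4) * (A * (A + 1))) := by
    rw [div_pow, one_pow]
    field_simp
  rw [h3, div_le_div_iff₀ (by positivity) (by positivity)]
  set B : ℝ := 8 * 2 ^ (k + 1) * CD * C with hB
  have hB0 : 0 ≤ B := by positivity
  have h40 : A * (A + 1) ≤ 2 * A ^ 2 := by nlinarith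
  have h4 : B * (2 ^ (m + 4) * (A * (A + 1))) ≤ B * (2 ^ (m + 4) * (2 * A ^ 2)) :=
    mul_le_mul_of_nonneg_left (mul_le_mul_of_nonneg_left h40 hpow.le) hB0
  have h5 : B * (2 ^ (m + 4) * (2 * A ^ 2)) = (2 * B * 2 ^ (m + 4)) * A ^ 2 := by ring
  rw [h5] at h4
  have h6 : (2 * B * 2 ^ (m + 4)) * A ^ 2 ≤ A * A ^ 2 := by gcongr
  have h7 : A * A ^ 2 ≤ 1 * A ^ 5 := by
    have h8 : A ^ 3 ≤ A ^ 5 := pow_le_pow_right₀ hA (by norm_num)
    calc A * A ^ 2 = A ^ 3 := by ring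
      _ ≤ 1 * A ^ 5 := by rw [one_mul]; exact h8
  linarith

theorem PIPE (k0 : ℕ) (hk0 : 1 ≤ k0) {I : Type} [DecidableEq I] [Encodable I] (c : I → Finset ℕ)
    (hdis : ∀ i j, i ≠ j → Disjoint (c i) (c j)) (w w0 : ∀ i, ({p // p ∈ c i} → ℤˣ) → ℝ)
    (hw : ∀ i, IsPW (w i)) (hw0 : ∀ i, IsPW (w0 i)) (D : I → ℝ) (hD1 : ∀ i, 1 ≤ D i)
    (hD : ∀ i x, w i x ≤ D i * w0 i x) (rel : ℕ → Finset I)
    (hcov : ∀ (N p : ℕ), p.Prime → p ≤ 2 * N → ∃ i ∈ rel N, p ∈ c i)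
    (CD : ℝ) (hDp : ∀ N : ℕ, 1 ≤ N → ∏ i ∈ rel N, D i ≤ CD * (N : ℝ) ^ 5)
    (Fl : ℕ → Type) [∀ N, Fintype (Fl N)] (sg : ∀ N, Fl N → ℕ → ℤˣ)
    (hFl : ∀ N : ℕ, 1 ≤ N → Fintype.card (Fl N) ≤ N)
    (hMB : ∀ k : ℕ, k0 ≤ k → ∀ (r : ℕ) (ε : ℝ), 0 < ε → ∃ C : ℝ, ∀ N : ℕ, 1 ≤ N →
      ∀ h : Fin k → ℕ, Function.Injective h → (∀ i, h i ≤ N) → ∀ a : ℕ → ℝ, (∀ n, |a n| ≤ 1) →
      ∀ l : List I, l.Nodup → (∀ i, i ∈ l ↔ i ∈ rel N) →
      EL c w0 l (fun f => (∑ n ∈ sqf h N, a n * ch (kap h N n) f) ^ (2 ^ (r + 1))) (fun _ => 1) ≤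
        C * (N : ℝ) ^ ((1 + ε) * 2 ^ r)) :
    ∃ f : ℕ → ℤˣ, (∀ i, 0 < w i (rs (c i) f)) ∧ ∀ k : ℕ, k0 ≤ k → ∀ ε : ℝ, 0 < ε →
      ∃ C : ℝ, ∀ M N : ℕ, M ≤ N → 1 ≤ N → ∀ h : Fin k → ℕ, Function.Injective h →
        (∀ i, h i ≤ N) → ∀ (φ : Fl N) (x : ℝ),
        ‖corr (ext fun n => ((sg N φ n * f n : ℤˣ) : ℤ)) h M x‖ ≤ C * (N : ℝ) ^ (1 / 2 + ε) := by
  classical
  -- the constants
  let kk : ℕ → ℕ := fun m => k0 + (Nat.unpair m).1
  let ee : ℕ → ℝ := fun m => 1 / (((Nat.unpair m).2 : ℝ) + 1)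
  let rr : ℕ → ℕ := fun m => ((Nat.unpair m).2 + 1) * (kk m + 14)
  have hee : ∀ m, 0 < ee m := fun m => by positivity
  have hrr : ∀ m, ((kk m + 14 : ℕ) : ℝ) ≤ ee m * 2 ^ rr m := by
    intro m
    have h1 : rr m < 2 ^ rr m := Nat.lt_two_pow_self
    have h2 : ((rr m : ℕ) : ℝ) ≤ 2 ^ rr m := by exact_mod_cast h1.le
    have h3 : ((rr m : ℕ) : ℝ) = (((Nat.unpair m).2 : ℝ) + 1) * ((kk m + 14 : ℕ) : ℝ) := by
      simp only [rr]
      push_cast
      ring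
    have h4 : ee m * ((rr m : ℕ) : ℝ) = ((kk m + 14 : ℕ) : ℝ) := by
      rw [h3]
      simp only [ee]
      field_simp
    rw [← h4]
    exact mul_le_mul_of_nonneg_left h2 (hee m).le
  choose C hC using fun m => hMB (kk m) (Nat.le_add_right _ _) (rr m) (ee m) (hee m)
  have hCD : 0 ≤ CD := by
    have h1 := hDp 1 le_rfl
    have h2 : (1 : ℝ) ≤ ∏ i ∈ rel 1, D i := by
      have := Finset.prod_le_prod (s := rel 1) (f := fun _ => (1 : ℝ)) (g := D)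
        (fun _ _ => zero_le_one) (fun i _ => hD1 i)
      simpa using this
    have h3 : CD * ((1 : ℕ) : ℝ) ^ 5 = CD := by simp
    linarith
  let N0 : ℕ → ℕ := fun m =>
    ⌈2 * (8 * 2 ^ (kk m + 1) * CD * |C m|) * 2 ^ (m + 4)⌉₊ + 1
  -- the parameters
  let Θ : ℕ → Type := fun s =>
    {θ : (Fin (kk (Nat.unpair s).1) → Fin ((Nat.unpair s).2 + 1)) × Fin ((Nat.unpair s).2 + 1) ×
      Fin (4 * (Nat.unpair s).2 ^ 2) × Bool × Fl (Nat.unpair s).2 //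
      Function.Injective θ.1 ∧ N0 (Nat.unpair s).1 ≤ (Nat.unpair s).2}
  let Φ : ∀ s, Θ s → (ℕ → ℤˣ) → ℝ := fun s θ f =>
    h56_tst (Nat.unpair s).2 (fun i => ((θ.1.1 i : Fin _) : ℕ)) (θ.1.2.1 : ℕ) (θ.1.2.2.1 : ℕ)
      θ.1.2.2.2.1 (sg (Nat.unpair s).2 θ.1.2.2.2.2) f
  let X : ℕ → ℝ := fun s => if (Nat.unpair s).2 = 0 then 1 else
    ((Nat.unpair s).2 : ℝ) ^ (1 / 2 + ee (Nat.unpair s).1)
  let Mo : ℕ → ℝ := fun s => |C (Nat.unpair s).1| *
    ((Nat.unpair s).2 : ℝ) ^ ((1 + ee (Nat.unpair s).1) * 2 ^ rr (Nat.unpair s).1)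
  have hN0 : ∀ m, 1 ≤ N0 m := fun m => by simp only [N0]; omega
  obtain ⟨f, hf1, hf2⟩ := EXI c hdis w w0 hw hw0 D hD1 hD Θ (fun s => rel (Nat.unpair s).2) Φ
    (by
      intro s θ f f' hff
      refine h56_dep _ _ _ _ _ _ _ _ ?_
      intro p hp hp2
      obtain ⟨i, hi, hpi⟩ := hcov _ p hp hp2
      exact hff i hi p hpi)
    (fun s => 2 ^ rr (Nat.unpair s).1) X Mo
    (by
      intro s
      simp only [X]
      split_ifs with h0
      · exact one_pos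
      · exact Real.rpow_pos_of_pos (by exact_mod_cast Nat.pos_of_ne_zero h0) _)
    (by
      intro s θ l hl hmem
      have hN : 1 ≤ (Nat.unpair s).2 := (hN0 _).trans θ.2.2
      have hinj : Function.Injective (fun i => ((θ.1.1 i : Fin _) : ℕ)) := fun a b hab =>
        θ.2.1 (Fin.ext hab)
      have h1 := hC (Nat.unpair s).1 (Nat.unpair s).2 hN (fun i => ((θ.1.1 i : Fin _) : ℕ)) hinj
        (fun i => Nat.lt_succ_iff.1 (θ.1.1 i).2)
        (h56_co (Nat.unpair s).2 (fun i => ((θ.1.1 i : Fin _) : ℕ)) (θ.1.2.1 : ℕ)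
          (θ.1.2.2.1 : ℕ) θ.1.2.2.2.1 (sg (Nat.unpair s).2 θ.1.2.2.2.2))
        (fun n => h56_co_abs _ _ _ _ _ _ n) l hl hmem
      have h2 : (2 : ℕ) * 2 ^ rr (Nat.unpair s).1 = 2 ^ (rr (Nat.unpair s).1 + 1) := by
        rw [pow_succ, mul_comm]
      show EL c w0 l (fun f => Φ s θ f ^ (2 * 2 ^ rr (Nat.unpair s).1)) (fun _ => 1) ≤ Mo s
      rw [h2]
      refine h1.trans ?_
      exact mul_le_mul_of_nonneg_right (le_abs_self _) (Real.rpow_nonneg (Nat.cast_nonneg _) _))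
    (by
      intro T
      refine le_trans (Finset.sum_le_sum fun s _ => ?_) (h56_sum T)
      by_cases hs : N0 (Nat.unpair s).1 ≤ (Nat.unpair s).2
      · have hN : 1 ≤ (Nat.unpair s).2 := (hN0 _).trans hs
        have hNr : (1 : ℝ) ≤ ((Nat.unpair s).2 : ℝ) := by exact_mod_cast hN
        have hP0 : 0 ≤ ∏ i ∈ rel (Nat.unpair s).2, D i :=
          Finset.prod_nonneg fun i _ => le_trans zero_le_one (hD1 i)
        have hcard : ((Fintype.card (Θ s) : ℕ) : ℝ) ≤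
            8 * 2 ^ (kk (Nat.unpair s).1 + 1) * ((Nat.unpair s).2 : ℝ) ^ (kk (Nat.unpair s).1 + 4) := by
          have h1 : Fintype.card (Θ s) ≤ Fintype.card
              ((Fin (kk (Nat.unpair s).1) → Fin ((Nat.unpair s).2 + 1)) × Fin ((Nat.unpair s).2 + 1) ×
              Fin (4 * (Nat.unpair s).2 ^ 2) × Bool × Fl (Nat.unpair s).2) :=
            Fintype.card_le_of_injective (fun θ => θ.1) Subtype.val_injective
          have h2 : Fintype.card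
              ((Fin (kk (Nat.unpair s).1) → Fin ((Nat.unpair s).2 + 1)) × Fin ((Nat.unpair s).2 + 1) ×
              Fin (4 * (Nat.unpair s).2 ^ 2) × Bool × Fl (Nat.unpair s).2) =
              ((Nat.unpair s).2 + 1) ^ (kk (Nat.unpair s).1) * (((Nat.unpair s).2 + 1) *
              (4 * (Nat.unpair s).2 ^ 2 * (2 * Fintype.card (Fl (Nat.unpair s).2)))) := by
            simp only [Fintype.card_prod, Fintype.card_fun, Fintype.card_fin, Fintype.card_bool]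
          have h3 := hFl (Nat.unpair s).2 hN
          exact h56_count _ _ _ _ hN h3 (h1.trans h2.le)
        have hX : X s = ((Nat.unpair s).2 : ℝ) ^ (1 / 2 + ee (Nat.unpair s).1) := by
          simp only [X]
          rw [if_neg (by omega)]
        have hA2 : 2 * (8 * 2 ^ (kk (Nat.unpair s).1 + 1) * CD * |C (Nat.unpair s).1|) *
            2 ^ ((Nat.unpair s).1 + 4) ≤ ((Nat.unpair s).2 : ℝ) := by
          have h1 : (N0 (Nat.unpair s).1 : ℝ) ≤ ((Nat.unpair s).2 : ℝ) := by exact_mod_cast hs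
          refine le_trans ?_ h1
          simp only [N0]
          push_cast
          have := Nat.le_ceil (2 * (8 * 2 ^ (kk (Nat.unpair s).1 + 1) * CD * |C (Nat.unpair s).1|) *
            2 ^ ((Nat.unpair s).1 + 4))
          linarith
        refine h56_term ((Nat.unpair s).2 : ℝ) |C (Nat.unpair s).1| CD _ _ (Nat.unpair s).1
          (kk (Nat.unpair s).1) hNr (abs_nonneg _) hCD hP0 (hDp _ hN) hcard (Nat.cast_nonneg _) _
          ?_ ?_ hA2
        · rw [hX]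
          have : 0 ≤ Mo s := by
            simp only [Mo]
            positivity
          positivity
        · rw [hX]
          simp only [Mo]
          exact h56_ratio _ _ _ hNr (abs_nonneg _) _ _ (hrr _)
      · have hemp : IsEmpty (Θ s) := ⟨fun θ => hs θ.2.2⟩
        rw [Fintype.card_eq_zero]
        simp only [Nat.cast_zero, mul_zero, zero_mul]
        positivity)
  refine ⟨f, hf1, ?_⟩
  intro k hk ε hε
  obtain ⟨j, hj⟩ := exists_nat_one_div_lt hε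
  set m : ℕ := Nat.pair (k - k0) j with hm
  have hmk : kk m = k := by
    simp only [kk, hm, Nat.unpair_pair]
    omega
  have hme : ee m ≤ ε := by
    simp only [ee, hm, Nat.unpair_pair]
    exact hj.le
  refine ⟨2 * (N0 m : ℝ) + 12, ?_⟩
  intro M N hMN hN h hinj hle φ x
  have hNr : (1 : ℝ) ≤ N := by exact_mod_cast hN
  have hpow1 : (1 : ℝ) ≤ (N : ℝ) ^ (1 / 2 + ε) := Real.one_le_rpow hNr (by positivity)
  by_cases hcase : N0 m ≤ N
  · have hX : ∀ (b : Bool) (y : ℕ), y < 4 * N ^ 2 → |∑ n ∈ sqf h N, (if n ≤ M then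
        h56_tr b (2 * Real.pi * n * (y / (4 * (N : ℝ) ^ 2))) else 0) *
        ch (kap h N n) (fun n => sg N φ n * f n)| ≤ (N : ℝ) ^ (1 / 2 + ε) := by
      intro b y hy
      rw [h56_tst_eq]
      have hs1 : (Nat.unpair (Nat.pair m N)).1 = m := by rw [Nat.unpair_pair]
      have hs2 : (Nat.unpair (Nat.pair m N)).2 = N := by rw [Nat.unpair_pair]
      have key : ∀ (s m' N' k' : ℕ), (Nat.unpair s).1 = m' → (Nat.unpair s).2 = N' → kk m' = k' →
          N0 m' ≤ N' → 1 ≤ N' → ∀ (h : Fin k' → ℕ), Function.Injective h → (∀ i, h i ≤ N') →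
          ∀ (M y : ℕ) (b : Bool) (φ : Fl N'), M ≤ N' → y < 4 * N' ^ 2 →
          |h56_tst N' h M y b (sg N' φ) f| ≤ (N' : ℝ) ^ (1 / 2 + ee m') := by
        intro s m' N' k' e1 e2 e3 h3 h4 h h5 h6 M y b φ h7 h8
        subst e3
        subst e1
        subst e2
        let θ : Θ s := ⟨(fun i => ⟨h i, Nat.lt_succ_iff.2 (h6 i)⟩, ⟨M, Nat.lt_succ_iff.2 h7⟩,
          ⟨y, h8⟩, b, φ), fun a b hab => h5 (by simpa using hab), h3⟩
        have h9 := hf2 s θ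
        have h10 : X s = ((Nat.unpair s).2 : ℝ) ^ (1 / 2 + ee (Nat.unpair s).1) := by
          simp only [X]
          rw [if_neg (by omega)]
        rw [h10] at h9
        exact h9
      refine (key (Nat.pair m N) m N k hs1 hs2 hmk hcase hN h hinj hle M y b φ hMN hy).trans ?_
      exact Real.rpow_le_rpow_of_exponent_le hNr (by linarith)
    have hg := grid h M N hN hMN hle (fun n => sg N φ n * f n) ((N : ℝ) ^ (1 / 2 + ε))
      (fun y hy => by simpa [h56_tr] using hX true y hy)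
      (fun y hy => by simpa [h56_tr] using hX false y hy) x
    refine hg.trans ?_
    have h0 : (0 : ℝ) ≤ N0 m := Nat.cast_nonneg _
    nlinarith
  · have hNlt : (N : ℝ) ≤ N0 m := by exact_mod_cast (not_le.1 hcase).le
    have hX : ∀ (b : Bool) (y : ℕ), |∑ n ∈ sqf h N, (if n ≤ M then
        h56_tr b (2 * Real.pi * n * (y / (4 * (N : ℝ) ^ 2))) else 0) *
        ch (kap h N n) (fun n => sg N φ n * f n)| ≤ N := by
      intro b y
      refine h56_triv N h _ (fun n => ?_) _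
      split_ifs
      · exact h56_tr_abs _ _
      · simp
    have hg := grid h M N hN hMN hle (fun n => sg N φ n * f n) (N : ℝ)
      (fun y _ => by simpa [h56_tr] using hX true y)
      (fun y _ => by simpa [h56_tr] using hX false y) x
    refine hg.trans ?_
    have h0 : (0 : ℝ) ≤ N0 m := Nat.cast_nonneg _
    nlinarith

end Pool.Agent.Helper92.CB
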