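import Mathlib
import Pool.Agent.Helper92.CB.Defs
import Pool.Agent.Helper92.GB.A1

/-!
# Block CB-SC2 (MP_b6b996_nt)
Scales growing as fast as we like. Same proof as GB/SC with `G (z j)` in place of `16 * z j ^ 2`.
-/

set_option autoImplicit false

namespace Pool.Agent.Helper92.CB

open Finset
open Pool.Agent.Helper92.GB (e ext F npi wt)

theorem SC2 (G z₀ : ℕ → ℕ) : ∃ z : ℕ → ℕ, (∀ j, G (z j) < z (j + 1)) ∧ (∀ j, z₀ j ≤ z j) ∧
    (∀ j, 16 ≤ z j) ∧
    (∀ j, (z j : ℝ) ^ (1 - 1 / ((j : ℝ) + 10)) ≤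
      ((Ioc (3 * z j) (4 * z j)).filter Nat.Prime).card) := by
  have key : ∀ (j : ℕ) (Z : ℕ), ∃ z : ℕ, Z ≤ z ∧
      (z : ℝ) ^ (1 - 1 / ((j : ℝ) + 10)) ≤ ((Ioc (3 * z) (4 * z)).filter Nat.Prime).card :=
    fun j Z => Pool.Agent.Helper92.GB.A1 (1 / ((j : ℝ) + 10)) (by positivity) Z
  choose f hf1 hf2 using key
  let z : ℕ → ℕ := fun j => Nat.rec (f 0 (max (z₀ 0) 16))
    (fun i zi => f (i + 1) (max (G zi + 1) (max (z₀ (i + 1)) 16))) j
  have h0 : z 0 = f 0 (max (z₀ 0) 16) := rfl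
  have hs : ∀ j, z (j + 1) = f (j + 1) (max (G (z j) + 1) (max (z₀ (j + 1)) 16)) :=
    fun j => rfl
  refine ⟨z, ?_, ?_, ?_, ?_⟩
  · intro j
    rw [hs j]
    have := hf1 (j + 1) (max (G (z j) + 1) (max (z₀ (j + 1)) 16))
    have h2 := le_trans (le_max_left _ _) this
    omega
  · intro j
    cases j with
    | zero => rw [h0]; exact le_trans (le_max_left _ _) (hf1 0 _)
    | succ j =>
      rw [hs j]
      exact le_trans (le_trans (le_max_left _ _) (le_max_right _ _)) (hf1 (j + 1) _)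
  · intro j
    cases j with
    | zero => rw [h0]; exact le_trans (le_max_right _ _) (hf1 0 _)
    | succ j =>
      rw [hs j]
      exact le_trans (le_trans (le_max_right _ _) (le_max_right _ _)) (hf1 (j + 1) _)
  · intro j
    cases j with
    | zero => rw [h0]; exact hf2 0 _
    | succ j => rw [hs j]; exact hf2 (j + 1) _

end Pool.Agent.Helper92.CB
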