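import Mathlib
import Pool.Agent.Helper92.CB.Defs

/-!
# Block CB-UP (MP_b6b996_nt)
Pair correlations alone give the exponent 3/4.
Proof. `|F_N(x)|² = ∑_{m,n ≤ N} g(m) g(n) e((m-n)x) ≤ ∑_{n ≤ N} g(n)² + 2 ∑_{h=1}^{N-1} |∑_{n ≤ N-h} g(n) g(n+h)|`
(collect the pairs with `|m - n| = h`), and `∑_{n ≤ N-h} g(n) g(n+h) = corr g ![0, h] (N-h) 0`, `h ≤ N`: total `≤ N + 2N C N^{1/2+2ε}`.
-/

set_option autoImplicit false

namespace Pool.Agent.Helper92.CB

open Finset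
open Pool.Agent.Helper92.GB (e ext F npi wt)

private lemma UP_re (a b : ℤ) (x y : ℝ) :
    ((a : ℂ) * e x * (starRingEnd ℂ) ((b : ℂ) * e y)).re =
      (a : ℝ) * b * Real.cos (2 * Real.pi * x - 2 * Real.pi * y) := by
  have h : ∀ z : ℝ, e z = (Real.cos (2 * Real.pi * z) : ℂ) + (Real.sin (2 * Real.pi * z) : ℂ) * Complex.I := by
    intro z
    unfold e
    rw [show (2 * Real.pi * Complex.I * z : ℂ) = ((2 * Real.pi * z : ℝ) : ℂ) * Complex.I by
      push_cast; ring, Complex.exp_mul_I, Complex.ofReal_cos, Complex.ofReal_sin]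
  rw [h x, h y, Real.cos_sub]
  generalize Real.cos (2 * Real.pi * x) = c1
  generalize Real.sin (2 * Real.pi * x) = s1
  generalize Real.cos (2 * Real.pi * y) = c2
  generalize Real.sin (2 * Real.pi * y) = s2
  simp
  ring

private lemma UP_normSq (g : ℕ → ℤ) (N : ℕ) (x : ℝ) :
    ‖F g N x‖ ^ 2 = ∑ m ∈ Icc 1 N, ∑ n ∈ Icc 1 N,
      (g m : ℝ) * g n * Real.cos (2 * Real.pi * (m * x) - 2 * Real.pi * (n * x)) := by
  have h1 : ‖F g N x‖ ^ 2 = (F g N x * (starRingEnd ℂ) (F g N x)).re := by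
    rw [Complex.mul_conj, ← Complex.sq_norm, Complex.ofReal_re]
  rw [h1]
  unfold F
  rw [map_sum, Finset.sum_mul_sum, Complex.re_sum]
  apply Finset.sum_congr rfl
  intro m _
  rw [Complex.re_sum]
  apply Finset.sum_congr rfl
  intro n _
  rw [UP_re]

private lemma UP_split (b : ℕ → ℕ → ℝ) (hb : ∀ m n, b m n = b n m) (N : ℕ) :
    ∑ m ∈ Icc 1 N, ∑ n ∈ Icc 1 N, b m n =
      ∑ n ∈ Icc 1 N, b n n + 2 * ∑ h ∈ Icc 1 (N - 1), ∑ m ∈ Icc 1 (N - h), b m (m + h) := by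
  have h1 : ∑ h ∈ Icc 1 (N - 1), ∑ m ∈ Icc 1 (N - h), b m (m + h) =
      ∑ m ∈ Icc 1 N, ∑ n ∈ (Icc 1 N).filter (fun n => m < n), b m n := by
    rw [Finset.sum_sigma', Finset.sum_sigma']
    refine Finset.sum_nbij' (fun x => ⟨x.2, x.2 + x.1⟩) (fun x => ⟨x.2 - x.1, x.1⟩) ?_ ?_ ?_ ?_ ?_
    · rintro ⟨h, m⟩ hx
      simp only [Finset.mem_sigma, Finset.mem_Icc, Finset.mem_filter] at hx ⊢
      omega
    · rintro ⟨m, n⟩ hx
      simp only [Finset.mem_sigma, Finset.mem_Icc, Finset.mem_filter] at hx ⊢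
      omega
    · rintro ⟨h, m⟩ hx
      simp only [Finset.mem_sigma, Finset.mem_Icc] at hx
      simp
    · rintro ⟨m, n⟩ hx
      simp only [Finset.mem_sigma, Finset.mem_Icc, Finset.mem_filter] at hx
      simp only [Sigma.mk.injEq, true_and, heq_eq_eq]
      omega
    · rintro ⟨h, m⟩ hx
      rfl
  have h2 : ∑ m ∈ Icc 1 N, ∑ n ∈ (Icc 1 N).filter (fun n => n < m), b m n =
      ∑ m ∈ Icc 1 N, ∑ n ∈ (Icc 1 N).filter (fun n => m < n), b m n := by
    simp only [Finset.sum_filter]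
    rw [Finset.sum_comm]
    apply Finset.sum_congr rfl
    intro m _
    apply Finset.sum_congr rfl
    intro n _
    rw [hb n m]
  have h3 : ∀ m ∈ Icc 1 N, ∑ n ∈ Icc 1 N, b m n = b m m +
      ∑ n ∈ (Icc 1 N).filter (fun n => n < m), b m n +
      ∑ n ∈ (Icc 1 N).filter (fun n => m < n), b m n := by
    intro m hm
    have h4 : ∀ n, b m n = (if n = m then b m n else 0) + (if n < m then b m n else 0) +
        (if m < n then b m n else 0) := by
      intro n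
      rcases lt_trichotomy n m with h | h | h
      · rw [if_neg (by omega), if_pos h, if_neg (by omega)]; ring
      · rw [if_pos h, if_neg (by omega), if_neg (by omega)]; ring
      · rw [if_neg (by omega), if_neg (by omega), if_pos h]; ring
    rw [Finset.sum_congr rfl (fun n _ => h4 n), Finset.sum_add_distrib, Finset.sum_add_distrib,
      Finset.sum_ite_eq' (Icc 1 N) m, if_pos hm, Finset.sum_filter, Finset.sum_filter]
  rw [Finset.sum_congr rfl h3, Finset.sum_add_distrib, Finset.sum_add_distrib, h2, h1]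
  ring

theorem UP (g : ℕ → ℤ) (hg : ChowlaClass g) (ε : ℝ) (hε : 0 < ε) :
    ∃ C : ℝ, ∀ N : ℕ, 1 ≤ N → ∀ x : ℝ, ‖F g N x‖ ≤ C * (N : ℝ) ^ (3 / 4 + ε) := by
  obtain ⟨C, hC⟩ := hg.corr 2 le_rfl (2 * ε) (by linarith)
  refine ⟨Real.sqrt (1 + 2 * |C|), ?_⟩
  intro N hN x
  have hN1 : (1 : ℝ) ≤ N := by exact_mod_cast hN
  have hN0 : (0 : ℝ) < N := by linarith
  have hsym : ∀ m n : ℕ, (g m : ℝ) * g n * Real.cos (2 * Real.pi * (m * x) - 2 * Real.pi * (n * x)) =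
      (g n : ℝ) * g m * Real.cos (2 * Real.pi * (n * x) - 2 * Real.pi * (m * x)) := by
    intro m n
    rw [← Real.cos_neg, neg_sub]
    ring
  have hdiag : ∀ n ∈ Icc 1 N, (g n : ℝ) * g n * Real.cos (2 * Real.pi * (n * x) - 2 * Real.pi * (n * x)) ≤ 1 := by
    intro n _
    rw [sub_self, Real.cos_zero, mul_one]
    have h1 := hg.sq n
    have h2 : (ArithmeticFunction.moebius n) ^ 2 ≤ 1 := by
      rw [ArithmeticFunction.moebius_sq]
      split_ifs <;> norm_num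
    have h3 : g n * g n ≤ 1 := by rw [← pow_two, h1]; exact h2
    exact_mod_cast h3
  have hoff : ∀ h ∈ Icc 1 (N - 1), ∑ m ∈ Icc 1 (N - h),
      (g m : ℝ) * g (m + h) * Real.cos (2 * Real.pi * (m * x) - 2 * Real.pi * ((m + h : ℕ) * x)) ≤
        |C| * (N : ℝ) ^ (1 / 2 + 2 * ε) := by
    intro h hh
    rw [Finset.mem_Icc] at hh
    have h1 : ∑ m ∈ Icc 1 (N - h),
      (g m : ℝ) * g (m + h) * Real.cos (2 * Real.pi * (m * x) - 2 * Real.pi * ((m + h : ℕ) * x)) =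
        (∑ m ∈ Icc 1 (N - h), (g m : ℝ) * g (m + h)) * Real.cos (2 * Real.pi * (h * x)) := by
      rw [Finset.sum_mul]
      apply Finset.sum_congr rfl
      intro m _
      rw [show 2 * Real.pi * (m * x) - 2 * Real.pi * ((m + h : ℕ) * x) = -(2 * Real.pi * (h * x)) by
        push_cast; ring, Real.cos_neg]
    rw [h1]
    have h2 : ‖corr g (![0, h]) (N - h) 0‖ ≤ C * (N : ℝ) ^ (1 / 2 + 2 * ε) := by
      apply hC (N - h) N (by omega) hN
      · intro i j hij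
        fin_cases i <;> fin_cases j <;> simp at hij ⊢ <;> omega
      · intro i
        fin_cases i
        · simp
        · simp; omega
    have h3 : corr g (![0, h]) (N - h) 0 = ((∑ m ∈ Icc 1 (N - h), (g m : ℝ) * g (m + h) : ℝ) : ℂ) := by
      unfold corr
      push_cast
      apply Finset.sum_congr rfl
      intro m _
      rw [Fin.prod_univ_two]
      simp [e]
    rw [h3, Complex.norm_real, Real.norm_eq_abs] at h2
    calc _ ≤ |(∑ m ∈ Icc 1 (N - h), (g m : ℝ) * g (m + h)) * Real.cos (2 * Real.pi * (h * x))| := le_abs_self _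
      _ = |∑ m ∈ Icc 1 (N - h), (g m : ℝ) * g (m + h)| * |Real.cos (2 * Real.pi * (h * x))| := abs_mul _ _
      _ ≤ |∑ m ∈ Icc 1 (N - h), (g m : ℝ) * g (m + h)| * 1 := by
          gcongr
          exact Real.abs_cos_le_one _
      _ ≤ C * (N : ℝ) ^ (1 / 2 + 2 * ε) := by rw [mul_one]; exact h2
      _ ≤ |C| * (N : ℝ) ^ (1 / 2 + 2 * ε) := by
          gcongr
          exact le_abs_self C
  have hsq : ‖F g N x‖ ^ 2 ≤ (1 + 2 * |C|) * (N : ℝ) ^ (3 / 2 + 2 * ε) := by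
    rw [UP_normSq, UP_split (fun m n => (g m : ℝ) * g n * Real.cos (2 * Real.pi * (m * x) -
      2 * Real.pi * (n * x))) hsym]
    have h1 := Finset.sum_le_sum hdiag
    have h2 := Finset.sum_le_sum hoff
    rw [Finset.sum_const, Nat.card_Icc, nsmul_eq_mul, mul_one] at h1
    rw [Finset.sum_const, Nat.card_Icc, nsmul_eq_mul] at h2
    have h3 : (((N - 1 + 1 - 1 : ℕ)) : ℝ) * (|C| * (N : ℝ) ^ (1 / 2 + 2 * ε)) ≤
        N * (|C| * (N : ℝ) ^ (1 / 2 + 2 * ε)) := by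
      apply mul_le_mul_of_nonneg_right _ (by positivity)
      exact_mod_cast (by omega : N - 1 + 1 - 1 ≤ N)
    have h4 : (((N + 1 - 1 : ℕ)) : ℝ) = N := by simp
    rw [h4] at h1
    have h5 : (N : ℝ) * (N : ℝ) ^ (1 / 2 + 2 * ε) = (N : ℝ) ^ (3 / 2 + 2 * ε) := by
      rw [← Real.rpow_one_add' hN0.le (by positivity)]
      congr 1
      ring
    have h6 : (N : ℝ) ≤ (N : ℝ) ^ (3 / 2 + 2 * ε) := by
      calc (N : ℝ) = (N : ℝ) ^ (1 : ℝ) := (Real.rpow_one _).symm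
        _ ≤ (N : ℝ) ^ (3 / 2 + 2 * ε) := Real.rpow_le_rpow_of_exponent_le hN1 (by linarith)
    have h7 : (N : ℝ) * (|C| * (N : ℝ) ^ (1 / 2 + 2 * ε)) = |C| * (N : ℝ) ^ (3 / 2 + 2 * ε) := by
      rw [← h5]; ring
    refine (add_le_add h1 (mul_le_mul_of_nonneg_left (h2.trans h3) (by norm_num : (0 : ℝ) ≤ 2))).trans ?_
    rw [h7]
    linarith
  have hfin : ‖F g N x‖ ≤ Real.sqrt ((1 + 2 * |C|) * (N : ℝ) ^ (3 / 2 + 2 * ε)) :=
    Real.le_sqrt_of_sq_le hsq
  refine hfin.trans (le_of_eq ?_)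
  rw [Real.sqrt_mul (by positivity)]
  congr 1
  rw [Real.sqrt_eq_rpow, ← Real.rpow_mul hN0.le]
  congr 1
  ring

end Pool.Agent.Helper92.CB
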