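import Mathlib
import Pool.Agent.Helper92.CB.Defs
import Pool.Agent.Helper92.CB.BLK
import Pool.Agent.Helper92.CB.ORD
import Pool.Agent.Helper92.CB.SC2
import Pool.Agent.Helper92.CB.MBA
import Pool.Agent.Helper92.CB.PIPE
import Pool.Agent.Helper92.GB.P3
import Pool.Agent.Helper92.GB.PAR
import Pool.Agent.Helper92.GB.SEQ
import Pool.Agent.Helper92.GB.GLU

/-!
# Block CB-EX (MP_b6b996_nt)
A member of the class with exponent 3/4: assembly of the construction.
-/

set_option autoImplicit false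

namespace Pool.Agent.Helper92.CB

open Finset
open Pool.Agent.Helper92.GB (e ext F npi wt tw PS GRHClass P3 PAR SEQ GLU ext_mul ext_sq)

private lemma norm_unit_mul (s : ℤˣ) (z : ℂ) : ‖((s : ℤ) : ℂ) * z‖ = ‖z‖ := by
  rcases Int.units_eq_one_or s with h | h <;> simp [h]

private lemma split_card (S : Finset ℕ) (x : ℝ) (hx : 1 < x) (h : x ≤ S.card) :
    ∃ L B : Finset ℕ, L ∪ B = S ∧ Disjoint L B ∧ x ≤ 4 * L.card ∧ x ≤ 4 * B.card := by
  obtain ⟨L, hL, hc⟩ := Finset.exists_subset_card_eq (s := S) (n := S.card / 2) (by omega)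
  have hS : 2 ≤ S.card := by
    have : (1 : ℝ) < S.card := lt_of_lt_of_le hx h
    have : 1 < S.card := by exact_mod_cast this
    omega
  have hB : (S \ L).card = S.card - S.card / 2 := by
    rw [Finset.card_sdiff_of_subset hL, hc]
  refine ⟨L, S \ L, Finset.union_sdiff_of_subset hL, Finset.disjoint_sdiff, ?_, ?_⟩
  · rw [hc]
    have : S.card ≤ 4 * (S.card / 2) := by omega
    have : (S.card : ℝ) ≤ 4 * ((S.card / 2 : ℕ) : ℝ) := by exact_mod_cast this
    linarith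
  · rw [hB]
    have : S.card ≤ 4 * (S.card - S.card / 2) := by omega
    have : (S.card : ℝ) ≤ 4 * ((S.card - S.card / 2 : ℕ) : ℝ) := by exact_mod_cast this
    linarith

private lemma ext_congr' {a b : ℕ → ℤ} {m : ℕ} (hm : 0 < m) (h : ∀ p, p ≤ m → a p = b p) :
    ext a m = ext b m := by
  unfold Pool.Agent.Helper92.GB.ext
  split_ifs
  · apply Finset.prod_congr rfl
    intro p hp
    exact h p (Nat.le_of_dvd hm (Nat.dvd_of_mem_primeFactors hp))
  · rfl

private lemma corr_congr {k : ℕ} (h : Fin k → ℕ) (M N : ℕ) (hMN : M ≤ N) (hle : ∀ i, h i ≤ N)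
    (a b : ℕ → ℤ) (x : ℝ) (hab : ∀ p, p ≤ 2 * N → a p = b p) :
    corr (ext a) h M x = corr (ext b) h M x := by
  unfold corr
  apply Finset.sum_congr rfl
  intro n hn
  have hn' := Finset.mem_Icc.mp hn
  congr 1
  apply Finset.prod_congr rfl
  intro i _
  rw [ext_congr' (by omega) (fun p hp => hab p (hp.trans (by have := hle i; omega)))]

private lemma one_of_GRH (g : ℕ → ℤ) (hg : GRHClass g) (ε : ℝ) (hε : 0 < ε) : ∃ C : ℝ,
    ∀ N : ℕ, 1 ≤ N → |((∑ n ∈ Icc 1 N, g n : ℤ) : ℝ)| ≤ C * (N : ℝ) ^ (1 / 2 + ε) := by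
  obtain ⟨C, hC⟩ := hg.bound ε hε
  refine ⟨C, fun N hN => ?_⟩
  have h := hC 1 (1 : DirichletCharacter ℂ 1) 0 N le_rfl hN
  have hN0 : (0 : ℝ) < N := by exact_mod_cast hN
  have e1 : tw g (1 : DirichletCharacter ℂ 1) 0 N = (((∑ n ∈ Icc 1 N, g n : ℤ) : ℝ) : ℂ) := by
    unfold tw
    push_cast
    apply Finset.sum_congr rfl
    intro n _
    have h1 : ((1 : DirichletCharacter ℂ 1) (n : ZMod 1)) = 1 := by
      apply MulChar.one_apply
      exact isUnit_of_subsingleton _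
    have h2 : npi n 0 = 1 := by
      unfold npi
      simp
    rw [h1, h2]
    simp
  rw [e1, Complex.norm_real, Real.norm_eq_abs] at h
  refine h.trans (le_of_eq ?_)
  rw [Real.rpow_add hN0]
  have : ((((1 : ℕ) : ℝ)) * (1 + |(0 : ℝ)|) * (N : ℝ)) = N := by simp
  rw [this]
  ring

private lemma prodz (z : ℕ → ℕ) (hz : ∀ j, 16 * z j ^ 2 < z (j + 1)) (hz1 : ∀ j, 16 ≤ z j) (J : ℕ) :
    ∏ i ∈ range (J + 1), (z i : ℝ) ^ 2 ≤ (z J : ℝ) ^ 4 := by
  induction J with
  | zero =>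
    have : (16 : ℝ) ≤ z 0 := by exact_mod_cast hz1 0
    simp only [zero_add, Finset.range_one, Finset.prod_singleton]
    exact pow_le_pow_right₀ (by linarith) (by norm_num)
  | succ J ih =>
    rw [Finset.prod_range_succ]
    have h1 : (16 : ℝ) ≤ z J := by exact_mod_cast hz1 J
    have h2 : (16 : ℝ) * (z J : ℝ) ^ 2 ≤ z (J + 1) := by exact_mod_cast (hz J).le
    have h3 : (z J : ℝ) ^ 2 ≤ z (J + 1) := by nlinarith [sq_nonneg (z J : ℝ)]
    calc (∏ i ∈ range (J + 1), (z i : ℝ) ^ 2) * (z (J + 1) : ℝ) ^ 2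
        ≤ (z J : ℝ) ^ 4 * (z (J + 1) : ℝ) ^ 2 := by gcongr
      _ = ((z J : ℝ) ^ 2) ^ 2 * (z (J + 1) : ℝ) ^ 2 := by ring
      _ ≤ (z (J + 1) : ℝ) ^ 2 * (z (J + 1) : ℝ) ^ 2 := by gcongr
      _ = (z (J + 1) : ℝ) ^ 4 := by ring

private lemma pow4 (z : ℕ → ℕ) (hz : ∀ j, 16 * z j ^ 2 < z (j + 1)) (hz1 : ∀ j, 16 ≤ z j) (j : ℕ) :
    4 ^ (j + 1) ≤ z j := by
  induction j with
  | zero => have := hz1 0; simpa using le_trans (by norm_num) this
  | succ j ih =>
    have h1 := hz j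
    have h2 := hz1 j
    rw [pow_succ]
    nlinarith

/-- Indices of the special blocks relevant for `N`. -/
private def TT (z : ℕ → ℕ) (N : ℕ) : Finset ℕ := (range (2 * N)).filter fun j => 3 * z j < 2 * N

private lemma mem_TT (z : ℕ → ℕ) (hz : ∀ j, j ≤ z j) (N j : ℕ) : j ∈ TT z N ↔ 3 * z j < 2 * N := by
  unfold TT
  rw [Finset.mem_filter, Finset.mem_range]
  have := hz j
  constructor
  · exact fun h => h.2
  · exact fun h => ⟨by omega, h⟩

private lemma TT_sub (z : ℕ → ℕ) (hm : StrictMono z) (N : ℕ) (h : (TT z N).Nonempty) :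
    ∃ J, z J ≤ N ∧ TT z N ⊆ range (J + 1) := by
  refine ⟨(TT z N).max' h, ?_, ?_⟩
  · have := (mem_TT z (fun j => hm.id_le j) N _).mp ((TT z N).max'_mem h)
    omega
  · intro j hj
    exact Finset.mem_range.mpr (Nat.lt_succ_of_le ((TT z N).le_max' j hj))

private lemma TT_prod (z : ℕ → ℕ) (hz : ∀ j, 16 * z j ^ 2 < z (j + 1)) (hz1 : ∀ j, 16 ≤ z j)
    (hm : StrictMono z) (N : ℕ) (hN : 1 ≤ N) :
    ∏ i ∈ TT z N, (z i : ℝ) ^ 2 ≤ (N : ℝ) ^ 4 := by
  have hN1 : (1 : ℝ) ≤ N := by exact_mod_cast hN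
  by_cases h : (TT z N).Nonempty
  · obtain ⟨J, hJ, hsub⟩ := TT_sub z hm N h
    have hone : ∀ i, (1 : ℝ) ≤ (z i : ℝ) ^ 2 := fun i => by
      have : (16 : ℝ) ≤ z i := by exact_mod_cast hz1 i
      nlinarith
    calc ∏ i ∈ TT z N, (z i : ℝ) ^ 2 ≤ ∏ i ∈ range (J + 1), (z i : ℝ) ^ 2 :=
          Finset.prod_le_prod_of_subset_of_one_le hsub (fun i _ => by positivity)
            (fun i _ _ => hone i)
      _ ≤ (z J : ℝ) ^ 4 := prodz z hz hz1 J
      _ ≤ (N : ℝ) ^ 4 := by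
          have : (z J : ℝ) ≤ N := by exact_mod_cast hJ
          gcongr
  · rw [Finset.not_nonempty_iff_eq_empty] at h
    rw [h, Finset.prod_empty]
    exact one_le_pow₀ hN1

private lemma TT_card (z : ℕ → ℕ) (hz : ∀ j, 16 * z j ^ 2 < z (j + 1)) (hz1 : ∀ j, 16 ≤ z j)
    (hm : StrictMono z) (N : ℕ) (hN : 1 ≤ N) : 4 ^ (TT z N).card ≤ N := by
  by_cases h : (TT z N).Nonempty
  · obtain ⟨J, hJ, hsub⟩ := TT_sub z hm N h
    have hc : (TT z N).card ≤ J + 1 := by
      have := Finset.card_le_card hsub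
      rwa [Finset.card_range] at this
    calc 4 ^ (TT z N).card ≤ 4 ^ (J + 1) := Nat.pow_le_pow_right (by norm_num) hc
      _ ≤ z J := pow4 z hz hz1 J
      _ ≤ N := hJ
  · rw [Finset.not_nonempty_iff_eq_empty] at h
    rw [h, Finset.card_empty, pow_zero]
    exact hN

/-- Indices of the dyadic blocks relevant for `N`. -/
private def KK (N : ℕ) : Finset ℕ := (range (2 * N)).filter fun k => 2 ^ k < 2 * N

private lemma mem_KK (N k : ℕ) : k ∈ KK N ↔ 2 ^ k < 2 * N := by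
  unfold KK
  rw [Finset.mem_filter, Finset.mem_range]
  have := Nat.lt_two_pow_self (n := k)
  constructor
  · exact fun h => h.2
  · exact fun h => ⟨by omega, h⟩

private lemma KK_card (N : ℕ) (hN : 1 ≤ N) : (2 : ℝ) ^ (KK N).card ≤ 4 * N := by
  have hsub : KK N ⊆ range (Nat.log 2 (2 * N) + 1) := by
    intro k hk
    rw [mem_KK] at hk
    rw [Finset.mem_range, Nat.lt_succ_iff]
    exact Nat.le_log_of_pow_le (by norm_num) hk.le
  have hc : (KK N).card ≤ Nat.log 2 (2 * N) + 1 := by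
    have := Finset.card_le_card hsub
    rwa [Finset.card_range] at this
  have h1 : 2 ^ (KK N).card ≤ 4 * N := by
    calc 2 ^ (KK N).card ≤ 2 ^ (Nat.log 2 (2 * N) + 1) := Nat.pow_le_pow_right (by norm_num) hc
      _ = 2 ^ Nat.log 2 (2 * N) * 2 := pow_succ _ _
      _ ≤ (2 * N) * 2 := by
          gcongr
          exact Nat.pow_log_le_self 2 (by omega)
      _ = 4 * N := by ring
  exact_mod_cast h1

/-- The cells. -/
private def cc (cD cS : ℕ → Finset ℕ) : ℕ ⊕ ℕ → Finset ℕ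
  | Sum.inl k => cD k
  | Sum.inr j => cS j

/-- The weights of the cells. -/
private def ww (cD cS : ℕ → Finset ℕ) (wD : ∀ k, ({p // p ∈ cD k} → ℤˣ) → ℝ)
    (wS : ∀ j, ({p // p ∈ cS j} → ℤˣ) → ℝ) : ∀ i, ({p // p ∈ cc cD cS i} → ℤˣ) → ℝ
  | Sum.inl k => wD k
  | Sum.inr j => wS j

/-- The flips. -/
private def sf (idx : ℕ → ℕ) (L B : ℕ → Finset ℕ) (σ : ℕ → ℤˣ × ℤˣ) (n : ℕ) : ℤˣ :=
  if n ∈ L (idx n) then (σ (idx n)).1 else if n ∈ B (idx n) then (σ (idx n)).2 else 1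

theorem EX : ∃ g : ℕ → ℤ, ChowlaClass g ∧ ∀ ε : ℝ, 0 < ε → ∀ N₀ : ℕ, ∃ N : ℕ, N₀ ≤ N ∧
    ∃ x : ℝ, x ∈ Set.Icc (0 : ℝ) 1 ∧ (N : ℝ) ^ (3 / 4 - ε) ≤ ‖F g N x‖ := by
  classical
  obtain ⟨CR, hCR0, hRB⟩ := BLK
  obtain ⟨CN, hCN0, hNS⟩ := ORD
  have hδ0 : ∀ j : ℕ, (0 : ℝ) < 1 / ((j : ℝ) + 10) := fun j => by positivity
  have hδ1 : ∀ j : ℕ, (1 : ℝ) / ((j : ℝ) + 10) ≤ 1 / 10 := fun j => by
    apply one_div_le_one_div_of_le (by norm_num)
    have : (0 : ℝ) ≤ j := Nat.cast_nonneg j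
    linarith
  choose z₀ hz₀ using fun j : ℕ => hRB (1 / ((j : ℝ) + 10)) (hδ0 j) (hδ1 j)
  obtain ⟨z, hzG, hz2, hz3, hz4⟩ := SC2 (fun n => max (2 ^ (n ^ 2)) (16 * n ^ 2)) z₀
  have hz1 : ∀ j, 16 * z j ^ 2 < z (j + 1) := fun j => lt_of_le_of_lt (le_max_right _ _) (hzG j)
  have hz1' : ∀ j, 2 ^ (z j ^ 2) < z (j + 1) := fun j => lt_of_le_of_lt (le_max_left _ _) (hzG j)
  have hsplit : ∀ j, ∃ L B : Finset ℕ, L ∪ B = (Ioc (3 * z j) (4 * z j)).filter Nat.Prime ∧
      Disjoint L B ∧ (z j : ℝ) ^ (1 - 1 / ((j : ℝ) + 10)) ≤ 4 * L.card ∧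
      (z j : ℝ) ^ (1 - 1 / ((j : ℝ) + 10)) ≤ 4 * B.card := by
    intro j
    apply split_card _ _ _ (hz4 j)
    apply Real.one_lt_rpow
    · have := hz3 j
      have : (16 : ℝ) ≤ z j := by exact_mod_cast this
      linarith
    · have := hδ1 j
      linarith
  choose L B hLB hdis hLc hBc using hsplit
  have hLP : ∀ j, ∀ p ∈ L j, p.Prime ∧ 3 * z j < p ∧ p ≤ 4 * z j := by
    intro j p hp
    have : p ∈ (Ioc (3 * z j) (4 * z j)).filter Nat.Prime := by
      rw [← hLB j]; exact Finset.mem_union_left _ hp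
    simp only [Finset.mem_filter, Finset.mem_Ioc] at this
    exact ⟨this.2, this.1.1, this.1.2⟩
  have hBP : ∀ j, ∀ p ∈ B j, p.Prime ∧ 3 * z j < p ∧ p ≤ 4 * z j := by
    intro j p hp
    have : p ∈ (Ioc (3 * z j) (4 * z j)).filter Nat.Prime := by
      rw [← hLB j]; exact Finset.mem_union_right _ hp
    simp only [Finset.mem_filter, Finset.mem_Ioc] at this
    exact ⟨this.2, this.1.1, this.1.2⟩
  choose wS wS0 hS1 hS2 hS3 hS4 hS5 using fun j : ℕ => hz₀ j (z j) (hz2 j) (L j) (B j)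
    (fun p hp => Finset.mem_Ioc.mpr (hLP j p hp).2)
    (fun p hp => Finset.mem_Ioc.mpr (hBP j p hp).2) (hdis j) (hLc j) (hBc j)
  -- monotonicity of the scales
  have hzlt : ∀ j, z j < z (j + 1) := by
    intro j
    have h1 := hz1 j
    have h3 := hz3 j
    nlinarith
  have hzmono : StrictMono z := strictMono_nat_of_lt_succ hzlt
  have hzj : ∀ j, j ≤ z j := fun j => hzmono.id_le j
  have hsep : ∀ i j, i < j → 16 * z i ^ 2 < z j := by
    intro i j hij
    exact lt_of_lt_of_le (hz1 i) (hzmono.monotone hij)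
  have huniq : ∀ i j n, (3 * z i < n ∧ n ≤ 4 * z i) → (3 * z j < n ∧ n ≤ 4 * z j) → i = j := by
    intro i j n hi hj
    rcases lt_trichotomy i j with h | h | h
    · exfalso
      have h1 := hsep i j h
      have h3 := hz3 i
      nlinarith
    · exact h
    · exfalso
      have h1 := hsep j i h
      have h3 := hz3 j
      nlinarith
  -- cells
  obtain ⟨cD, hcD⟩ : ∃ cD : ℕ → Finset ℕ, ∀ k, cD k = (Ioc (2 ^ k) (2 ^ (k + 1))).filter
      (fun p => p.Prime ∧ ¬ ∃ j, 3 * z j < p ∧ p ≤ 4 * z j) := ⟨_, fun _ => rfl⟩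
  choose wD hD1 hD2 hD3 using fun k : ℕ => hNS k (cD k)
    (by rw [hcD k]; exact Finset.filter_subset _ _)
  have hmD : ∀ k p, p ∈ cD k ↔ (2 ^ k < p ∧ p ≤ 2 ^ (k + 1) ∧ p.Prime ∧
      ¬ ∃ j, 3 * z j < p ∧ p ≤ 4 * z j) := by
    intro k p
    rw [hcD k, Finset.mem_filter, Finset.mem_Ioc, and_assoc]
  have hmS : ∀ j p, p ∈ L j ∪ B j ↔ (3 * z j < p ∧ p ≤ 4 * z j ∧ p.Prime) := by
    intro j p
    rw [hLB j, Finset.mem_filter, Finset.mem_Ioc, and_assoc]
  have hdisc : ∀ i j, i ≠ j → Disjoint (cc cD (fun j => L j ∪ B j) i)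
      (cc cD (fun j => L j ∪ B j) j) := by
    have hDS : ∀ k j, Disjoint (cD k) (L j ∪ B j) := by
      intro k j
      rw [Finset.disjoint_left]
      intro p hp hp'
      rw [hmD] at hp
      rw [hmS] at hp'
      exact hp.2.2.2 ⟨j, hp'.1, hp'.2.1⟩
    rintro (k | j) (k' | j') hne
    · show Disjoint (cD k) (cD k')
      have hkk : k ≠ k' := fun h => hne (by rw [h])
      rw [Finset.disjoint_left]
      intro p hp hp'
      rw [hmD] at hp hp'
      rcases lt_or_gt_of_ne hkk with h | h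
      · have : 2 ^ (k + 1) ≤ 2 ^ k' := Nat.pow_le_pow_right (by norm_num) h
        omega
      · have : 2 ^ (k' + 1) ≤ 2 ^ k := Nat.pow_le_pow_right (by norm_num) h
        omega
    · exact hDS k j'
    · exact (hDS k' j).symm
    · show Disjoint (L j ∪ B j) (L j' ∪ B j')
      have hjj : j ≠ j' := fun h => hne (by rw [h])
      rw [Finset.disjoint_left]
      intro p hp hp'
      rw [hmS] at hp hp'
      exact hjj (huniq j j' p ⟨hp.1, hp.2.1⟩ ⟨hp'.1, hp'.2.1⟩)
  let idx : ℕ → ℕ := fun n => if h : ∃ j, 3 * z j < n ∧ n ≤ 4 * z j then h.choose else 0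
  have hidx : ∀ j n, (3 * z j < n ∧ n ≤ 4 * z j) → idx n = j := by
    intro j n hn
    have hex : ∃ j, 3 * z j < n ∧ n ≤ 4 * z j := ⟨j, hn⟩
    have : idx n = hex.choose := dif_pos hex
    rw [this]
    exact huniq _ _ n hex.choose_spec hn
  obtain ⟨f, hf1, hf2⟩ := PIPE 2 (by norm_num) (cc cD (fun j => L j ∪ B j)) hdisc
    (ww cD (fun j => L j ∪ B j) wD wS)
    (ww cD (fun j => L j ∪ B j) (fun k x => wt (fun _ => 0) x) wS0)
    (by rintro (k | j)
        · exact hD1 k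
        · exact hS1 j)
    (by rintro (k | j)
        · exact (MU (cD k)).1
        · exact hS2 j)
    (Sum.elim (fun _ => 2) (fun j => (z j : ℝ) ^ 2))
    (by rintro (k | j)
        · show (1 : ℝ) ≤ 2
          norm_num
        · show (1 : ℝ) ≤ (z j : ℝ) ^ 2
          have : (16 : ℝ) ≤ z j := by exact_mod_cast hz3 j
          nlinarith)
    (by rintro (k | j)
        · exact hD2 k
        · exact hS3 j)
    (fun N => (KK N).disjSum (TT z N))
    (by intro N p hp hpN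
        by_cases hE : ∃ j, 3 * z j < p ∧ p ≤ 4 * z j
        · obtain ⟨j, hj⟩ := hE
          refine ⟨Sum.inr j, ?_, ?_⟩
          · rw [Finset.inr_mem_disjSum, mem_TT z hzj]
            omega
          · exact (hmS j p).mpr ⟨hj.1, hj.2, hp⟩
        · have hp2 := hp.two_le
          have h1 : 2 ^ Nat.log 2 (p - 1) ≤ p - 1 := Nat.pow_log_le_self 2 (by omega)
          have h2 : p - 1 < 2 ^ (Nat.log 2 (p - 1) + 1) := Nat.lt_pow_succ_log_self (by norm_num) _
          refine ⟨Sum.inl (Nat.log 2 (p - 1)), ?_, ?_⟩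
          · rw [Finset.inl_mem_disjSum, mem_KK]
            omega
          · exact (hmD _ p).mpr ⟨by omega, by omega, hp, hE⟩)
    4
    (by intro N hN
        rw [Finset.prod_disjSum]
        have hN0 : (0 : ℝ) ≤ N := Nat.cast_nonneg N
        have h1 : ∏ i ∈ KK N, (Sum.elim (fun _ => (2 : ℝ)) (fun j => (z j : ℝ) ^ 2)
            (Sum.inl i : ℕ ⊕ ℕ)) = 2 ^ (KK N).card := by
          simp
        have h2 : ∏ i ∈ TT z N, (Sum.elim (fun _ => (2 : ℝ)) (fun j => (z j : ℝ) ^ 2)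
            (Sum.inr i : ℕ ⊕ ℕ)) = ∏ i ∈ TT z N, (z i : ℝ) ^ 2 := by
          simp
        rw [h1, h2]
        calc (2 : ℝ) ^ (KK N).card * ∏ i ∈ TT z N, (z i : ℝ) ^ 2
            ≤ (4 * N) * (N : ℝ) ^ 4 := by
              gcongr
              · exact KK_card N hN
              · exact TT_prod z hz1 hz3 hzmono N hN
          _ = 4 * (N : ℝ) ^ 5 := by ring)
    (fun N => {j // j ∈ TT z N} → ℤˣ × ℤˣ)
    (fun N φ => sf idx L B (fun j => if h : j ∈ TT z N then φ ⟨j, h⟩ else 1))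
    (by intro N hN
        have := TT_card z hz1 hz3 hzmono N hN
        simpa [Fintype.card_units_int] using this)
    (by intro k hk r ε hε
        exact MBA z hz1' hz3 (cc cD (fun j => L j ∪ B j)) hmD hmS
          (ww cD (fun j => L j ∪ B j) (fun k x => wt (fun _ => 0) x) wS0)
          (fun k S => (MU (cD k)).2 S) (fun j S => hS4 j S)
          (fun N => (KK N).disjSum (TT z N))
          (fun N k => by rw [Finset.inl_mem_disjSum, mem_KK])
          (fun N j => by rw [Finset.inr_mem_disjSum, mem_TT z hzj]) k hk r ε hε)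
  have hfD : ∀ k, 0 < wD k (rs (cD k) f) := fun k => hf1 (Sum.inl k)
  have hfS : ∀ j, 0 < wS j (rs (L j ∪ B j) f) := fun j => hf1 (Sum.inr j)
  let G : (ℕ → ℤˣ × ℤˣ) → ℕ → ℤ := fun σ n => ((sf idx L B σ n * f n : ℤˣ) : ℤ)
  have hGL : ∀ σ j n, n ∈ L j → G σ n = ((σ j).1 : ℤ) * ((f n : ℤˣ) : ℤ) := by
    intro σ j n hn
    have h1 : idx n = j := hidx j n (hLP j n hn).2
    show ((sf idx L B σ n * f n : ℤˣ) : ℤ) = _
    unfold sf
    rw [h1, if_pos hn]
    push_cast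
    rfl
  have hGB : ∀ σ j n, n ∈ B j → G σ n = ((σ j).2 : ℤ) * ((f n : ℤˣ) : ℤ) := by
    intro σ j n hn
    have h1 : idx n = j := hidx j n (hBP j n hn).2
    have h2 : n ∉ L j := fun h => (Finset.disjoint_left.mp (hdis j) h) hn
    show ((sf idx L B σ n * f n : ℤˣ) : ℤ) = _
    unfold sf
    rw [h1, if_neg h2, if_pos hn]
    push_cast
    rfl
  have hGO : ∀ σ n, (∀ j, n ∉ L j) → (∀ j, n ∉ B j) → G σ n = ((f n : ℤˣ) : ℤ) := by
    intro σ n h1 h2
    show ((sf idx L B σ n * f n : ℤˣ) : ℤ) = _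
    unfold sf
    rw [if_neg (h1 _), if_neg (h2 _), one_mul]
  have hGpm : ∀ σ n, G σ n = 1 ∨ G σ n = -1 := by
    intro σ n
    show ((sf idx L B σ n * f n : ℤˣ) : ℤ) = 1 ∨ ((sf idx L B σ n * f n : ℤˣ) : ℤ) = -1
    rcases Int.units_eq_one_or (sf idx L B σ n * f n) with h | h <;> simp [h]
  have hPS : ∀ σ, PS (G σ) := by
    intro σ
    refine GLU z hz1 hz3 L B hLB hdis (G σ) (max CR CN) ?_ ?_ ?_
    · intro j q χ t y hq
      have h := (hS5 j f (hfS j)).1 q χ t y hq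
      have e1 : ∑ p ∈ (L j).filter (· ≤ y), (G σ p : ℂ) * χ (p : ZMod q) * npi p t =
          (((σ j).1 : ℤ) : ℂ) * ∑ p ∈ (L j).filter (· ≤ y),
            (((f p : ℤˣ) : ℤ) : ℂ) * χ (p : ZMod q) * npi p t := by
        rw [Finset.mul_sum]
        apply Finset.sum_congr rfl
        intro p hp
        rw [hGL σ j p (Finset.mem_filter.mp hp).1]
        push_cast
        ring
      rw [e1, norm_unit_mul]
      refine h.trans ?_
      gcongr
      exact le_max_left _ _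
    · intro j q χ t y hq
      have h := (hS5 j f (hfS j)).2.1 q χ t y hq
      have e1 : ∑ p ∈ (B j).filter (· ≤ y), (G σ p : ℂ) * χ (p : ZMod q) * npi p t =
          (((σ j).2 : ℤ) : ℂ) * ∑ p ∈ (B j).filter (· ≤ y),
            (((f p : ℤˣ) : ℤ) : ℂ) * χ (p : ZMod q) * npi p t := by
        rw [Finset.mul_sum]
        apply Finset.sum_congr rfl
        intro p hp
        rw [hGB σ j p (Finset.mem_filter.mp hp).1]
        push_cast
        ring
      rw [e1, norm_unit_mul]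
      refine h.trans ?_
      gcongr
      exact le_max_left _ _
    · intro k q χ t y hq
      have h := hD3 k f (hfD k) q χ t y hq
      have e0 : (Ioc (2 ^ k) (2 ^ (k + 1))).filter
          (fun p => p.Prime ∧ p ∉ {n : ℕ | ∃ j, 3 * z j < n ∧ n ≤ 4 * z j} ∧ p ≤ y) =
          (cD k).filter (· ≤ y) := by
        apply Finset.ext
        intro p
        rw [Finset.mem_filter, Finset.mem_filter, hmD, Finset.mem_Ioc, Set.mem_setOf_eq]
        tauto
      have e1 : ∑ p ∈ (cD k).filter (· ≤ y), (G σ p : ℂ) * χ (p : ZMod q) * npi p t =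
          ∑ p ∈ (cD k).filter (· ≤ y), (((f p : ℤˣ) : ℤ) : ℂ) * χ (p : ZMod q) * npi p t := by
        apply Finset.sum_congr rfl
        intro p hp
        have hp' := (hmD k p).mp (Finset.mem_filter.mp hp).1
        rw [hGO σ p (fun j hj => hp'.2.2.2 ⟨j, (hLP j p hj).2⟩)
          (fun j hj => hp'.2.2.2 ⟨j, (hBP j p hj).2⟩)]
      rw [e0, e1]
      refine h.trans ?_
      gcongr
      exact le_max_right _ _
  -- the class
  have hclass : ∀ σ, ChowlaClass (ext (G σ)) := by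
    intro σ
    have hG := P3 (G σ) (fun p _ => hGpm σ p) (hPS σ)
    refine ⟨hG.mul, hG.sq, fun ε hε => one_of_GRH _ hG ε hε, ?_⟩
    intro k hk ε hε
    obtain ⟨C, hC⟩ := hf2 k hk ε hε
    refine ⟨C, fun M N hMN hN h hinj hle x => ?_⟩
    refine le_trans (le_of_eq ?_) (hC M N hMN hN h hinj hle (fun j => σ j) x)
    congr 1
    apply corr_congr h M N hMN hle
    intro p hp
    show ((sf idx L B σ p * f p : ℤˣ) : ℤ) = ((sf idx L B _ p * f p : ℤˣ) : ℤ)
    congr 2
    unfold sf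
    by_cases hE : idx p ∈ TT z N
    · simp only [dif_pos hE]
    · have h1 : p ∉ L (idx p) := fun h => hE ((mem_TT z hzj N _).mpr
        (lt_of_lt_of_le (hLP _ _ h).2.1 hp))
      have h2 : p ∉ B (idx p) := fun h => hE ((mem_TT z hzj N _).mpr
        (lt_of_lt_of_le (hBP _ _ h).2.1 hp))
      simp only [if_neg h1, if_neg h2]
  -- the conditions
  let P : ℕ → (ℕ → ℤˣ × ℤˣ) → Prop := fun j σ =>
    (z j : ℝ) ^ (3 / 2 - 4 * (1 / ((j : ℝ) + 10))) ≤
      ‖F (ext (G σ)) (16 * z j ^ 2) (1 / (4 * z j + 1))‖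
  have hFcongr : ∀ (a b : ℕ → ℤ) (N : ℕ) (x : ℝ), (∀ n, n ≤ N → a n = b n) →
      F (ext a) N x = F (ext b) N x := by
    intro a b N x hab
    unfold F
    apply Finset.sum_congr rfl
    intro n hn
    congr 2
    exact ext_congr' (Finset.mem_Icc.mp hn).1
      (fun p hp => hab p (hp.trans (Finset.mem_Icc.mp hn).2))
  have hloc : ∀ (j : ℕ) (σ τ : ℕ → ℤˣ × ℤˣ), (∀ i ≤ j, σ i = τ i) → P j σ → P j τ := by
    intro j σ τ hst h
    have hG : ∀ n, n ≤ 16 * z j ^ 2 → G σ n = G τ n := by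
      intro n hn
      by_cases hE : ∃ i, 3 * z i < n ∧ n ≤ 4 * z i
      · obtain ⟨i, hi⟩ := hE
        have hij : i ≤ j := by
          by_contra hcon
          push Not at hcon
          have := hsep j i hcon
          omega
        by_cases h1 : n ∈ L i
        · rw [hGL σ i n h1, hGL τ i n h1, hst i hij]
        · by_cases h2 : n ∈ B i
          · rw [hGB σ i n h2, hGB τ i n h2, hst i hij]
          · have h3 : ∀ k, n ∉ L k := fun k hk => by
              have := huniq k i n (hLP k n hk).2 hi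
              exact h1 (this ▸ hk)
            have h4 : ∀ k, n ∉ B k := fun k hk => by
              have := huniq k i n (hBP k n hk).2 hi
              exact h2 (this ▸ hk)
            rw [hGO σ n h3 h4, hGO τ n h3 h4]
      · have h3 : ∀ k, n ∉ L k := fun k hk => hE ⟨k, (hLP k n hk).2⟩
        have h4 : ∀ k, n ∉ B k := fun k hk => hE ⟨k, (hBP k n hk).2⟩
        rw [hGO σ n h3 h4, hGO τ n h3 h4]
    show _ ≤ ‖F (ext (G τ)) (16 * z j ^ 2) (1 / (4 * z j + 1))‖
    rw [← hFcongr _ _ _ _ hG]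
    exact h
  have hex : ∀ (j : ℕ) (σ : ℕ → ℤˣ × ℤˣ), ∃ a : ℤˣ × ℤˣ, P j (Function.update σ j a) := by
    intro j σ
    obtain ⟨s, s', hss⟩ := PAR (z j) (by have := hz3 j; omega) (L j) (B j) (hLP j) (hBP j)
      (hdis j) (G (Function.update σ j (1, 1))) (1 / (4 * z j + 1))
    refine ⟨(s, s'), ?_⟩
    have e1 : (fun n => if n ∈ L j then (s : ℤ) * G (Function.update σ j (1, 1)) n
        else if n ∈ B j then (s' : ℤ) * G (Function.update σ j (1, 1)) n
        else G (Function.update σ j (1, 1)) n) = G (Function.update σ j (s, s')) := by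
      funext n
      by_cases h1 : n ∈ L j
      · simp only [if_pos h1]
        rw [hGL _ j n h1, hGL _ j n h1]
        simp
      · by_cases h2 : n ∈ B j
        · simp only [if_neg h1, if_pos h2]
          rw [hGB _ j n h2, hGB _ j n h2]
          simp
        · simp only [if_neg h1, if_neg h2]
          show ((sf idx L B _ n * f n : ℤˣ) : ℤ) = ((sf idx L B _ n * f n : ℤˣ) : ℤ)
          congr 2
          unfold sf
          by_cases hi : idx n = j
          · rw [hi]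
            simp only [if_neg h1, if_neg h2]
          · rw [Function.update_of_ne hi, Function.update_of_ne hi]
    have e2 : ∑ p ∈ B j, ∑ l ∈ L j, (G (Function.update σ j (1, 1)) p : ℂ) *
        (G (Function.update σ j (1, 1)) l : ℂ) * e ((p * l : ℕ) * (1 / (4 * z j + 1))) =
        ∑ p ∈ B j, ∑ l ∈ L j, (((f p : ℤˣ) : ℤ) : ℂ) * (((f l : ℤˣ) : ℤ) : ℂ) *
          e ((p * l : ℕ) * (1 / (4 * z j + 1))) := by
      apply Finset.sum_congr rfl
      intro p hp
      apply Finset.sum_congr rfl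
      intro l hl
      rw [hGB _ j p hp, hGL _ j l hl]
      simp
    rw [e1, e2] at hss
    exact ((hS5 j f (hfS j)).2.2).trans hss
  obtain ⟨σ, hσ⟩ := SEQ P hloc hex
  refine ⟨ext (G σ), hclass σ, ?_⟩
  intro ε hε N₀
  -- choose j
  have hlim : Filter.Tendsto (fun j : ℕ => ((z j : ℝ)) ^ ε) Filter.atTop Filter.atTop := by
    apply (tendsto_rpow_atTop hε).comp
    exact tendsto_natCast_atTop_atTop.comp hzmono.tendsto_atTop
  obtain ⟨j, hj1, hj2, hj3⟩ : ∃ j : ℕ, (8 : ℝ) ≤ (z j : ℝ) ^ ε ∧ N₀ ≤ j ∧ 4 / ε ≤ (j : ℝ) := by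
    have h1 := hlim.eventually (Filter.eventually_ge_atTop (8 : ℝ))
    have h2 := Filter.eventually_ge_atTop N₀
    have h3 := (tendsto_natCast_atTop_atTop (R := ℝ)).eventually
      (Filter.eventually_ge_atTop (4 / ε))
    obtain ⟨j, hj⟩ := (h1.and (h2.and h3)).exists
    exact ⟨j, hj.1, hj.2.1, hj.2.2⟩
  have hzpos : (0 : ℝ) < z j := by
    have := hz3 j
    have : (16 : ℝ) ≤ z j := by exact_mod_cast this
    linarith
  refine ⟨16 * z j ^ 2, ?_, 1 / (4 * z j + 1), ?_, ?_⟩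
  · have := hzj j
    have h3 := hz3 j
    nlinarith
  · constructor
    · positivity
    · rw [div_le_one (by positivity)]
      linarith
  · refine le_trans ?_ (hσ j)
    have hd : 4 * (1 / ((j : ℝ) + 10)) ≤ ε := by
      rw [mul_one_div, div_le_iff₀ (by positivity)]
      rw [div_le_iff₀ hε] at hj3
      nlinarith
    have hone : (1 : ℝ) ≤ z j := by
      have := hz3 j
      have : (16 : ℝ) ≤ z j := by exact_mod_cast this
      linarith
    have h16 : ((16 * z j ^ 2 : ℕ) : ℝ) = 16 * (z j : ℝ) ^ (2 : ℕ) := by push_cast; ring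
    rw [h16, Real.mul_rpow (by norm_num) (by positivity)]
    have e1 : ((z j : ℝ) ^ (2 : ℕ)) ^ (3 / 4 - ε) = (z j : ℝ) ^ (3 / 2 - 2 * ε) := by
      rw [← Real.rpow_natCast, ← Real.rpow_mul hzpos.le]
      congr 1
      push_cast
      ring
    have e2 : (16 : ℝ) ^ (3 / 4 - ε) ≤ 8 := by
      have h8 : (16 : ℝ) ^ (3 / 4 : ℝ) = 8 := by
        rw [show (16 : ℝ) = 2 ^ (4 : ℝ) by norm_num, ← Real.rpow_mul (by norm_num)]
        norm_num
      rw [← h8]
      apply Real.rpow_le_rpow_of_exponent_le (by norm_num)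
      linarith
    rw [e1]
    calc (16 : ℝ) ^ (3 / 4 - ε) * (z j : ℝ) ^ (3 / 2 - 2 * ε)
        ≤ (z j : ℝ) ^ ε * (z j : ℝ) ^ (3 / 2 - 2 * ε) := by
          gcongr
          exact e2.trans hj1
      _ = (z j : ℝ) ^ (3 / 2 - ε) := by
          rw [← Real.rpow_add hzpos]
          congr 1
          ring
      _ ≤ (z j : ℝ) ^ (3 / 2 - 4 * (1 / ((j : ℝ) + 10))) := by
          apply Real.rpow_le_rpow_of_exponent_le hone
          linarith

end Pool.Agent.Helper92.CB
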