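import Mathlib
import Pool.Agent.Helper92.CB.Defs
import Pool.Agent.Helper92.CB.MBN
import Pool.Agent.Helper92.CB.DIV
import Pool.Agent.Helper92.CB.OPS
import Pool.Agent.Helper92.CB.PIPE
import Pool.Agent.Helper92.GB.P3

/-!
# Block CB-HALF (MP_b6b996_nt)
A member of the class with exponent 1/2 (random signs).
Proof. PIPE with `k0 = 1`, `I = ℕ`, `c i` = primes in `(2^i, 2^(i+1)]`, `w = w0` uniform (MU), `D = 1`, `rel N = {i : 2^i < 2N}`, one flip (`Fl N = Unit`, `sg = 1`).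
hMB: MBN with `S = Low = ∅`, `t = 0`, `z = 1` (EL_ch, MU: all moments of nonempty `W` vanish) and DIV2. The function `g = ext f` is multiplicative with `g² = μ²` (GB/P3: `ext_mul`, `ext_sq`);
`corr g (fun _ : Fin 1 => 0) N x = F g N x`, and `x = 0` gives the clause `one`.
-/

set_option autoImplicit false

namespace Pool.Agent.Helper92.CB

open Finset
open Pool.Agent.Helper92.GB (e ext F npi wt)

/-- the primes in `(2^i, 2^(i+1)]` -/
private def h4c (i : ℕ) : Finset ℕ := (Icc (2 ^ i + 1) (2 ^ (i + 1))).filter Nat.Prime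

private theorem h4c_disj (i j : ℕ) (hij : i ≠ j) : Disjoint (h4c i) (h4c j) := by
  rw [Finset.disjoint_left]
  intro p hp hq
  unfold h4c at hp hq
  rw [mem_filter, mem_Icc] at hp hq
  rcases lt_or_gt_of_ne hij with h | h
  · have h1 : 2 ^ (i + 1) ≤ 2 ^ j := Nat.pow_le_pow_right (by norm_num) h
    omega
  · have h1 : 2 ^ (j + 1) ≤ 2 ^ i := Nat.pow_le_pow_right (by norm_num) h
    omega

private def h4rel (N : ℕ) : Finset ℕ := (range (2 * N)).filter (fun i => 2 ^ i < 2 * N)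

private theorem h4cov (N p : ℕ) (hp : p.Prime) (hpN : p ≤ 2 * N) : ∃ i ∈ h4rel N, p ∈ h4c i := by
  have h2 := hp.two_le
  have h0 : p - 1 ≠ 0 := by omega
  have h3 : 2 ^ (Nat.log 2 (p - 1)) ≤ p - 1 := Nat.pow_log_le_self 2 h0
  have h4 : p - 1 < 2 ^ (Nat.log 2 (p - 1) + 1) := Nat.lt_pow_succ_log_self (by norm_num) _
  refine ⟨Nat.log 2 (p - 1), ?_, ?_⟩
  · unfold h4rel
    rw [mem_filter, mem_range]
    have h5 : Nat.log 2 (p - 1) < 2 ^ (Nat.log 2 (p - 1)) := Nat.lt_two_pow_self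
    constructor <;> omega
  · unfold h4c
    rw [mem_filter, mem_Icc]
    exact ⟨⟨by omega, by omega⟩, hp⟩

private theorem h4one (f : ℕ → ℤ) (N : ℕ) (x : ℝ) :
    corr (ext f) (fun _ : Fin 1 => 0) N x = F (ext f) N x := by
  unfold corr F
  refine sum_congr rfl fun n _ => ?_
  simp

theorem HALF : ∃ g : ℕ → ℤ, ChowlaClass g ∧ ∀ ε : ℝ, 0 < ε → ∃ C : ℝ, ∀ N : ℕ, 1 ≤ N →
    ∀ x : ℝ, ‖F g N x‖ ≤ C * (N : ℝ) ^ (1 / 2 + ε) := by
  classical
  have hMU := fun i : ℕ => MU (h4c i)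
  obtain ⟨f, -, hf⟩ := PIPE 1 le_rfl h4c h4c_disj
    (fun i => fun x : {p // p ∈ h4c i} → ℤˣ => wt (fun _ => 0) x)
    (fun i => fun x : {p // p ∈ h4c i} → ℤˣ => wt (fun _ => 0) x)
    (fun i => (hMU i).1) (fun i => (hMU i).1) (fun _ => 1) (fun _ => le_rfl)
    (fun i x => by rw [one_mul]) h4rel h4cov 1
    (fun N hN => by
      rw [prod_const_one, one_mul]
      have : (1 : ℝ) ≤ N := by exact_mod_cast hN
      exact one_le_pow₀ this)
    (fun _ => Unit) (fun _ _ _ => 1) (fun N hN => by simpa using hN)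
    (by
      intro k hk r ε hε
      have hA : (1 : ℝ) ≤ 18 ^ (k * r * 2 ^ r) * 2 ^ ((k + k ^ 2) * 2 ^ r) := by
        have h1 : (1 : ℝ) ≤ 18 ^ (k * r * 2 ^ r) := one_le_pow₀ (by norm_num)
        have h2 : (1 : ℝ) ≤ 2 ^ ((k + k ^ 2) * 2 ^ r) := one_le_pow₀ (by norm_num)
        nlinarith
      obtain ⟨C, hC1, hC⟩ := DIV2 (18 ^ (k * r * 2 ^ r) * 2 ^ ((k + k ^ 2) * 2 ^ r)) (ε * 2 ^ r) hA
        (by positivity)
      refine ⟨(6 * k) ^ (2 ^ r) * C, ?_⟩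
      intro N hN h hinj hle a ha l hl hmem
      obtain ⟨τ, hτ, hAτ⟩ := hC N hN
      obtain ⟨Lf, hLf⟩ := EL_lin h4c (fun i => fun x : {p // p ∈ h4c i} → ℤˣ => wt (fun _ => 0) x) l (fun _ => 1)
      have hW : ∀ W : Finset ℕ, (∀ p ∈ W, p.Prime ∧ p ≤ 2 * N) → Lf (ch W) =
          (l.map fun i => mom (h4c i) (fun x : {p // p ∈ h4c i} → ℤˣ => wt (fun _ => 0) x) W).prod := by
        intro W hW
        rw [hLf]
        refine EL_ch h4c _ h4c_disj l hl W ?_ _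
        intro p hp
        obtain ⟨i, hi, hpi⟩ := h4cov N p (hW p hp).1 (hW p hp).2
        exact ⟨i, (hmem i).2 hi, hpi⟩
      have hL0 : ∀ W : Finset ℕ, (∀ p ∈ W, p.Prime ∧ p ≤ 2 * N) → W ≠ ∅ → Lf (ch W) = 0 := by
        intro W hWp hne
        rw [hW W hWp]
        obtain ⟨p, hp⟩ := nonempty_of_ne_empty hne
        obtain ⟨i, hi, hpi⟩ := h4cov N p (hWp p hp).1 (hWp p hp).2
        apply List.prod_eq_zero
        rw [List.mem_map]
        refine ⟨i, (hmem i).2 hi, ?_⟩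
        rw [(hMU i).2 W, if_neg]
        intro h0
        have : p ∈ W ∩ h4c i := mem_inter.2 ⟨hp, hpi⟩
        rw [h0] at this
        exact absurd this (notMem_empty _)
      have key := MBN hk r N 1 hN le_rfl h hinj hle a ha ∅ ∅ (fun p hp => absurd hp (notMem_empty _))
        (Or.inr rfl) τ hτ 0 (fun n _ => by simp) Lf
        (fun W hWp hne => hL0 W hWp (by
          rintro rfl
          exact hne (empty_subset _)))
        (fun W hWp => by
          rw [inter_empty, card_empty, pow_zero]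
          by_cases hne : W = ∅
          · rw [hW W hWp, hne]
            have h1 : ∀ i ∈ l, mom (h4c i) (fun x : {p // p ∈ h4c i} → ℤˣ => wt (fun _ => 0) x) ∅ = 1 := by
              intro i _
              rw [(hMU i).2 ∅, if_pos (empty_inter _)]
            rw [List.map_congr_left h1]
            simp
          · rw [hL0 W hWp hne, abs_zero]
            exact zero_le_one)
      rw [← hLf]
      refine key.trans ?_
      have hN0 : (0 : ℝ) < N := by exact_mod_cast hN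
      have e1 : (18 : ℝ) ^ (k * τ * r * 2 ^ r) *
          (6 * k * N * 2 ^ ((∅ : Finset ℕ).card + (k + k ^ 2) * τ) * Real.exp (8 * ((0 : ℕ) : ℝ))) ^ (2 ^ r) =
          (6 * k) ^ (2 ^ r) * (N : ℝ) ^ (2 ^ r) * (18 ^ (k * r * 2 ^ r) * 2 ^ ((k + k ^ 2) * 2 ^ r)) ^ τ := by
        have e2 : k * τ * r * 2 ^ r = k * r * 2 ^ r * τ := by ring
        have e3 : (k + k ^ 2) * τ * 2 ^ r = (k + k ^ 2) * 2 ^ r * τ := by ring
        rw [card_empty, zero_add, Nat.cast_zero, mul_zero, Real.exp_zero, mul_one, mul_pow (6 * (k : ℝ) * N),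
          mul_pow (6 * (k : ℝ)), ← pow_mul, e2, e3, pow_mul (18 : ℝ), pow_mul (2 : ℝ) ((k + k ^ 2) * 2 ^ r),
          mul_pow ((18 : ℝ) ^ (k * r * 2 ^ r))]
        ring
      rw [e1]
      have e4 : (N : ℝ) ^ ((1 + ε) * 2 ^ r) = (N : ℝ) ^ (2 ^ r) * (N : ℝ) ^ (ε * 2 ^ r) := by
        have e5 : (1 + ε) * (2 : ℝ) ^ r = ((2 ^ r : ℕ) : ℝ) + ε * 2 ^ r := by
          push_cast
          ring
        rw [e5, Real.rpow_add hN0, Real.rpow_natCast]
      rw [e4]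
      have e6 : (0 : ℝ) ≤ (6 * k) ^ (2 ^ r) * (N : ℝ) ^ (2 ^ r) := by positivity
      calc (6 * k) ^ (2 ^ r) * (N : ℝ) ^ (2 ^ r) * (18 ^ (k * r * 2 ^ r) * 2 ^ ((k + k ^ 2) * 2 ^ r)) ^ τ
          ≤ (6 * k) ^ (2 ^ r) * (N : ℝ) ^ (2 ^ r) * (C * (N : ℝ) ^ (ε * 2 ^ r)) :=
            mul_le_mul_of_nonneg_left hAτ e6
        _ = _ := by ring)
  have hf' : ∀ k : ℕ, 1 ≤ k → ∀ ε : ℝ, 0 < ε → ∃ C : ℝ, ∀ M N : ℕ, M ≤ N → 1 ≤ N → ∀ h : Fin k → ℕ,
      Function.Injective h → (∀ i, h i ≤ N) → ∀ (x : ℝ),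
      ‖corr (ext fun n => ((f n : ℤˣ) : ℤ)) h M x‖ ≤ C * (N : ℝ) ^ (1 / 2 + ε) := by
    intro k hk ε hε
    obtain ⟨C, hC⟩ := hf k hk ε hε
    refine ⟨C, fun M N hMN hN h hinj hle x => ?_⟩
    have := hC M N hMN hN h hinj hle () x
    simp only [one_mul] at this
    exact this
  have hF : ∀ ε : ℝ, 0 < ε → ∃ C : ℝ, ∀ N : ℕ, 1 ≤ N →
      ∀ x : ℝ, ‖F (ext fun n => ((f n : ℤˣ) : ℤ)) N x‖ ≤ C * (N : ℝ) ^ (1 / 2 + ε) := by
    intro ε hε
    obtain ⟨C, hC⟩ := hf' 1 le_rfl ε hε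
    refine ⟨C, fun N hN x => ?_⟩
    rw [← h4one]
    exact hC N N le_rfl hN _ (fun i j _ => Subsingleton.elim i j) (fun i => Nat.zero_le _) x
  refine ⟨ext fun n => ((f n : ℤˣ) : ℤ), ⟨Pool.Agent.Helper92.GB.ext_mul _,
    Pool.Agent.Helper92.GB.ext_sq _ (fun p _ => ?_), ?_, ?_⟩, hF⟩
  · rcases Int.units_eq_one_or (f p) with h | h
    · left; rw [h]; rfl
    · right; rw [h]; rfl
  · intro ε hε
    obtain ⟨C, hC⟩ := hF ε hε
    refine ⟨C, fun N hN => ?_⟩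
    have h1 := hC N hN 0
    have h2 : F (ext fun n => ((f n : ℤˣ) : ℤ)) N 0 =
        (((((∑ n ∈ Icc 1 N, (ext fun n => ((f n : ℤˣ) : ℤ)) n : ℤ) : ℝ)) : ℝ) : ℂ) := by
      unfold F e
      push_cast
      refine sum_congr rfl fun n _ => ?_
      simp
    rw [h2, Complex.norm_real, Real.norm_eq_abs] at h1
    exact h1
  · intro k hk ε hε
    obtain ⟨C, hC⟩ := hf' k (by omega) ε hε
    exact ⟨C, fun M N hMN hN h hinj hle x => hC M N hMN hN h hinj hle x⟩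

end Pool.Agent.Helper92.CB
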